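import Pool.Agent.Helper14.W4.H1

set_option autoImplicit false

/-!
# Separation by contractions
-/

noncomputable section

open TensorProduct
open scoped Classical

namespace Helper14.W4

open Helper14.Gon

universe u v w

section
variable {F : Type u} [Field F] {I : Type v}

/-- a functional composed with a homomorphism to a space with a basis -/
def fD (D : Additive Fˣ →+ (I →₀ ℚ)) (φ : (I →₀ ℚ) →ₗ[ℚ] ℚ) : Additive Fˣ →+ ℚ :=
  φ.toAddMonoidHom.comp D

/-- the coordinates -/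
def co (D : Additive Fˣ →+ (I →₀ ℚ)) (i : I) : Additive Fˣ →+ ℚ := fD D (Finsupp.lapply i)

lemma fD_apply (D : Additive Fˣ →+ (I →₀ ℚ)) (φ : (I →₀ ℚ) →ₗ[ℚ] ℚ) (v : Additive Fˣ) :
    fD D φ v = φ (D v) := rfl

lemma co_apply (D : Additive Fˣ →+ (I →₀ ℚ)) (i : I) (v : Additive Fˣ) :
    co D i v = D v i := rfl

lemma fD_sum (D : Additive Fˣ →+ (I →₀ ℚ)) (φ : (I →₀ ℚ) →ₗ[ℚ] ℚ) (v : Additive Fˣ)
    {s : Finset I} (hs : (D v).support ⊆ s) :
    fD D φ v = ∑ i ∈ s, φ (Finsupp.single i 1) * co D i v := by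
  have h : D v = ∑ i ∈ s, (D v i) • Finsupp.single i (1 : ℚ) := by
    conv_lhs => rw [← Finsupp.sum_single (D v)]
    rw [Finsupp.sum, Finset.sum_subset hs]
    · refine Finset.sum_congr rfl fun i _ => ?_
      rw [Finsupp.smul_single, smul_eq_mul, mul_one]
    · intro i _ hi
      rw [Finsupp.notMem_support_iff.1 hi, Finsupp.single_zero]
  rw [fD_apply, h, map_sum]
  refine Finset.sum_congr rfl fun i hi => ?_
  rw [map_smul, smul_eq_mul, mul_comm, co_apply]

/-- the contraction with a functional is a finite combination of contractions with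
coordinates -/
lemma ctT_fin (D : Additive Fˣ →+ (I →₀ ℚ)) (j : ℕ) (ω : Tx (j + 1) F) :
    ∃ s : Finset I, ∀ s', s ⊆ s' → ∀ φ : (I →₀ ℚ) →ₗ[ℚ] ℚ,
      ctT j (fD D φ) ω = ∑ i ∈ s', φ (Finsupp.single i 1) • ctT j (co D i) ω := by
  induction j with
  | zero =>
    induction ω using Tx_ind with
    | h0 => exact ⟨∅, fun s' _ φ => by simp⟩
    | hadd a b ha hb =>
      obtain ⟨s, hs⟩ := ha
      obtain ⟨t, ht⟩ := hb
      refine ⟨s ∪ t, fun s' hs' φ => ?_⟩
      rw [map_add, hs s' (Finset.union_subset_left hs') φ,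
        ht s' (Finset.union_subset_right hs') φ, ← Finset.sum_add_distrib]
      refine Finset.sum_congr rfl fun i _ => ?_
      rw [map_add, smul_add]
    | h1 v ω =>
      refine ⟨(D v).support, fun s' hs' φ => ?_⟩
      rw [ctT_wT_zero, fD_sum D φ v hs', Finset.sum_smul]
      refine Finset.sum_congr rfl fun i _ => ?_
      rw [ctT_wT_zero, mul_smul]
  | succ j ih =>
    induction ω using Tx_ind with
    | h0 => exact ⟨∅, fun s' _ φ => by simp⟩
    | hadd a b ha hb =>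
      obtain ⟨s, hs⟩ := ha
      obtain ⟨t, ht⟩ := hb
      refine ⟨s ∪ t, fun s' hs' φ => ?_⟩
      rw [map_add, hs s' (Finset.union_subset_left hs') φ,
        ht s' (Finset.union_subset_right hs') φ, ← Finset.sum_add_distrib]
      refine Finset.sum_congr rfl fun i _ => ?_
      rw [map_add, smul_add]
    | h1 v ω =>
      obtain ⟨s, hs⟩ := ih ω
      refine ⟨(D v).support ∪ s, fun s' hs' φ => ?_⟩
      rw [ctT_wT, fD_sum D φ v (Finset.union_subset_left hs'), Finset.sum_smul,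
        hs s' (Finset.union_subset_right hs') φ, map_sum, ← Finset.sum_sub_distrib]
      refine Finset.sum_congr rfl fun i _ => ?_
      rw [ctT_wT, mul_smul, smul_sub, map_smul]

lemma ct_fin (D : Additive Fˣ →+ (I →₀ ℚ)) (k j : ℕ) (z : Cx k (j + 1) F) :
    ∃ s : Finset I, ∀ s', s ⊆ s' → ∀ φ : (I →₀ ℚ) →ₗ[ℚ] ℚ,
      ct k j (fD D φ) z = ∑ i ∈ s', φ (Finsupp.single i 1) • ct k j (co D i) z := by
  induction z using Cx_ind with
  | h0 => exact ⟨∅, fun s' _ φ => by simp⟩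
  | hadd a b ha hb =>
    obtain ⟨s, hs⟩ := ha
    obtain ⟨t, ht⟩ := hb
    refine ⟨s ∪ t, fun s' hs' φ => ?_⟩
    rw [map_add, hs s' (Finset.union_subset_left hs') φ,
      ht s' (Finset.union_subset_right hs') φ, ← Finset.sum_add_distrib]
    refine Finset.sum_congr rfl fun i _ => ?_
    rw [map_add, smul_add]
  | h1 x ω =>
    obtain ⟨s, hs⟩ := ctT_fin D j ω
    refine ⟨s, fun s' hs' φ => ?_⟩
    rw [ct_PB, hs s' hs' φ, map_sum]
    refine Finset.sum_congr rfl fun i _ => ?_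
    rw [ct_PB, map_smul]

/-- if all the contractions with the coordinates vanish, so do all contractions with functionals -/
lemma ctT_fD_zero (D : Additive Fˣ →+ (I →₀ ℚ)) {j : ℕ} {ω : Tx (j + 1) F}
    (h : ∀ i, ctT j (co D i) ω = 0) (φ : (I →₀ ℚ) →ₗ[ℚ] ℚ) : ctT j (fD D φ) ω = 0 := by
  obtain ⟨s, hs⟩ := ctT_fin D j ω
  rw [hs s (le_refl _) φ]
  exact Finset.sum_eq_zero fun i _ => by rw [h, smul_zero]

lemma ct_fD_zero (D : Additive Fˣ →+ (I →₀ ℚ)) {k j : ℕ} {z : Cx k (j + 1) F}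
    (h : ∀ i, ct k j (co D i) z = 0) (φ : (I →₀ ℚ) →ₗ[ℚ] ℚ) : ct k j (fD D φ) z = 0 := by
  obtain ⟨s, hs⟩ := ct_fin D k j z
  rw [hs s (le_refl _) φ]
  exact Finset.sum_eq_zero fun i _ => by rw [h, smul_zero]

/-! ### Separation -/

variable (F) in
/-- `F^* ⊗ ℚ` -/
abbrev WQ : Type u := ℚ ⊗[ℤ] Additive Fˣ

/-- the operator `x ∧ ω`, `x ∈ F^* ⊗ ℚ` -/
def wW (j : ℕ) : WQ F →ₗ[ℚ] (Tx j F →ₗ[ℚ] Tx (j + 1) F) :=
  LinearMap.liftBaseChange ℚ (wTH j).toIntLinearMap

lemma wW_toQ (j : ℕ) (v : Additive Fˣ) : wW j (toQ v) = wT j v := by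
  simp only [wW, toQ]
  exact LinearMap.liftBaseChange_one_tmul ℚ _ _

lemma WQ_ext {N : Type v} [AddCommGroup N] [Module ℚ N] {f g : WQ F →ₗ[ℚ] N}
    (h : ∀ v : Additive Fˣ, f (toQ v) = g (toQ v)) : f = g := by
  refine LinearMap.ext fun z => ?_
  induction z using TensorProduct.induction_on with
  | zero => rw [map_zero, map_zero]
  | add a b ha hb => rw [map_add, map_add, ha, hb]
  | tmul q m =>
    have : (q ⊗ₜ[ℤ] m : WQ F) = q • toQ m := by
      rw [toQ, smul_tmul', smul_eq_mul, mul_one]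
    rw [this, map_smul, map_smul, h]

lemma wW_wT (j : ℕ) (x : WQ F) (v : Additive Fˣ) (ω : Tx j F) :
    wW (j + 1) x (wT j v ω) = - wT (j + 1) v (wW j x ω) := by
  let f : WQ F →ₗ[ℚ] Tx (j + 2) F :=
    (LinearMap.applyₗ (wT j v ω)) ∘ₗ (wW (j + 1))
  let g : WQ F →ₗ[ℚ] Tx (j + 2) F :=
    -((wT (j + 1) v) ∘ₗ (LinearMap.applyₗ ω) ∘ₗ (wW j))
  have : f = g := by
    refine WQ_ext fun v' => ?_
    change wW (j + 1) (toQ v') (wT j v ω) = - wT (j + 1) v (wW j (toQ v') ω)
    rw [wW_toQ, wW_toQ, wT_wT]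
  exact LinearMap.congr_fun this x

variable (F) in
/-- the coordinates with respect to a basis of `F^* ⊗ ℚ` -/
def DB : Additive Fˣ →+ ((Module.Basis.ofVectorSpaceIndex ℚ (WQ F)) →₀ ℚ) :=
  ((Module.Basis.ofVectorSpace ℚ (WQ F)).repr.toLinearMap.toAddMonoidHom).comp
    (TensorProduct.mk ℤ ℚ (Additive Fˣ) 1).toAddMonoidHom

/-- the vectors of the basis -/
def bv (i : Module.Basis.ofVectorSpaceIndex ℚ (WQ F)) : WQ F :=
  Module.Basis.ofVectorSpace ℚ (WQ F) i

lemma wT_DB (j : ℕ) (v : Additive Fˣ) {s : Finset (Module.Basis.ofVectorSpaceIndex ℚ (WQ F))}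
    (hs : (DB F v).support ⊆ s) (ω : Tx j F) :
    ∑ i ∈ s, co (DB F) i v • wW j (bv i) ω = wT j v ω := by
  have h : (toQ v : WQ F) = ∑ i ∈ s, (DB F v i) • bv i := by
    conv_lhs => rw [← (Module.Basis.ofVectorSpace ℚ (WQ F)).linearCombination_repr (toQ v)]
    rw [Finsupp.linearCombination_apply, Finsupp.sum]
    have hs' : ((Module.Basis.ofVectorSpace ℚ (WQ F)).repr (toQ v)).support ⊆ s := hs
    rw [Finset.sum_subset hs']
    · rfl
    · intro i _ hi
      have : (Module.Basis.ofVectorSpace ℚ (WQ F)).repr (toQ v) i = 0 :=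
        Finsupp.notMem_support_iff.1 hi
      rw [this, zero_smul]
  rw [← wW_toQ, h, map_sum, LinearMap.sum_apply]
  refine Finset.sum_congr rfl fun i _ => ?_
  rw [map_smul, LinearMap.smul_apply]
  rfl

/-- Euler's formula -/
lemma euler (j : ℕ) (ω : Tx (j + 1) F) :
    ∃ s : Finset (Module.Basis.ofVectorSpaceIndex ℚ (WQ F)), ∀ s', s ⊆ s' →
      ∑ i ∈ s', wW j (bv i) (ctT j (co (DB F) i) ω) = ((j + 1 : ℕ) : ℚ) • ω := by
  induction j with
  | zero =>
    induction ω using Tx_ind with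
    | h0 => exact ⟨∅, fun s' _ => by simp⟩
    | hadd a b ha hb =>
      obtain ⟨s, hs⟩ := ha
      obtain ⟨t, ht⟩ := hb
      refine ⟨s ∪ t, fun s' hs' => ?_⟩
      rw [smul_add, ← hs s' (Finset.union_subset_left hs'),
        ← ht s' (Finset.union_subset_right hs'), ← Finset.sum_add_distrib]
      refine Finset.sum_congr rfl fun i _ => ?_
      rw [map_add, map_add]
    | h1 v ω =>
      refine ⟨(DB F v).support, fun s' hs' => ?_⟩
      have e : (((0 + 1 : ℕ)) : ℚ) • wT 0 v ω = wT 0 v ω := by simp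
      rw [e]
      refine Eq.trans ?_ (wT_DB 0 v hs' ω)
      refine Finset.sum_congr rfl fun i _ => ?_
      rw [ctT_wT_zero, map_smul]
  | succ j ih =>
    induction ω using Tx_ind with
    | h0 => exact ⟨∅, fun s' _ => by simp⟩
    | hadd a b ha hb =>
      obtain ⟨s, hs⟩ := ha
      obtain ⟨t, ht⟩ := hb
      refine ⟨s ∪ t, fun s' hs' => ?_⟩
      rw [smul_add, ← hs s' (Finset.union_subset_left hs'),
        ← ht s' (Finset.union_subset_right hs'), ← Finset.sum_add_distrib]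
      refine Finset.sum_congr rfl fun i _ => ?_
      rw [map_add, map_add]
    | h1 v ω =>
      obtain ⟨s, hs⟩ := ih ω
      refine ⟨(DB F v).support ∪ s, fun s' hs' => ?_⟩
      have h1 : ∀ i, wW (j + 1) (bv i) (ctT (j + 1) (co (DB F) i) (wT (j + 1) v ω)) =
          co (DB F) i v • wW (j + 1) (bv i) ω +
            wT (j + 1) v (wW j (bv i) (ctT j (co (DB F) i) ω)) := by
        intro i
        rw [ctT_wT, map_sub, map_smul, wW_wT, sub_neg_eq_add]
      rw [Finset.sum_congr rfl fun i _ => h1 i, Finset.sum_add_distrib,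
        wT_DB (j + 1) v (Finset.union_subset_left hs') ω, ← map_sum,
        hs s' (Finset.union_subset_right hs'), map_smul]
      push_cast
      module

/-- separation, last term -/
lemma sepT {j : ℕ} {ω : Tx (j + 1) F} (h : ∀ θ : Additive Fˣ →+ ℚ, ctT j θ ω = 0) : ω = 0 := by
  obtain ⟨s, hs⟩ := euler j ω
  have h1 := hs s (le_refl _)
  rw [Finset.sum_eq_zero (fun i _ => by rw [h, map_zero])] at h1
  refine (smul_eq_zero.1 h1.symm).resolve_left ?_
  exact_mod_cast Nat.succ_ne_zero j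

/-- separation, terms `B_k ⊗ Λ^{j+1}` -/
lemma sepC {k j : ℕ} {z : Cx k (j + 1) F} (h : ∀ θ : Additive Fˣ →+ ℚ, ct k j θ z = 0) :
    z = 0 := by
  have key : ∀ z : Cx k (j + 1) F, ∃ s : Finset (Module.Basis.ofVectorSpaceIndex ℚ (WQ F)),
      ∀ s', s ⊆ s' → ∑ i ∈ s', mapT k (wW j (bv i)) (ct k j (co (DB F) i) z) =
        ((j + 1 : ℕ) : ℚ) • z := by
    intro z
    induction z using Cx_ind with
    | h0 => exact ⟨∅, fun s' _ => by simp⟩
    | hadd a b ha hb =>
      obtain ⟨s, hs⟩ := ha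
      obtain ⟨t, ht⟩ := hb
      refine ⟨s ∪ t, fun s' hs' => ?_⟩
      rw [smul_add, ← hs s' (Finset.union_subset_left hs'),
        ← ht s' (Finset.union_subset_right hs'), ← Finset.sum_add_distrib]
      refine Finset.sum_congr rfl fun i _ => ?_
      rw [map_add, map_add]
    | h1 x ω =>
      obtain ⟨s, hs⟩ := euler j ω
      refine ⟨s, fun s' hs' => ?_⟩
      rw [← map_smul, ← hs s' hs', map_sum]
      refine Finset.sum_congr rfl fun i _ => ?_
      rw [ct_PB, mapT_PB]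
  obtain ⟨s, hs⟩ := key z
  have h1 := hs s (le_refl _)
  rw [Finset.sum_eq_zero (fun i _ => by rw [h, map_zero])] at h1
  refine (smul_eq_zero.1 h1.symm).resolve_left ?_
  exact_mod_cast Nat.succ_ne_zero j

end

end Helper14.W4
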