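import Pool.Agent.Helper14.Gon.Tri

set_option autoImplicit false

/-!
# The divisor of a rational function on the affine line
-/

noncomputable section

open Polynomial
open scoped Classical

namespace Helper14.W4

open Helper14.Gon

universe u

variable {K : Type u} [Field K]

/-- the divisor of a polynomial -/
def dvP (P : K[X]) : K →₀ ℚ := (P.roots.map fun a => Finsupp.single a (1 : ℚ)).sum

lemma dvP_mul {P Q : K[X]} (hP : P ≠ 0) (hQ : Q ≠ 0) : dvP (P * Q) = dvP P + dvP Q := by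
  rw [dvP, roots_mul (mul_ne_zero hP hQ), Multiset.map_add, Multiset.sum_add]; rfl

@[simp] lemma dvP_C (c : K) : dvP (C c) = 0 := by simp [dvP]

@[simp] lemma dvP_one : dvP (1 : K[X]) = 0 := by simp [dvP]

@[simp] lemma dvP_X_sub_C (a : K) : dvP (X - C a) = Finsupp.single a 1 := by simp [dvP]

/-- the divisor of a rational function -/
def dvR (f : RatFunc K) : K →₀ ℚ := dvP f.num - dvP f.denom

lemma dvR_div {P Q : K[X]} (hP : P ≠ 0) (hQ : Q ≠ 0) :
    dvR (algebraMap K[X] (RatFunc K) P / algebraMap K[X] (RatFunc K) Q) = dvP P - dvP Q := by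
  set f : RatFunc K := algebraMap K[X] (RatFunc K) P / algebraMap K[X] (RatFunc K) Q with hf
  have hf0 : f ≠ 0 := div_ne_zero (RatFunc.algebraMap_ne_zero hP) (RatFunc.algebraMap_ne_zero hQ)
  have hcross : f.num * Q = P * f.denom := (RatFunc.num_mul_eq_mul_denom_iff hQ).2 hf
  have h := congrArg dvP hcross
  rw [dvP_mul (RatFunc.num_ne_zero hf0) hQ, dvP_mul hP f.denom_ne_zero] at h
  rw [dvR, sub_eq_sub_iff_add_eq_add, h]

lemma dvR_mul {f g : RatFunc K} (hf : f ≠ 0) (hg : g ≠ 0) : dvR (f * g) = dvR f + dvR g := by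
  have e : f * g = algebraMap K[X] (RatFunc K) (f.num * g.num) /
      algebraMap K[X] (RatFunc K) (f.denom * g.denom) := by
    conv_lhs => rw [← RatFunc.num_div_denom f, ← RatFunc.num_div_denom g]
    rw [map_mul, map_mul, div_mul_div_comm]
  rw [e, dvR_div (mul_ne_zero (RatFunc.num_ne_zero hf) (RatFunc.num_ne_zero hg))
    (mul_ne_zero f.denom_ne_zero g.denom_ne_zero),
    dvP_mul (RatFunc.num_ne_zero hf) (RatFunc.num_ne_zero hg),
    dvP_mul f.denom_ne_zero g.denom_ne_zero, dvR, dvR]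
  abel

@[simp] lemma dvR_one : dvR (1 : RatFunc K) = 0 := by simp [dvR]

/-- the divisor as a homomorphism `K(t)^* → ℚ[K]` -/
def dv : Additive (RatFunc K)ˣ →+ (K →₀ ℚ) where
  toFun v := dvR (v.toMul : RatFunc K)
  map_zero' := dvR_one
  map_add' u v := dvR_mul u.toMul.ne_zero v.toMul.ne_zero

lemma dv_lg (f : RatFunc K) : dv (lg f) = dvR f := by
  by_cases hf : f = 0
  · subst hf
    rw [lg_zero, map_zero]
    simp [dvR, dvP]
  · rw [lg, dif_neg hf]; rfl

@[simp] lemma dv_ee (a : K) : dv (ee a) = Finsupp.single a 1 := by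
  have h := dvR_div (X_sub_C_ne_zero a) (one_ne_zero (α := K[X]))
  rw [ee, dv_lg, ← RatFunc.algebraMap_X, ← RatFunc.algebraMap_C, ← map_sub]
  rwa [map_one, div_one, dvP_X_sub_C, dvP_one, sub_zero] at h

@[simp] lemma dv_C (c : K) : dv (lg (RatFunc.C c : RatFunc K)) = 0 := by
  rw [dv_lg, dvR]; simp

lemma dv_div {f g : RatFunc K} (hf : f ≠ 0) (hg : g ≠ 0) :
    dv (lg (f / g)) = dv (lg f) - dv (lg g) := by
  rw [lg_div hf hg, map_sub]

end Helper14.W4
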