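import Pool.Agent.Helper14.W4.H2
import Pool.Agent.Helper14.W4.Dv

set_option autoImplicit false

/-!
# Specialisation of the complexes
-/

noncomputable section

open Polynomial TensorProduct
open scoped Classical

namespace Helper14.W4

open Helper14.Gon

universe u v w

section
variable {K : Type u} [Field K]

/-! ### valuations and values -/

lemma dvP_apply (P : K[X]) (a : K) : dvP P a = (P.rootMultiplicity a : ℚ) := by
  rw [dvP, ← count_roots]
  induction P.roots using Multiset.induction_on with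
  | empty => simp
  | cons b s ih =>
    rw [Multiset.map_cons, Multiset.sum_cons, Finsupp.add_apply, ih, Multiset.count_cons,
      Finsupp.single_apply]
    by_cases h : b = a
    · subst h; simp; ring
    · rw [if_neg h, if_neg (Ne.symm h)]; simp

lemma dvP_of_eval {P : K[X]} {a : K} (h : P.eval a ≠ 0) : dvP P a = 0 := by
  rw [dvP_apply, rootMultiplicity_eq_zero (by rwa [IsRoot.def])]; simp

lemma dvR_of_spec {f : RatFunc K} {a y : K} (h : spec a (some f) = some y) (hy : y ≠ 0) :
    dvR f a = 0 := by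
  obtain ⟨p, q, hq, hpq, hf⟩ := exists_rep a f
  rw [hf, spec_div a p q hq hpq] at h
  split_ifs at h with h1
  have h2 : p.eval a / q.eval a = y := Option.some.inj h
  have h3 : p.eval a ≠ 0 := by
    intro h0; rw [h0, zero_div] at h2; exact hy h2.symm
  have hp : p ≠ 0 := by rintro rfl; simp at h3
  rw [hf, dvR_div hp hq, Finsupp.sub_apply, dvP_of_eval h3, dvP_of_eval h1, sub_zero]

lemma dvR_of_none {f : RatFunc K} {a : K} (h : spec a (some f) = none) :
    dvR (1 - f) a = dvR f a := by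
  obtain ⟨p, q, hq, hpq, hf⟩ := exists_rep a f
  rw [hf, spec_div a p q hq hpq] at h
  split_ifs at h with h1
  have h3 : p.eval a ≠ 0 := by
    rcases hpq with h | h
    · exact h
    · exact absurd h1 h
  have hq' := RatFunc.algebraMap_ne_zero hq
  have e : 1 - f = algebraMap K[X] (RatFunc K) (q - p) / algebraMap K[X] (RatFunc K) q := by
    rw [hf, map_sub]; field_simp
  have h4 : (q - p).eval a ≠ 0 := by rw [eval_sub, h1, zero_sub]; exact neg_ne_zero.2 h3
  have hp : p ≠ 0 := by rintro rfl; simp at h3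
  have hqp : q - p ≠ 0 := by intro h0; rw [h0] at h4; simp at h4
  rw [e, hf, dvR_div hp hq, dvR_div hqp hq, Finsupp.sub_apply, Finsupp.sub_apply,
    dvP_of_eval h3, dvP_of_eval h4]

/-- the valuation at `a` -/
def va (a : K) : Additive (RatFunc K)ˣ →+ ℚ := co dv a

lemma va_lg (a : K) (f : RatFunc K) : va a (lg f) = dvR f a := by
  rw [va, co_apply, dv_lg]

lemma cl_zero (k : ℕ) {F : Type u} [Field F] : cl (k + 1) (some 0 : P1 F) = 0 :=
  (QuotientAddGroup.eq_zero_iff _).2 (br_zero_mem k)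

lemma cl_inf (k : ℕ) {F : Type u} [Field F] : cl (k + 1) (none : P1 F) = 0 :=
  (QuotientAddGroup.eq_zero_iff _).2 (br_inf_mem k)

lemma wT_neg_one {F : Type u} [Field F] (j : ℕ) : wT j (lg (-1 : F)) = 0 := by
  have h := lg_neg_one (F := F)
  have h2 : wT j (lg (-1 : F)) + wT j (lg (-1 : F)) = 0 := by
    rw [← wT_add, ← two_zsmul, h, wT_zero]
  rw [← two_smul ℚ] at h2
  exact (smul_eq_zero.1 h2).resolve_left two_ne_zero

lemma wT_lg_neg {F : Type u} [Field F] (j : ℕ) {y : F} (hy : y ≠ 0) :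
    wT j (lg (-y)) = wT j (lg y) := by
  have : lg (-y) = lg (-1 : F) + lg y := by
    rw [← lg_mul (by simp) hy, neg_one_mul]
  rw [this, wT_add, wT_neg_one, zero_add]

/-! ### specialisation -/

variable (c : K)

/-- specialisation of the last term -/
def sT (j : ℕ) : Tx j (RatFunc K) →ₗ[ℚ] Tx j K :=
  LinearMap.baseChange ℚ (exteriorPower.map j (lcU c).toIntLinearMap)

lemma sT_dm {j : ℕ} (v : Fin j → Additive (RatFunc K)ˣ) :
    sT c j (dm v) = dm (fun i => lcU c (v i)) := by
  rw [sT, dm, toQ, LinearMap.baseChange_tmul, exteriorPower.map_apply_ιMulti]; rfl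

lemma sT_wT (j : ℕ) (v : Additive (RatFunc K)ˣ) (ω : Tx j (RatFunc K)) :
    sT c (j + 1) (wT j v ω) = wT j (lcU c v) (sT c j ω) := by
  have : (sT c (j + 1)) ∘ₗ (wT j v) = (wT j (lcU c v)) ∘ₗ (sT c j) := by
    refine Tx_ext fun w => ?_
    change sT c (j + 1) (wT j v (dm w)) = wT j (lcU c v) (sT c j (dm w))
    rw [wT_dm, sT_dm, sT_dm, wT_dm]
    congr 1
    funext i
    refine Fin.cases ?_ (fun i => ?_) i
    · rfl
    · rfl
  exact LinearMap.congr_fun this ω

/-- specialisation, terms `B_{k+2} ⊗ Λ^j` -/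
def sC (k j : ℕ) : Cx (k + 2) j (RatFunc K) →ₗ[ℚ] Cx (k + 2) j K :=
  liftC (QuotientAddGroup.lift (R (k + 2) (RatFunc K))
    (AddMonoidHom.mk' (fun α => (PB (k + 2) j (QuotientAddGroup.mk (specZ c α))) ∘ₗ (sT c j))
      (by
        intro a b
        rw [map_add, QuotientAddGroup.mk_add, map_add]; rfl))
    (by
      intro β hβ
      obtain ⟨N, hN, h1⟩ := sp k K β hβ c
      have h2 : N • (QuotientAddGroup.mk (specZ c β) : B (k + 2) K) = 0 :=
        (QuotientAddGroup.eq_zero_iff _).2 h1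
      have h3 : PB (k + 2) j (QuotientAddGroup.mk (specZ c β) : B (k + 2) K) = 0 := by
        have h4 : N • PB (k + 2) j (QuotientAddGroup.mk (specZ c β) : B (k + 2) K) = 0 := by
          rw [← map_zsmul, h2, map_zero]
        exact q_tors hN h4
      change (PB (k + 2) j (QuotientAddGroup.mk (specZ c β))) ∘ₗ (sT c j) = 0
      rw [h3, LinearMap.zero_comp]))

lemma sC_PB (k j : ℕ) (x : P1 (RatFunc K)) (ω : Tx j (RatFunc K)) :
    sC c k j (PB (k + 2) j (cl (k + 2) x) ω) = PB (k + 2) j (cl (k + 2) (spec c x)) (sT c j ω) := by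
  rw [sC, liftC_PB]
  change PB (k + 2) j (QuotientAddGroup.mk (specZ c (br x))) (sT c j ω) = _
  rw [specZ_single]

lemma sC_dC (k j : ℕ) (z : Cx (k + 3) j (RatFunc K)) :
    sC c k (j + 1) (dC k j z) = dC k j (sC c (k + 1) j z) := by
  have : (sC c k (j + 1)) ∘ₗ (dC k j) = (dC k j) ∘ₗ (sC c (k + 1) j) := by
    refine Cx_ext fun x ω => ?_
    change sC c k (j + 1) (dC k j (gen (k + 3) x ω)) = dC k j (sC c (k + 1) j (gen (k + 3) x ω))
    have e := sC_PB c (k + 1) j x (toQ ω)
    rw [← PB_gen, dC_PB, sC_PB, e, dC_PB, sT_wT]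
    rcases hs : spec c x with _ | y
    · rw [cl_inf, map_zero]; rfl
    · by_cases hy : y = 0
      · subst hy
        rw [cl_zero, map_zero]; rfl
      · cases x with
        | none => rw [spec_none] at hs; exact absurd hs (by simp)
        | some f => rw [lgP_some, lcU_lg, lc_of_spec hs hy, lgP_some]
  exact LinearMap.congr_fun this z

lemma sT_dT (j : ℕ) (z : Cx 2 j (RatFunc K)) :
    sT c (j + 2) (dT j z) = dT j (sC c 0 j z) := by
  have : (sT c (j + 2)) ∘ₗ (dT j) = (dT j) ∘ₗ (sC c 0 j) := by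
    refine Cx_ext fun x ω => ?_
    change sT c (j + 2) (dT j (gen 2 x ω)) = dT j (sC c 0 j (gen 2 x ω))
    have e := sC_PB c 0 j x (toQ ω)
    rw [← PB_gen, dT_PB, e, dT_PB, sT_wT, sT_wT]
    cases x with
    | none => simp [l1P, wT_zero]
    | some f =>
      change wT (j + 1) (lcU c (lg (1 - f))) (wT j (lcU c (lg f)) _) = _
      rw [lcU_lg, lcU_lg]
      rcases hs : spec c (some f) with _ | y
      · have hf : f ≠ 0 := by
          rintro rfl
          rw [spec_zero] at hs
          exact absurd hs (by simp)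
        rw [lc_one_sub_of_none hs, wT_lg_neg _ (lc_ne hf), wT_self]
        simp [l1P, wT_zero]
      · have hs' := spec_one_sub hs
        change _ = wT (j + 1) (lg (1 - y)) (wT j (lg y) _)
        by_cases hy : y = 0
        · subst hy
          rw [sub_zero] at hs'
          rw [lc_of_spec hs' one_ne_zero, sub_zero, lg_one, wT_zero]; rfl
        · rw [lc_of_spec hs hy]
          by_cases hy1 : 1 - y = 0
          · have : y = 1 := (sub_eq_zero.1 hy1).symm
            subst this
            rw [lg_one, wT_zero]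
            simp
          · rw [lc_of_spec hs' hy1]
  exact LinearMap.congr_fun this z

/-- contraction and specialisation -/
lemma ctT_sT (j : ℕ) (χ : Additive Kˣ →+ ℚ) (ω : Tx (j + 1) (RatFunc K)) :
    ctT j χ (sT c (j + 1) ω) = sT c j (ctT j (χ.comp (lcU c)) ω) := by
  induction j with
  | zero =>
    have : (ctT 0 χ) ∘ₗ (sT c 1) = (sT c 0) ∘ₗ (ctT 0 (χ.comp (lcU c))) := by
      refine Tx_ext_succ fun v ω => ?_
      rw [LinearMap.comp_apply, LinearMap.comp_apply, sT_wT, ctT_wT_zero, ctT_wT_zero, map_smul]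
      rfl
    exact LinearMap.congr_fun this ω
  | succ j ih =>
    have : (ctT (j + 1) χ) ∘ₗ (sT c (j + 2)) = (sT c (j + 1)) ∘ₗ (ctT (j + 1) (χ.comp (lcU c))) := by
      refine Tx_ext_succ fun v ω => ?_
      rw [LinearMap.comp_apply, LinearMap.comp_apply, sT_wT, ctT_wT, ctT_wT, map_sub, map_smul,
        sT_wT, ih]
      rfl
    exact LinearMap.congr_fun this ω

lemma ct_sC (k j : ℕ) (χ : Additive Kˣ →+ ℚ) (z : Cx (k + 2) (j + 1) (RatFunc K)) :
    ct (k + 2) j χ (sC c k (j + 1) z) = sC c k j (ct (k + 2) j (χ.comp (lcU c)) z) := by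
  have : (ct (k + 2) j χ) ∘ₗ (sC c k (j + 1)) =
      (sC c k j) ∘ₗ (ct (k + 2) j (χ.comp (lcU c))) := by
    refine Cx_ext fun x ω => ?_
    rw [LinearMap.comp_apply, LinearMap.comp_apply, ← PB_gen, sC_PB, ct_PB, ct_PB, sC_PB, ctT_sT]
  exact LinearMap.congr_fun this z

/-! ### constants -/

/-- the inclusion of constants, last term -/
def rT (j : ℕ) : Tx j K →ₗ[ℚ] Tx j (RatFunc K) := resT j (RatFunc.C : K →+* RatFunc K)

/-- the inclusion of constants -/
def rC (k j : ℕ) : Cx (k + 2) j K →ₗ[ℚ] Cx (k + 2) j (RatFunc K) :=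
  resC (k + 1) j (RatFunc.C : K →+* RatFunc K)

/-- the inclusion `K^* → K(t)^*` -/
def rU : Additive Kˣ →+ Additive (RatFunc K)ˣ := resU (RatFunc.C : K →+* RatFunc K)

lemma rT_dm {j : ℕ} (v : Fin j → Additive Kˣ) : rT j (dm v) = dm (fun i => rU (v i)) := by
  rw [rT, dm, resT_toQ, resL, exteriorPower.map_apply_ιMulti]; rfl

lemma rT_wT (j : ℕ) (v : Additive Kˣ) (ω : Tx j K) :
    rT (j + 1) (wT j v ω) = wT j (rU v) (rT j ω) := by
  have : (rT (j + 1)) ∘ₗ (wT j v) = (wT j (rU v)) ∘ₗ (rT j) := by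
    refine Tx_ext' fun ω => ?_
    rw [LinearMap.comp_apply, LinearMap.comp_apply, wT_toQ, rT, rT, resT_toQ, resT_toQ, wT_toQ,
      resL_wL]
    rfl
  exact LinearMap.congr_fun this ω

lemma rC_PB (k j : ℕ) (x : P1 K) (ω : Tx j K) :
    rC k j (PB (k + 2) j (cl (k + 2) x) ω) =
      PB (k + 2) j (cl (k + 2) (mapP (RatFunc.C : K →+* RatFunc K) x)) (rT j ω) := by
  have : (rC k j) ∘ₗ (PB (k + 2) j (cl (k + 2) x)) =
      (PB (k + 2) j (cl (k + 2) (mapP (RatFunc.C : K →+* RatFunc K) x))) ∘ₗ (rT j) := by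
    refine Tx_ext' fun ω => ?_
    rw [LinearMap.comp_apply, LinearMap.comp_apply, PB_gen, rC, resC_gen, rT, resT_toQ, PB_gen]
  exact LinearMap.congr_fun this ω

lemma rC_dC (k j : ℕ) (z : Cx (k + 3) j K) : dC k j (rC (k + 1) j z) = rC k (j + 1) (dC k j z) :=
  resC_dC k j _ z

lemma rT_dT (j : ℕ) (z : Cx 2 j K) : dT j (rC 0 j z) = rT (j + 2) (dT j z) := resT_dT j _ z

lemma ctT_rT (j : ℕ) (θ : Additive (RatFunc K)ˣ →+ ℚ) (ω : Tx (j + 1) K) :
    ctT j θ (rT (j + 1) ω) = rT j (ctT j (θ.comp rU) ω) := by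
  induction j with
  | zero =>
    have : (ctT 0 θ) ∘ₗ (rT 1) = (rT 0) ∘ₗ (ctT 0 (θ.comp rU)) := by
      refine Tx_ext_succ fun v ω => ?_
      rw [LinearMap.comp_apply, LinearMap.comp_apply, rT_wT, ctT_wT_zero, ctT_wT_zero, map_smul]
      rfl
    exact LinearMap.congr_fun this ω
  | succ j ih =>
    have : (ctT (j + 1) θ) ∘ₗ (rT (j + 2)) = (rT (j + 1)) ∘ₗ (ctT (j + 1) (θ.comp rU)) := by
      refine Tx_ext_succ fun v ω => ?_
      rw [LinearMap.comp_apply, LinearMap.comp_apply, rT_wT, ctT_wT, ctT_wT, map_sub, map_smul,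
        rT_wT, ih]
      rfl
    exact LinearMap.congr_fun this ω

lemma ct_rC (k j : ℕ) (θ : Additive (RatFunc K)ˣ →+ ℚ) (z : Cx (k + 2) (j + 1) K) :
    ct (k + 2) j θ (rC k (j + 1) z) = rC k j (ct (k + 2) j (θ.comp rU) z) := by
  have : (ct (k + 2) j θ) ∘ₗ (rC k (j + 1)) = (rC k j) ∘ₗ (ct (k + 2) j (θ.comp rU)) := by
    refine Cx_ext fun x ω => ?_
    rw [LinearMap.comp_apply, LinearMap.comp_apply, ← PB_gen, rC_PB, ct_PB, ct_PB, rC_PB, ctT_rT]
  exact LinearMap.congr_fun this z

lemma lcU_rU (v : Additive Kˣ) : lcU c (rU v) = v := by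
  have hv : v = lg ((v.toMul : K)) := (lg_unit v.toMul).symm
  rw [hv, rU, resU_lg, lcU_lg]
  congr 1
  exact lc_of_spec (spec_C c _) v.toMul.ne_zero

lemma sT_rT (j : ℕ) (ω : Tx j K) : sT c j (rT j ω) = ω := by
  have : (sT c j) ∘ₗ (rT j) = LinearMap.id := by
    refine Tx_ext fun v => ?_
    change sT c j (rT j (dm v)) = dm v
    rw [rT_dm, sT_dm]
    congr 1
    funext i
    exact lcU_rU c _
  exact LinearMap.congr_fun this ω

lemma sC_rC (k j : ℕ) (z : Cx (k + 2) j K) : sC c k j (rC k j z) = z := by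
  have : (sC c k j) ∘ₗ (rC k j) = LinearMap.id := by
    refine Cx_ext fun x ω => ?_
    rw [LinearMap.comp_apply, ← PB_gen, rC_PB, sC_PB, sT_rT, LinearMap.id_apply]
    cases x with
    | none => rfl
    | some x => rw [mapP_some, spec_C]
  exact LinearMap.congr_fun this z

lemma va_rU (a : K) : (va a).comp rU = 0 := by
  refine DFunLike.ext _ _ fun v => ?_
  have hv : v = lg ((v.toMul : K)) := (lg_unit v.toMul).symm
  rw [AddMonoidHom.comp_apply, hv, rU, resU_lg, va, co_apply, dv_C]; rfl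

/-! ### normalisation -/

/-- the residue specialises to zero -/
lemma sC_ld (a : K) (k j : ℕ) (z : Cx (k + 3) j (RatFunc K)) :
    sC a k j (ld k j (va a) z) = 0 := by
  have : (sC a k j) ∘ₗ (ld k j (va a)) = 0 := by
    refine Cx_ext fun x ω => ?_
    rw [LinearMap.comp_apply, ← PB_gen, ld_PB, map_smul, sC_PB, LinearMap.zero_apply]
    cases x with
    | none => rw [lgP_none, map_zero, zero_smul]
    | some f =>
      rw [lgP_some, va_lg]
      rcases hs : spec a (some f) with _ | y
      · rw [cl_inf, map_zero, LinearMap.zero_apply, smul_zero]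
      · by_cases hy : y = 0
        · subst hy; rw [cl_zero, map_zero, LinearMap.zero_apply, smul_zero]
        · rw [dvR_of_spec hs hy, zero_smul]
  exact LinearMap.congr_fun this z

/-- the tame symbol specialises to zero -/
lemma sT_lt (a : K) (j : ℕ) (z : Cx 2 j (RatFunc K)) :
    sT a (j + 1) (lt j (va a) z) = 0 := by
  have : (sT a (j + 1)) ∘ₗ (lt j (va a)) = 0 := by
    refine Cx_ext fun x ω => ?_
    rw [LinearMap.comp_apply, ← PB_gen, lt_PB, map_sub, map_smul, map_smul, sT_wT, sT_wT,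
      LinearMap.zero_apply]
    cases x with
    | none => simp [l1P, wT_zero]
    | some f =>
      change va a (lg (1 - f)) • wT j (lcU a (lg f)) _ - va a (lg f) • wT j (lcU a (lg (1 - f))) _ = 0
      rw [va_lg, va_lg, lcU_lg, lcU_lg]
      rcases hs : spec a (some f) with _ | y
      · have hf : f ≠ 0 := by
          rintro rfl
          rw [spec_zero] at hs
          exact absurd hs (by simp)
        rw [lc_one_sub_of_none hs, wT_lg_neg _ (lc_ne hf), dvR_of_none hs, sub_self]
      · have hs' := spec_one_sub hs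
        by_cases hy : y = 0
        · subst hy
          rw [sub_zero] at hs'
          rw [lc_of_spec hs' one_ne_zero, dvR_of_spec hs' one_ne_zero, lg_one, wT_zero]
          simp
        · by_cases hy1 : 1 - y = 0
          · have : y = 1 := (sub_eq_zero.1 hy1).symm
            subst this
            rw [lc_of_spec hs one_ne_zero, dvR_of_spec hs one_ne_zero, lg_one, wT_zero]
            simp
          · rw [dvR_of_spec hs hy, dvR_of_spec hs' hy1]
            simp
  exact LinearMap.congr_fun this z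

end

end Helper14.W4
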