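import Pool.Agent.Helper14.W4.H4

set_option autoImplicit false

/-!
# Cocycles in `B_3 ⊗ Λ^1`, `n = 4`, `i = 2`: from the leading terms to the decomposition
-/

noncomputable section

open Polynomial TensorProduct
open scoped Classical

namespace Helper14.W4

open Helper14.Gon

universe u v w

section
variable {F : Type u} [Field F]

/-- the operator `v ∧ ·` on `B_k ⊗ Λ^j` -/
def wC (k j : ℕ) (v : Additive Fˣ) : Cx k j F →ₗ[ℚ] Cx k (j + 1) F := mapT k (wT j v)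

lemma wC_PB (k j : ℕ) (v : Additive Fˣ) (b : B k F) (ω : Tx j F) :
    wC k j v (PB k j b ω) = PB k (j + 1) b (wT j v ω) := mapT_PB k _ b ω

lemma ct_wC_zero (k : ℕ) (θ : Additive Fˣ →+ ℚ) (v : Additive Fˣ) (z : Cx k 0 F) :
    ct k 0 θ (wC k 0 v z) = θ v • z := by
  have : (ct k 0 θ) ∘ₗ (wC k 0 v) = θ v • LinearMap.id := by
    refine Cx_ext fun x ω => ?_
    rw [LinearMap.comp_apply, ← PB_gen, wC_PB, ct_PB, ctT_wT_zero, map_smul]; rfl
  exact LinearMap.congr_fun this z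

lemma ct_wC (k j : ℕ) (θ : Additive Fˣ →+ ℚ) (v : Additive Fˣ) (z : Cx k (j + 1) F) :
    ct k (j + 1) θ (wC k (j + 1) v z) = θ v • z - wC k j v (ct k j θ z) := by
  have : (ct k (j + 1) θ) ∘ₗ (wC k (j + 1) v) =
      θ v • LinearMap.id - (wC k j v) ∘ₗ (ct k j θ) := by
    refine Cx_ext fun x ω => ?_
    rw [LinearMap.comp_apply, ← PB_gen, wC_PB, ct_PB, ctT_wT, map_sub, map_smul,
      LinearMap.sub_apply, LinearMap.smul_apply, LinearMap.comp_apply, ct_PB, wC_PB]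
    rfl
  exact LinearMap.congr_fun this z

lemma ld_wC (k j : ℕ) (θ : Additive Fˣ →+ ℚ) (v : Additive Fˣ) (z : Cx (k + 3) j F) :
    ld k (j + 1) θ (wC (k + 3) j v z) = wC (k + 2) j v (ld k j θ z) := by
  have : (ld k (j + 1) θ) ∘ₗ (wC (k + 3) j v) = (wC (k + 2) j v) ∘ₗ (ld k j θ) := by
    refine Cx_ext fun x ω => ?_
    rw [LinearMap.comp_apply, LinearMap.comp_apply, ← PB_gen, wC_PB, ld_PB, ld_PB, map_smul, wC_PB]
  exact LinearMap.congr_fun this z

lemma dC_wC (k j : ℕ) (v : Additive Fˣ) (z : Cx (k + 3) j F) :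
    dC k (j + 1) (wC (k + 3) j v z) = - wC (k + 2) (j + 1) v (dC k j z) := by
  have : (dC k (j + 1)) ∘ₗ (wC (k + 3) j v) = -((wC (k + 2) (j + 1) v) ∘ₗ (dC k j)) := by
    refine Cx_ext fun x ω => ?_
    rw [LinearMap.comp_apply, ← PB_gen, wC_PB, dC_PB, LinearMap.neg_apply, LinearMap.comp_apply,
      dC_PB, wC_PB, wT_wT, map_neg]
  exact LinearMap.congr_fun this z

lemma dT_wC (j : ℕ) (v : Additive Fˣ) (z : Cx 2 j F) :
    dT (j + 1) (wC 2 j v z) = wT (j + 2) v (dT j z) := by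
  have : (dT (j + 1)) ∘ₗ (wC 2 j v) = (wT (j + 2) v) ∘ₗ (dT j) := by
    refine Cx_ext fun x ω => ?_
    rw [LinearMap.comp_apply, ← PB_gen, wC_PB, dT_PB, LinearMap.comp_apply, dT_PB,
      wT_wT j (lgP x) v, map_neg, wT_wT (j + 1) (l1P x) v, neg_neg]
  exact LinearMap.congr_fun this z

lemma ct_zero (k j : ℕ) (z : Cx k (j + 1) F) : ct k j (0 : Additive Fˣ →+ ℚ) z = 0 := by
  have h := ct_add k j (0 : Additive Fˣ →+ ℚ) 0 z
  rw [add_zero] at h
  exact left_eq_add.1 h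

end

section
variable {K : Type u} [Field K]

lemma va_ee (a b : K) : va b (ee a) = if a = b then 1 else 0 := by
  rw [va, co_apply, dv_ee, Finsupp.single_apply]

lemma ct_va_rC (k j : ℕ) (a : K) (z : Cx (k + 2) (j + 1) K) :
    ct (k + 2) j (va a) (rC k (j + 1) z) = 0 := by
  rw [ct_rC, va_rU, ct_zero, map_zero]

lemma ld_va_rC_zero (k : ℕ) (a : K) (z : Cx (k + 3) 0 K) :
    ld k 0 (va a) (rC (k + 1) 0 z) = 0 := by
  change ct (k + 2) 0 (va a) (dC k 0 (rC (k + 1) 0 z)) = 0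
  rw [rC_dC, ct_va_rC]

lemma ld_va_rC (k j : ℕ) (a : K) (z : Cx (k + 3) (j + 1) K) :
    ld k (j + 1) (va a) (rC (k + 1) (j + 1) z) = 0 := by
  change ct (k + 2) (j + 1) (va a) (dC k (j + 1) (rC (k + 1) (j + 1) z)) +
    dC k j (ct (k + 3) j (va a) (rC (k + 1) (j + 1) z)) = 0
  have e := ct_va_rC (k + 1) j a z
  rw [rC_dC, ct_va_rC, e, map_zero, add_zero]

/-- finiteness of the residues -/
lemma ct_finite (k j : ℕ) (z : Cx k (j + 1) (RatFunc K)) :
    ∃ s : Finset K, ∀ a, a ∉ s → ct k j (va a) z = 0 := by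
  obtain ⟨s, hs⟩ := ct_fin dv k j z
  refine ⟨s, fun a ha => ?_⟩
  have h := hs s (le_refl _) (Finsupp.lapply a)
  have e : ct k j (va a) z = ct k j (fD dv (Finsupp.lapply a)) z := rfl
  rw [e, h]
  refine Finset.sum_eq_zero fun i hi => ?_
  have : i ≠ a := fun h => ha (h ▸ hi)
  rw [Finsupp.lapply_apply, Finsupp.single_apply, if_neg this, zero_smul]

/-- symmetry of the double residues of a cocycle -/
lemma cyc_symm (k : ℕ) (z : Cx (k + 3) 1 (RatFunc K)) (hz : dC k 1 z = 0) (a b : K) :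
    ld k 0 (va b) (ct (k + 3) 0 (va a) z) = ld k 0 (va a) (ct (k + 3) 0 (va b) z) := by
  have h1 := ld_cyc k 0 (va a) z
  rw [hz, map_zero] at h1
  have h2 : ld k 1 (va a) z = dC k 0 (ct (k + 3) 0 (va a) z) := (sub_eq_zero.1 h1.symm)
  rw [← ct_ld k 0 (va b) (va a) z, h2]
  rfl

/-- The decomposition of a cocycle all of whose residues are constant. -/
theorem decomp [IsAlgClosed K] (k : ℕ) (z : Cx (k + 3) 1 (RatFunc K)) (hz : dC k 1 z = 0)
    (hc : ∀ a, rC (k + 1) 0 (sC 0 (k + 1) 0 (ct (k + 3) 0 (va a) z)) = ct (k + 3) 0 (va a) z) :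
    ∃ (z0 : Cx (k + 3) 1 K) (s : Finset K) (za : K → Cx (k + 3) 0 K),
      dC k 1 z0 = 0 ∧ (∀ a, dC k 0 (za a) = 0) ∧
      z = rC (k + 1) 1 z0 + ∑ a ∈ s, wC (k + 3) 0 (ee a) (rC (k + 1) 0 (za a)) := by
  obtain ⟨s, hs⟩ := ct_finite (k + 3) 0 z
  set za : K → Cx (k + 3) 0 K := fun a => sC 0 (k + 1) 0 (ct (k + 3) 0 (va a) z) with hza
  set z'' := z - ∑ a ∈ s, wC (k + 3) 0 (ee a) (rC (k + 1) 0 (za a)) with hz''
  have hza0 : ∀ a, a ∉ s → za a = 0 := fun a ha => by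
    rw [hza]; simp only [hs a ha, map_zero]
  have h1 : ∀ b, ct (k + 3) 0 (va b) z'' = 0 := by
    intro b
    rw [hz'', map_sub, map_sum]
    have : ∀ a ∈ s, ct (k + 3) 0 (va b) (wC (k + 3) 0 (ee a) (rC (k + 1) 0 (za a))) =
        if a = b then rC (k + 1) 0 (za a) else 0 := by
      intro a _
      rw [ct_wC_zero, va_ee, ite_smul, one_smul, zero_smul]
    rw [Finset.sum_congr rfl this, Finset.sum_ite_eq']
    split_ifs with hb
    · rw [hza]; simp only [hc b, sub_self]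
    · rw [hs b hb, sub_zero]
  have h2 : ∀ b, ld k 1 (va b) z'' = rC k 1 (dC k 0 (za b)) := by
    intro b
    have e1 := ld_cyc k 0 (va b) z
    rw [hz, map_zero] at e1
    have e2 : ld k 1 (va b) z = dC k 0 (ct (k + 3) 0 (va b) z) := (sub_eq_zero.1 e1.symm)
    rw [hz'', map_sub, map_sum, e2, ← hc b, rC_dC]
    rw [Finset.sum_eq_zero, sub_zero]
    intro a _
    rw [ld_wC, ld_va_rC_zero, map_zero]
  have h3 : ∀ b, dC k 0 (za b) = 0 := by
    intro b
    have := sC_ld b k 1 z''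
    rwa [h2, sC_rC] at this
  have h4 : ∀ b, ld k 1 (va b) z'' = 0 := fun b => by rw [h2, h3, map_zero]
  have h5 := Emj 0 k 0 z'' h1 h4
  refine ⟨sC 0 (k + 1) 1 z'', s, za, ?_, h3, ?_⟩
  · rw [← sC_dC, hz'', map_sub, hz, map_sum, Finset.sum_eq_zero, sub_zero, map_zero]
    intro a _
    rw [dC_wC, rC_dC, h3, map_zero, map_zero, neg_zero]
  · rw [h5, hz'']; abel

end

end Helper14.W4
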