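import Pool.Agent.Helper14.W4.H5

set_option autoImplicit false

/-!
# Cocycles in `B_2 ⊗ Λ^{j+1}`: from the leading terms to the decomposition
-/

noncomputable section

open Polynomial TensorProduct
open scoped Classical

namespace Helper14.W4

open Helper14.Gon

universe u v w

section
variable {K : Type u} [Field K]

/-- elements of `B_2(K(t)) ⊗ Λ^{j+1}` without residues and leading terms are constant -/
lemma E2j [IsAlgClosed K] (c : K) (j : ℕ) (z : Cx 2 (j + 1) (RatFunc K))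
    (h1 : ∀ a, ct 2 j (va a) z = 0) (h2 : ∀ a b, ll (j + 1) (va a) (va b) z = 0) :
    rC 0 (j + 1) (sC c 0 (j + 1) z) = z := by
  induction j with
  | zero =>
    refine Cstep c 0 0 z h1 fun θ => E2 c _ fun a b => ?_
    have e : ctT 0 (va b) (lt 0 (va a) (ct 2 0 θ z)) = ll 0 (va a) (va b) (ct 2 0 θ z) := rfl
    rw [e, ← ctT_ll, h2, map_zero]
  | succ j ih =>
    refine Cstep c 0 (j + 1) z h1 fun θ => ih _ (fun a => ?_) fun a b => ?_
    · rw [ct_ct, h1, map_zero, neg_zero]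
    · rw [← ctT_ll, h2, map_zero]

lemma ct_va_wC (k j : ℕ) (a b : K) (y : Cx (k + 2) j K) :
    ct (k + 2) j (va b) (wC (k + 2) j (ee a) (rC k j y)) = if a = b then rC k j y else 0 := by
  cases j with
  | zero => rw [ct_wC_zero, va_ee, ite_smul, one_smul, zero_smul]
  | succ j =>
    rw [ct_wC, va_ee, ct_va_rC, map_zero, sub_zero, ite_smul, one_smul, zero_smul]

lemma ctT_va_rT (j : ℕ) (a : K) (ω : Tx (j + 1) K) : ctT j (va a) (rT (j + 1) ω) = 0 := by
  have e : ctT j (0 : Additive Kˣ →+ ℚ) ω = 0 := by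
    have h := ctT_add j (0 : Additive Kˣ →+ ℚ) 0 ω
    rw [add_zero] at h
    exact left_eq_add.1 h
  rw [ctT_rT, va_rU, e, map_zero]

lemma ctT_va_wT (j : ℕ) (a b : K) (y : Tx (j + 1) K) :
    ctT (j + 1) (va b) (wT (j + 1) (ee a) (rT (j + 1) y)) = if a = b then rT (j + 1) y else 0 := by
  rw [ctT_wT, va_ee, ctT_va_rT, map_zero, sub_zero, ite_smul, one_smul, zero_smul]

/-- The decomposition of a cocycle all of whose residues are constant. -/
theorem decomp2 [IsAlgClosed K] (j : ℕ) (z : Cx 2 (j + 1) (RatFunc K)) (hz : dT (j + 1) z = 0)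
    (hc : ∀ a, rC 0 j (sC 0 0 j (ct 2 j (va a) z)) = ct 2 j (va a) z) :
    ∃ (z0 : Cx 2 (j + 1) K) (s : Finset K) (za : K → Cx 2 j K),
      dT (j + 1) z0 = 0 ∧ (∀ a, dT j (za a) = 0) ∧
      z = rC 0 (j + 1) z0 + ∑ a ∈ s, wC 2 j (ee a) (rC 0 j (za a)) := by
  obtain ⟨s, hs⟩ := ct_finite 2 j z
  set za : K → Cx 2 j K := fun a => sC 0 0 j (ct 2 j (va a) z) with hza
  set z'' := z - ∑ a ∈ s, wC 2 j (ee a) (rC 0 j (za a)) with hz''
  have hza0 : ∀ a, a ∉ s → za a = 0 := fun a ha => by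
    rw [hza]; simp only [hs a ha, map_zero]
  have h1 : ∀ b, ct 2 j (va b) z'' = 0 := by
    intro b
    rw [hz'', map_sub, map_sum]
    have : ∀ a ∈ s, ct 2 j (va b) (wC 2 j (ee a) (rC 0 j (za a))) =
        if a = b then rC 0 j (za a) else 0 := fun a _ => ct_va_wC 0 j a b _
    rw [Finset.sum_congr rfl this, Finset.sum_ite_eq']
    split_ifs with hb
    · rw [hza]; simp only [hc b, sub_self]
    · rw [hs b hb, sub_zero]
  have h2 : ∀ b, lt (j + 1) (va b) z'' = - rT (j + 2) (dT j (za b)) := by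
    intro b
    have e0 : lt (j + 1) (va b) z'' = ctT (j + 2) (va b) (dT (j + 1) z'') -
      dT j (ct 2 j (va b) z'') := rfl
    rw [e0, h1, map_zero, sub_zero, hz'', map_sub, hz, zero_sub, map_neg, map_sum, map_sum]
    have : ∀ a ∈ s, ctT (j + 2) (va b) (dT (j + 1) (wC 2 j (ee a) (rC 0 j (za a)))) =
        if a = b then rT (j + 2) (dT j (za a)) else 0 := by
      intro a _
      rw [dT_wC, rT_dT, ctT_va_wT]
    rw [Finset.sum_congr rfl this, Finset.sum_ite_eq']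
    split_ifs with hb
    · rfl
    · rw [hza0 b hb, map_zero, map_zero]
  have h3 : ∀ b, dT j (za b) = 0 := by
    intro b
    have := sT_lt b (j + 1) z''
    rw [h2, map_neg, sT_rT] at this
    exact neg_eq_zero.1 this
  have h4 : ∀ b, lt (j + 1) (va b) z'' = 0 := fun b => by rw [h2, h3, map_zero, neg_zero]
  have h5 : ∀ a b, ll (j + 1) (va a) (va b) z'' = 0 := by
    intro a b
    have e : ll (j + 1) (va a) (va b) z'' = ctT (j + 1) (va b) (lt (j + 1) (va a) z'') +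
      lt j (va a) (ct 2 j (va b) z'') := rfl
    rw [e, h4, h1, map_zero, map_zero, add_zero]
  have h6 := E2j 0 j z'' h1 h5
  refine ⟨sC 0 0 (j + 1) z'', s, za, ?_, h3, ?_⟩
  · have e := sT_dT (0 : K) (j + 1) z''
    rw [← e, hz'', map_sub, hz, map_sum, Finset.sum_eq_zero, sub_zero, map_zero]
    intro a _
    rw [dT_wC, rT_dT, h3, map_zero, map_zero]
  · rw [h6, hz'']; abel

/-- injectivity, terms `B_2 ⊗ Λ^1` -/
theorem inj3 (z0 : Cx 2 1 K) (s : Finset K) (za : K → Cx 2 0 K)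
    (w : Cx 3 0 (RatFunc K))
    (h : rC 0 1 z0 + ∑ a ∈ s, wC 2 0 (ee a) (rC 0 0 (za a)) = dC 0 0 w) :
    (∃ w0 : Cx 3 0 K, dC 0 0 w0 = z0) ∧ ∀ a ∈ s, za a = 0 := by
  have h1 : ∀ b ∈ s, za b = 0 := by
    intro b hb
    have e1 := congrArg (ct 2 0 (va b)) h
    rw [map_add, map_sum] at e1
    have e2 : ct 2 0 (va b) (rC 0 1 z0) = 0 := ct_va_rC 0 0 b z0
    have : ∀ a ∈ s, ct 2 0 (va b) (wC 2 0 (ee a) (rC 0 0 (za a))) =
        if a = b then rC 0 0 (za a) else 0 := fun a _ => ct_va_wC 0 0 a b _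
    rw [e2, zero_add, Finset.sum_congr rfl this, Finset.sum_ite_eq', if_pos hb] at e1
    have e3 := congrArg (sC b 0 0) e1
    rw [sC_rC] at e3
    rw [e3]
    exact sC_ld b 0 0 w
  refine ⟨⟨sC 0 1 0 w, ?_⟩, h1⟩
  have h2 : rC 0 1 z0 = dC 0 0 w := by
    rw [← h, Finset.sum_eq_zero, add_zero]
    intro a ha
    rw [h1 a ha, map_zero, map_zero]
  have e3 := congrArg (sC 0 0 1) h2
  rw [sC_rC, sC_dC] at e3
  exact e3.symm

/-- injectivity, terms `B_{k+2} ⊗ Λ^{j+2}` -/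
theorem inj4 (k j : ℕ) (z0 : Cx (k + 2) (j + 2) K) (s : Finset K) (za : K → Cx (k + 2) (j + 1) K)
    (w : Cx (k + 3) (j + 1) (RatFunc K))
    (h : rC k (j + 2) z0 + ∑ a ∈ s, wC (k + 2) (j + 1) (ee a) (rC k (j + 1) (za a)) =
      dC k (j + 1) w) :
    (∃ w0 : Cx (k + 3) (j + 1) K, dC k (j + 1) w0 = z0) ∧
      ∀ a ∈ s, ∃ wa : Cx (k + 3) j K, dC k j wa = za a := by
  have h1 : ∀ b ∈ s, dC k j (-(sC b (k + 1) j (ct (k + 3) j (va b) w))) = za b := by
    intro b hb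
    have e1 := congrArg (ct (k + 2) (j + 1) (va b)) h
    rw [map_add, map_sum] at e1
    have : ∀ a ∈ s, ct (k + 2) (j + 1) (va b) (wC (k + 2) (j + 1) (ee a) (rC k (j + 1) (za a))) =
        if a = b then rC k (j + 1) (za a) else 0 := fun a _ => ct_va_wC k (j + 1) a b _
    rw [ct_va_rC, zero_add, Finset.sum_congr rfl this, Finset.sum_ite_eq', if_pos hb,
      ld_cyc] at e1
    have e3 := congrArg (sC b k (j + 1)) e1
    rw [sC_rC, map_sub, sC_ld, zero_sub, sC_dC] at e3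
    rw [map_neg, e3]
  refine ⟨?_, fun a ha => ⟨_, h1 a ha⟩⟩
  have e3 := congrArg (sC 0 k (j + 2)) h
  rw [map_add, sC_rC, sC_dC, map_sum] at e3
  have h5 : ∀ a ∈ s, sC 0 k (j + 2) (wC (k + 2) (j + 1) (ee a) (rC k (j + 1) (za a))) =
      dC k (j + 1) (wC (k + 3) j (lcU 0 (ee a)) (sC a (k + 1) j (ct (k + 3) j (va a) w))) := by
    intro a ha
    have e4 : sC 0 k (j + 2) (wC (k + 2) (j + 1) (ee a) (rC k (j + 1) (za a))) =
        wC (k + 2) (j + 1) (lcU 0 (ee a)) (za a) := by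
      have : (sC (0 : K) k (j + 2)) ∘ₗ (wC (k + 2) (j + 1) (ee a)) =
          (wC (k + 2) (j + 1) (lcU 0 (ee a))) ∘ₗ (sC 0 k (j + 1)) := by
        refine Cx_ext fun x ω => ?_
        rw [LinearMap.comp_apply, ← PB_gen, wC_PB, sC_PB, LinearMap.comp_apply, sC_PB, wC_PB,
          sT_wT]
      have e5 := LinearMap.congr_fun this (rC k (j + 1) (za a))
      rw [LinearMap.comp_apply, LinearMap.comp_apply, sC_rC] at e5
      exact e5
    rw [e4, dC_wC, ← h1 a ha, map_neg, map_neg]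
  rw [Finset.sum_congr rfl h5, ← map_sum] at e3
  refine ⟨sC 0 (k + 1) (j + 1) w - ∑ a ∈ s, wC (k + 3) j (lcU 0 (ee a))
    (sC a (k + 1) j (ct (k + 3) j (va a) w)), ?_⟩
  rw [map_sub, ← e3]
  abel

end

end Helper14.W4
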