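import Pool.Agent.Helper14.W4.Lk4

set_option autoImplicit false

/-!
# Localisation for `n = 4`, `i = 2`
-/

noncomputable section

open Polynomial TensorProduct
open scoped Classical

namespace Helper14.W4

open Helper14.Gon

universe u v w

section
variable {K : Type u} [Field K]

lemma lead_const [IsAlgClosed K] {z : Cx 3 1 (RatFunc K)} (hz : dC 0 1 z = 0)
    (hm : mm z = 0) (a : K) : rC 1 0 (sC 0 1 0 (ct 3 0 (va a) z)) = ct 3 0 (va a) z := by
  refine E3 0 _ fun b => ?_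
  have hb : rC 0 0 (sC a 0 0 (bet a b z)) = bet a b z := by
    refine E2 a _ fun c d => ?_
    have h1 := congrFun hm (a, b, c, d)
    have h2 : e0 (RatFunc K) (ll 0 (va c) (va d) (bet a b z)) = 0 := h1
    have h3 := e0_inj (ll 0 (va c) (va d) (bet a b z))
    rw [h2, zero_smul] at h3
    exact h3.symm
  have z1 : sC a 0 0 (bet a b z) = 0 := by
    have : bet a b z = bet b a z := cyc_symm 0 z hz a b
    rw [this]; exact sC_ld a 0 0 _
  rw [z1, map_zero] at hb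
  exact hb.symm

/-- Localisation for `n = 4`, `i = 2`: surjectivity. -/
theorem surj42 [IsAlgClosed K] (z : Cx 3 1 (RatFunc K)) (hz : dC 0 1 z = 0) :
    ∃ (z0 : Cx 3 1 K) (s : Finset K) (za : K → Cx 3 0 K) (w : Cx 4 0 (RatFunc K)),
      dC 0 1 z0 = 0 ∧ (∀ a, dC 0 0 (za a) = 0) ∧
      z = rC 1 1 z0 + ∑ a ∈ s, wC 3 0 (ee a) (rC 1 0 (za a)) + dC 1 0 w := by
  obtain ⟨w, hw⟩ := lead_terms hz
  have hz' : dC 0 1 (z - dC 1 0 w) = 0 := by
    have := LinearMap.congr_fun (dC_dC 0 0) w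
    rw [LinearMap.comp_apply, LinearMap.zero_apply] at this
    rw [map_sub, hz, this, sub_zero]
  have hm : mm (z - dC 1 0 w) = 0 := by rw [map_sub, hw, sub_self]
  obtain ⟨z0, s, za, h0, ha, h⟩ := decomp 0 _ hz' (lead_const hz' hm)
  exact ⟨z0, s, za, w, h0, ha, by rw [← h]; abel⟩

/-- Localisation, `i = 2`: injectivity. -/
theorem inj2 (k : ℕ) (z0 : Cx (k + 3) 1 K) (s : Finset K) (za : K → Cx (k + 3) 0 K)
    (w : Cx (k + 4) 0 (RatFunc K))
    (h : rC (k + 1) 1 z0 + ∑ a ∈ s, wC (k + 3) 0 (ee a) (rC (k + 1) 0 (za a)) =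
      dC (k + 1) 0 w) :
    (∃ w0 : Cx (k + 4) 0 K, dC (k + 1) 0 w0 = z0) ∧ ∀ a ∈ s, za a = 0 := by
  have h1 : ∀ b ∈ s, za b = 0 := by
    intro b hb
    have e1 := congrArg (ct (k + 3) 0 (va b)) h
    rw [map_add, map_sum] at e1
    have e2 : ct (k + 3) 0 (va b) (rC (k + 1) 1 z0) = 0 := ct_va_rC (k + 1) 0 b z0
    have : ∀ a ∈ s, ct (k + 3) 0 (va b) (wC (k + 3) 0 (ee a) (rC (k + 1) 0 (za a))) =
        if a = b then rC (k + 1) 0 (za a) else 0 := by
      intro a _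
      rw [ct_wC_zero, va_ee, ite_smul, one_smul, zero_smul]
    rw [e2, zero_add, Finset.sum_congr rfl this, Finset.sum_ite_eq', if_pos hb] at e1
    have e3 := congrArg (sC b (k + 1) 0) e1
    rw [sC_rC] at e3
    rw [e3]
    exact sC_ld b (k + 1) 0 w
  refine ⟨⟨sC 0 (k + 2) 0 w, ?_⟩, h1⟩
  have h2 : rC (k + 1) 1 z0 = dC (k + 1) 0 w := by
    rw [← h, Finset.sum_eq_zero, add_zero]
    intro a ha
    rw [h1 a ha, map_zero, map_zero]
  have e3 := congrArg (sC 0 (k + 1) 1) h2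
  rw [sC_rC, sC_dC] at e3
  exact e3.symm

end

end Helper14.W4
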