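import Pool.Agent.Helper14.Gon.Cfun

set_option autoImplicit false

/-!
# Contractions on the complexes `Γ(F, n) ⊗ ℚ`
-/

noncomputable section

open TensorProduct
open scoped Classical

namespace Helper14.W4

open Helper14.Gon

universe u v w

section
variable {F : Type u} [Field F]

/-- linear maps on `Λ^j F^* ⊗ ℚ` are determined on decomposable elements -/
lemma Tx_ext {j : ℕ} {N : Type v} [AddCommGroup N] [Module ℚ N] {f g : Tx j F →ₗ[ℚ] N}
    (h : ∀ v : Fin j → Additive Fˣ, f (toQ (exteriorPower.ιMulti ℤ j v)) =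
      g (toQ (exteriorPower.ιMulti ℤ j v))) : f = g := by
  have h3 : ∀ ω : Lam j F, f (toQ ω) = g (toQ ω) := by
    have : (AddMonoidHom.mk' (fun ω : Lam j F => f (toQ ω)) (fun a b => by
        rw [toQ, tmul_add, map_add])) =
        (AddMonoidHom.mk' (fun ω : Lam j F => g (toQ ω)) (fun a b => by
        rw [toQ, tmul_add, map_add])) := lam_ext fun v => h v
    exact fun ω => DFunLike.congr_fun this ω
  refine LinearMap.ext fun z => ?_
  induction z using TensorProduct.induction_on with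
  | zero => rw [map_zero, map_zero]
  | add a b ha hb => rw [map_add, map_add, ha, hb]
  | tmul q m =>
    have : (q ⊗ₜ[ℤ] m : Tx j F) = q • toQ m := by
      rw [toQ, smul_tmul', smul_eq_mul, mul_one]
    rw [this, map_smul, map_smul, h3]

lemma Tx_ext' {j : ℕ} {N : Type v} [AddCommGroup N] [Module ℚ N] {f g : Tx j F →ₗ[ℚ] N}
    (h : ∀ ω : Lam j F, f (toQ ω) = g (toQ ω)) : f = g := Tx_ext fun _ => h _

/-- `(b, ω) ↦ b ⊗ ω` -/
def PB (k j : ℕ) : B k F →+ (Tx j F →ₗ[ℚ] Cx k j F) where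
  toFun b := LinearMap.baseChange ℚ (TensorProduct.mk ℤ (B k F) (Lam j F) b)
  map_zero' := by
    refine Tx_ext' fun ω => ?_
    change LinearMap.baseChange ℚ (TensorProduct.mk ℤ (B k F) (Lam j F) 0) (1 ⊗ₜ[ℤ] ω) = 0
    rw [LinearMap.baseChange_tmul, TensorProduct.mk_apply, zero_tmul, tmul_zero]
  map_add' a b := by
    refine Tx_ext' fun ω => ?_
    change LinearMap.baseChange ℚ (TensorProduct.mk ℤ (B k F) (Lam j F) (a + b)) (1 ⊗ₜ[ℤ] ω) =
      LinearMap.baseChange ℚ (TensorProduct.mk ℤ (B k F) (Lam j F) a) (1 ⊗ₜ[ℤ] ω) +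
      LinearMap.baseChange ℚ (TensorProduct.mk ℤ (B k F) (Lam j F) b) (1 ⊗ₜ[ℤ] ω)
    rw [LinearMap.baseChange_tmul, LinearMap.baseChange_tmul, LinearMap.baseChange_tmul,
      TensorProduct.mk_apply, TensorProduct.mk_apply, TensorProduct.mk_apply, add_tmul, tmul_add]

lemma PB_toQ (k j : ℕ) (b : B k F) (ω : Lam j F) : PB k j b (toQ ω) = toQ (b ⊗ₜ[ℤ] ω) := by
  change LinearMap.baseChange ℚ (TensorProduct.mk ℤ (B k F) (Lam j F) b) (1 ⊗ₜ[ℤ] ω) = _
  rw [LinearMap.baseChange_tmul]; rfl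

lemma PB_gen (k j : ℕ) (x : P1 F) (ω : Lam j F) : PB k j (cl k x) (toQ ω) = gen k x ω :=
  PB_toQ k j _ ω

/-- universal property of the terms of the complex -/
def liftC {k j : ℕ} {N : Type v} [AddCommGroup N] [Module ℚ N]
    (g : B k F →+ (Tx j F →ₗ[ℚ] N)) : Cx k j F →ₗ[ℚ] N :=
  LinearMap.liftBaseChange ℚ (TensorProduct.liftAddHom
    (AddMonoidHom.mk' (fun b => AddMonoidHom.mk' (fun ω : Lam j F => g b (toQ ω))
      (fun a b => by rw [toQ, tmul_add, map_add])) (fun a b => by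
        refine DFunLike.ext _ _ fun ω => ?_
        change g (a + b) (toQ ω) = g a (toQ ω) + g b (toQ ω)
        rw [map_add]; rfl))
    (fun r m n => bil_zs _ r m n)).toIntLinearMap

lemma liftC_gen {k j : ℕ} {N : Type v} [AddCommGroup N] [Module ℚ N]
    (g : B k F →+ (Tx j F →ₗ[ℚ] N)) (x : P1 F) (ω : Lam j F) :
    liftC g (gen k x ω) = g (cl k x) (toQ ω) := by
  simp only [liftC, gen, toQ]
  exact LinearMap.liftBaseChange_one_tmul ℚ _ _

lemma liftC_PB {k j : ℕ} {N : Type v} [AddCommGroup N] [Module ℚ N]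
    (g : B k F →+ (Tx j F →ₗ[ℚ] N)) (b : B k F) (ω : Tx j F) :
    liftC g (PB k j b ω) = g b ω := by
  have : (liftC g) ∘ₗ (PB k j b) = g b := by
    refine Tx_ext' fun ω => ?_
    rw [LinearMap.comp_apply, PB_toQ]
    simp only [liftC, toQ]
    exact LinearMap.liftBaseChange_one_tmul ℚ _ _
  exact LinearMap.congr_fun this ω

/-- functoriality in the exterior factor -/
def mapT (k : ℕ) {j j' : ℕ} (T : Tx j F →ₗ[ℚ] Tx j' F) : Cx k j F →ₗ[ℚ] Cx k j' F :=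
  liftC (AddMonoidHom.mk' (fun b => (PB k j' b) ∘ₗ T) (fun a b => by
    rw [map_add]; rfl))

lemma mapT_PB (k : ℕ) {j j' : ℕ} (T : Tx j F →ₗ[ℚ] Tx j' F) (b : B k F) (ω : Tx j F) :
    mapT k T (PB k j b ω) = PB k j' b (T ω) := liftC_PB _ b ω

lemma mapT_gen (k : ℕ) {j j' : ℕ} (T : Tx j F →ₗ[ℚ] Tx j' F) (x : P1 F) (ω : Lam j F) :
    mapT k T (gen k x ω) = PB k j' (cl k x) (T (toQ ω)) := liftC_gen _ x ω

lemma mapT_comp (k : ℕ) {j j' j'' : ℕ} (T' : Tx j' F →ₗ[ℚ] Tx j'' F)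
    (T : Tx j F →ₗ[ℚ] Tx j' F) (z : Cx k j F) : mapT k (T' ∘ₗ T) z = mapT k T' (mapT k T z) := by
  have : mapT k (T' ∘ₗ T) = (mapT k T') ∘ₗ (mapT k T) := by
    refine Cx_ext fun x ω => ?_
    rw [LinearMap.comp_apply, mapT_gen, mapT_gen, mapT_PB]; rfl
  rw [this]; rfl

lemma mapT_id (k j : ℕ) (z : Cx k j F) : mapT k LinearMap.id z = z := by
  have : mapT k (LinearMap.id : Tx j F →ₗ[ℚ] Tx j F) = LinearMap.id := by
    refine Cx_ext fun x ω => ?_
    rw [mapT_gen, LinearMap.id_apply, PB_gen, LinearMap.id_apply]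
  rw [this]; rfl

lemma mapT_add (k : ℕ) {j j' : ℕ} (T T' : Tx j F →ₗ[ℚ] Tx j' F) (z : Cx k j F) :
    mapT k (T + T') z = mapT k T z + mapT k T' z := by
  have : mapT k (T + T') = mapT k T + mapT k T' := by
    refine Cx_ext fun x ω => ?_
    rw [LinearMap.add_apply, mapT_gen, mapT_gen, mapT_gen, LinearMap.add_apply, map_add]
  rw [this]; rfl

lemma mapT_smul (k : ℕ) {j j' : ℕ} (q : ℚ) (T : Tx j F →ₗ[ℚ] Tx j' F) (z : Cx k j F) :
    mapT k (q • T) z = q • mapT k T z := by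
  have : mapT k (q • T) = q • mapT k T := by
    refine Cx_ext fun x ω => ?_
    rw [LinearMap.smul_apply, mapT_gen, mapT_gen, LinearMap.smul_apply, map_smul]
  rw [this]; rfl

/-- `mapT` as a linear map -/
def mapTL (k j j' : ℕ) : (Tx j F →ₗ[ℚ] Tx j' F) →ₗ[ℚ] (Cx k j F →ₗ[ℚ] Cx k j' F) where
  toFun T := mapT k T
  map_add' T T' := LinearMap.ext fun z => mapT_add k T T' z
  map_smul' q T := LinearMap.ext fun z => mapT_smul k q T z

lemma mapT_zero (k : ℕ) {j j' : ℕ} (z : Cx k j F) :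
    mapT k (0 : Tx j F →ₗ[ℚ] Tx j' F) z = 0 := by
  have := map_zero (mapTL k j j' (F := F))
  exact LinearMap.congr_fun this z

lemma mapT_sub (k : ℕ) {j j' : ℕ} (T T' : Tx j F →ₗ[ℚ] Tx j' F) (z : Cx k j F) :
    mapT k (T - T') z = mapT k T z - mapT k T' z := by
  have := map_sub (mapTL k j j' (F := F)) T T'
  exact LinearMap.congr_fun this z

lemma mapT_neg (k : ℕ) {j j' : ℕ} (T : Tx j F →ₗ[ℚ] Tx j' F) (z : Cx k j F) :
    mapT k (-T) z = - mapT k T z := by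
  have := map_neg (mapTL k j j' (F := F)) T
  exact LinearMap.congr_fun this z

lemma mapT_sum (k : ℕ) {j j' : ℕ} {ι : Type w} (s : Finset ι)
    (T : ι → (Tx j F →ₗ[ℚ] Tx j' F)) (z : Cx k j F) :
    mapT k (∑ i ∈ s, T i) z = ∑ i ∈ s, mapT k (T i) z := by
  have := map_sum (mapTL k j j' (F := F)) T s
  have h := LinearMap.congr_fun this z
  rw [LinearMap.sum_apply] at h
  exact h

/-- the operator `ω ↦ v ∧ ω` -/
def wT (j : ℕ) (v : Additive Fˣ) : Tx j F →ₗ[ℚ] Tx (j + 1) F := LinearMap.baseChange ℚ (wL j v)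

lemma wT_toQ (j : ℕ) (v : Additive Fˣ) (ω : Lam j F) : wT j v (toQ ω) = toQ (wL j v ω) := by
  rw [wT, toQ, LinearMap.baseChange_tmul]

/-- decomposable elements -/
def dm {j : ℕ} (v : Fin j → Additive Fˣ) : Tx j F := toQ (exteriorPower.ιMulti ℤ j v)

lemma wT_dm {j : ℕ} (v : Additive Fˣ) (w : Fin j → Additive Fˣ) :
    wT j v (dm w) = dm (Matrix.vecCons v w) := by rw [dm, wT_toQ, wL_ιMulti, dm]

lemma wT_add (j : ℕ) (v v' : Additive Fˣ) : wT j (v + v') = wT j v + wT j v' := by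
  rw [wT, map_add, LinearMap.baseChange_add]; rfl

lemma wT_zero (j : ℕ) : wT j (0 : Additive Fˣ) = 0 := by
  rw [wT, map_zero, LinearMap.baseChange_zero]

lemma wT_neg (j : ℕ) (v : Additive Fˣ) : wT j (-v) = - wT j v := by
  rw [wT, map_neg, LinearMap.baseChange_neg]; rfl

/-- `wT` as a homomorphism -/
def wTH (j : ℕ) : Additive Fˣ →+ (Tx j F →ₗ[ℚ] Tx (j + 1) F) where
  toFun := wT j
  map_zero' := wT_zero j
  map_add' := wT_add j

/-- the linear map behind the contraction -/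
def ctL (j : ℕ) (θ : Additive Fˣ →+ ℚ) :
    Additive Fˣ →ₗ[ℤ] (Additive Fˣ) [⋀^Fin j]→ₗ[ℤ] Tx j F where
  toFun v := (θ v) •
    ((TensorProduct.mk ℤ ℚ (Lam j F) 1).compAlternatingMap (exteriorPower.ιMulti ℤ j))
  map_add' a b := by
    rw [map_add]
    refine AlternatingMap.ext fun v => ?_
    change (θ a + θ b) • (dm v : Tx j F) = θ a • (dm v : Tx j F) + θ b • (dm v : Tx j F)
    rw [add_smul]
  map_smul' c a := by
    refine AlternatingMap.ext fun v => ?_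
    change (θ (c • a)) • (dm v : Tx j F) = c • (θ a • (dm v : Tx j F))
    rw [map_zsmul, zsmul_eq_mul, mul_smul, Int.cast_smul_eq_zsmul]

lemma ctL_apply (j : ℕ) (θ : Additive Fˣ →+ ℚ) (v : Additive Fˣ) (w : Fin j → Additive Fˣ) :
    ctL j θ v w = θ v • dm w := rfl

/-- the alternating map behind the contraction -/
def ctA (j : ℕ) (θ : Additive Fˣ →+ ℚ) : (Additive Fˣ) [⋀^Fin (j + 1)]→ₗ[ℤ] Tx j F :=
  AlternatingMap.alternatizeUncurryFin (ctL j θ)

/-- the contraction `v_0 ∧ … ∧ v_j ↦ ∑ (-1)^i θ(v_i) …` -/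
def ctT (j : ℕ) (θ : Additive Fˣ →+ ℚ) : Tx (j + 1) F →ₗ[ℚ] Tx j F :=
  LinearMap.liftBaseChange ℚ (exteriorPower.alternatingMapLinearEquiv (ctA j θ))

lemma ctT_dm (j : ℕ) (θ : Additive Fˣ →+ ℚ) (w : Fin (j + 1) → Additive Fˣ) :
    ctT j θ (dm w) = ∑ i : Fin (j + 1), (-1 : ℤ) ^ (i : ℕ) • (θ (w i) • dm (i.removeNth w)) := by
  have h1 : ctT j θ (dm w) = ctA j θ w := by
    simp only [ctT, dm, toQ]
    rw [LinearMap.liftBaseChange_one_tmul]
    exact exteriorPower.alternatingMapLinearEquiv_apply_ιMulti _ _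
  rw [h1, ctA, AlternatingMap.alternatizeUncurryFin_apply]
  rfl

/-- `Λ^{j+1}` is generated by the `v ∧ ω` -/
lemma Tx_ext_succ {j : ℕ} {N : Type v} [AddCommGroup N] [Module ℚ N]
    {f g : Tx (j + 1) F →ₗ[ℚ] N} (h : ∀ (v : Additive Fˣ) (ω : Tx j F),
      f (wT j v ω) = g (wT j v ω)) : f = g := by
  refine Tx_ext fun w => ?_
  have := h (w 0) (dm (fun i => w i.succ))
  rw [wT_dm] at this
  have e : Matrix.vecCons (w 0) (fun i => w i.succ) = w := by
    funext i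
    refine Fin.cases ?_ (fun i => ?_) i
    · rfl
    · rfl
  rwa [e] at this

/-- induction on elements of `Λ^{j+1} ⊗ ℚ` -/
lemma Tx_ind {j : ℕ} (p : Tx (j + 1) F → Prop) (h0 : p 0) (hadd : ∀ a b, p a → p b → p (a + b))
    (h1 : ∀ (v : Additive Fˣ) (ω : Tx j F), p (wT j v ω)) (z : Tx (j + 1) F) : p z := by
  set P : Submodule ℚ (Tx (j + 1) F) := Submodule.span ℚ {z | ∃ v ω, z = wT j v ω} with hP
  have hz : z ∈ P := by
    have : P.mkQ = 0 := by
      refine Tx_ext_succ fun v ω => ?_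
      rw [LinearMap.zero_apply, Submodule.mkQ_apply, Submodule.Quotient.mk_eq_zero]
      exact Submodule.subset_span ⟨v, ω, rfl⟩
    rw [← Submodule.Quotient.mk_eq_zero, ← Submodule.mkQ_apply, this, LinearMap.zero_apply]
  induction hz using Submodule.closure_induction with
  | zero => exact h0
  | add x y _ _ hx hy => exact hadd x y hx hy
  | smul_mem r x hx =>
    obtain ⟨v, ω, rfl⟩ := hx
    rw [← map_smul]; exact h1 v _

/-- induction on elements of `B_k ⊗ Λ^j ⊗ ℚ` -/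
lemma Cx_ind {k j : ℕ} (p : Cx k j F → Prop) (h0 : p 0) (hadd : ∀ a b, p a → p b → p (a + b))
    (h1 : ∀ (x : P1 F) (ω : Tx j F), p (PB k j (cl k x) ω)) (z : Cx k j F) : p z := by
  set P : Submodule ℚ (Cx k j F) := Submodule.span ℚ {z | ∃ x ω, z = PB k j (cl k x) ω} with hP
  have hz : z ∈ P := by
    have : P.mkQ = 0 := by
      refine Cx_ext fun x ω => ?_
      rw [LinearMap.zero_apply, Submodule.mkQ_apply, Submodule.Quotient.mk_eq_zero]
      exact Submodule.subset_span ⟨x, toQ ω, (PB_gen k j x ω).symm⟩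
    rw [← Submodule.Quotient.mk_eq_zero, ← Submodule.mkQ_apply, this, LinearMap.zero_apply]
  induction hz using Submodule.closure_induction with
  | zero => exact h0
  | add x y _ _ hx hy => exact hadd x y hx hy
  | smul_mem r x hx =>
    obtain ⟨v, ω, rfl⟩ := hx
    rw [← map_smul]; exact h1 v _

lemma removeNth_succ_vecCons {j : ℕ} (v : Additive Fˣ) (w : Fin (j + 1) → Additive Fˣ)
    (i : Fin (j + 1)) :
    (i.succ).removeNth (Matrix.vecCons v w) = Matrix.vecCons v (i.removeNth w) := by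
  funext m
  refine Fin.cases ?_ (fun m => ?_) m
  · simp [Fin.removeNth]
  · simp [Fin.removeNth]

/-- the contraction is an antiderivation -/
lemma ctT_wT (j : ℕ) (θ : Additive Fˣ →+ ℚ) (v : Additive Fˣ) (ω : Tx (j + 1) F) :
    ctT (j + 1) θ (wT (j + 1) v ω) = θ v • ω - wT j v (ctT j θ ω) := by
  have : (ctT (j + 1) θ) ∘ₗ (wT (j + 1) v) =
      θ v • LinearMap.id - (wT j v) ∘ₗ (ctT j θ) := by
    refine Tx_ext fun w => ?_
    change ctT (j + 1) θ (wT (j + 1) v (dm w)) = θ v • dm w - wT j v (ctT j θ (dm w))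
    rw [wT_dm, ctT_dm, ctT_dm, Fin.sum_univ_succ, map_sum, sub_eq_add_neg, ← Finset.sum_neg_distrib]
    congr 1
    · simp
    · refine Finset.sum_congr rfl fun i _ => ?_
      rw [map_zsmul, map_smul, wT_dm, removeNth_succ_vecCons, Matrix.cons_val_succ, Fin.val_succ,
        pow_succ, mul_neg_one, neg_smul]
  exact LinearMap.congr_fun this ω

lemma ctT_wT_zero (θ : Additive Fˣ →+ ℚ) (v : Additive Fˣ) (ω : Tx 0 F) :
    ctT 0 θ (wT 0 v ω) = θ v • ω := by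
  have : (ctT 0 θ) ∘ₗ (wT 0 v) = θ v • LinearMap.id := by
    refine Tx_ext fun w => ?_
    change ctT 0 θ (wT 0 v (dm w)) = θ v • dm w
    rw [wT_dm, ctT_dm, Fin.sum_univ_succ]
    simp
  exact LinearMap.congr_fun this ω

lemma wT_wT (j : ℕ) (v w : Additive Fˣ) (ω : Tx j F) :
    wT (j + 1) v (wT j w ω) = - wT (j + 1) w (wT j v ω) := by
  have : (wT (j + 1) v) ∘ₗ (wT j w) = -((wT (j + 1) w) ∘ₗ (wT j v)) := by
    refine Tx_ext' fun ω => ?_
    change wT (j + 1) v (wT j w (toQ ω)) = - wT (j + 1) w (wT j v (toQ ω))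
    rw [wT_toQ, wT_toQ, wT_toQ, wT_toQ, ← mulW_wdg, ← mulW_wdg]
    have : wdg v w = - wdg w v := by
      have h := wdg_self (v + w)
      rw [wdg_add_left, wdg_add_right, wdg_add_right, wdg_self, wdg_self] at h
      rw [eq_neg_iff_add_eq_zero]
      simpa using h
    rw [this, map_neg, LinearMap.neg_apply, toQ, tmul_neg]
  exact LinearMap.congr_fun this ω

lemma wT_self (j : ℕ) (v : Additive Fˣ) (ω : Tx j F) : wT (j + 1) v (wT j v ω) = 0 := by
  have := wT_wT j v v ω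
  rw [← add_eq_zero_iff_eq_neg, ← two_smul ℚ] at this
  exact (smul_eq_zero.1 this).resolve_left two_ne_zero

/-- contractions anticommute -/
lemma ctT_ctT (j : ℕ) (θ η : Additive Fˣ →+ ℚ) (ω : Tx (j + 2) F) :
    ctT j θ (ctT (j + 1) η ω) = - ctT j η (ctT (j + 1) θ ω) := by
  induction j with
  | zero =>
    have : (ctT 0 θ) ∘ₗ (ctT 1 η) = -((ctT 0 η) ∘ₗ (ctT 1 θ)) := by
      refine Tx_ext_succ fun v ω => ?_
      change ctT 0 θ (ctT 1 η (wT 1 v ω)) = - ctT 0 η (ctT 1 θ (wT 1 v ω))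
      rw [ctT_wT, ctT_wT, map_sub, map_sub, ctT_wT_zero, ctT_wT_zero, map_smul, map_smul]
      abel
    exact LinearMap.congr_fun this ω
  | succ j ih =>
    have : (ctT (j + 1) θ) ∘ₗ (ctT (j + 2) η) = -((ctT (j + 1) η) ∘ₗ (ctT (j + 2) θ)) := by
      refine Tx_ext_succ fun v ω => ?_
      change ctT (j + 1) θ (ctT (j + 2) η (wT (j + 2) v ω)) =
        - ctT (j + 1) η (ctT (j + 2) θ (wT (j + 2) v ω))
      rw [ctT_wT, ctT_wT, map_sub, map_sub, ctT_wT, ctT_wT, map_smul, map_smul, ih, map_neg]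
      abel
    exact LinearMap.congr_fun this ω

lemma ctT_add (j : ℕ) (θ η : Additive Fˣ →+ ℚ) (ω : Tx (j + 1) F) :
    ctT j (θ + η) ω = ctT j θ ω + ctT j η ω := by
  have : ctT j (θ + η) = ctT j θ + ctT j η := by
    refine Tx_ext fun w => ?_
    change ctT j (θ + η) (dm w) = ctT j θ (dm w) + ctT j η (dm w)
    rw [ctT_dm, ctT_dm, ctT_dm, ← Finset.sum_add_distrib]
    refine Finset.sum_congr rfl fun i _ => ?_
    rw [AddMonoidHom.add_apply, add_smul, smul_add]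
  rw [this]; rfl

/-- the homomorphism `x ↦ 1 - x` -/
def l1P : P1 F → Additive Fˣ
  | none => 0
  | some x => lg (1 - x)

lemma dC_PB (k j : ℕ) (x : P1 F) (ω : Tx j F) :
    dC k j (PB (k + 3) j (cl (k + 3) x) ω) = PB (k + 2) (j + 1) (cl (k + 2) x) (wT j (lgP x) ω) := by
  have : (dC k j) ∘ₗ (PB (k + 3) j (cl (k + 3) x)) =
      (PB (k + 2) (j + 1) (cl (k + 2) x)) ∘ₗ (wT j (lgP x)) := by
    refine Tx_ext' fun ω => ?_
    rw [LinearMap.comp_apply, LinearMap.comp_apply, PB_gen, dC_gen, wT_toQ, PB_gen]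
  exact LinearMap.congr_fun this ω

lemma dT_PB (j : ℕ) (x : P1 F) (ω : Tx j F) :
    dT j (PB 2 j (cl 2 x) ω) = wT (j + 1) (l1P x) (wT j (lgP x) ω) := by
  have : (dT j) ∘ₗ (PB 2 j (cl 2 x)) = (wT (j + 1) (l1P x)) ∘ₗ (wT j (lgP x)) := by
    refine Tx_ext' fun ω => ?_
    rw [LinearMap.comp_apply, LinearMap.comp_apply, PB_gen, dT_gen, wT_toQ, wT_toQ]
    cases x with
    | none =>
      rw [d2, map_zero, LinearMap.zero_apply, toQ, tmul_zero]
      rw [l1P, map_zero, LinearMap.zero_apply, toQ, tmul_zero]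
    | some x =>
      rw [d2, mulW_wdg]; rfl
  exact LinearMap.congr_fun this ω

/-- the contraction on `B_k ⊗ Λ^{j+1}` -/
def ct (k j : ℕ) (θ : Additive Fˣ →+ ℚ) : Cx k (j + 1) F →ₗ[ℚ] Cx k j F := mapT k (ctT j θ)

lemma ct_PB (k j : ℕ) (θ : Additive Fˣ →+ ℚ) (b : B k F) (ω : Tx (j + 1) F) :
    ct k j θ (PB k (j + 1) b ω) = PB k j b (ctT j θ ω) := mapT_PB k _ b ω

/-- the Lie derivative `{x} ⊗ ω ↦ θ(x) {x} ⊗ ω` -/
def ld (k : ℕ) : (j : ℕ) → (Additive Fˣ →+ ℚ) → (Cx (k + 3) j F →ₗ[ℚ] Cx (k + 2) j F)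
  | 0, θ => (ct (k + 2) 0 θ) ∘ₗ (dC k 0)
  | j + 1, θ => (ct (k + 2) (j + 1) θ) ∘ₗ (dC k (j + 1)) + (dC k j) ∘ₗ (ct (k + 3) j θ)

lemma ld_PB (k j : ℕ) (θ : Additive Fˣ →+ ℚ) (x : P1 F) (ω : Tx j F) :
    ld k j θ (PB (k + 3) j (cl (k + 3) x) ω) = θ (lgP x) • PB (k + 2) j (cl (k + 2) x) ω := by
  cases j with
  | zero =>
    change ct (k + 2) 0 θ (dC k 0 _) = _
    rw [dC_PB, ct_PB, ctT_wT_zero, map_smul]
  | succ j =>
    change ct (k + 2) (j + 1) θ (dC k (j + 1) _) + dC k j (ct (k + 3) j θ _) = _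
    rw [dC_PB, ct_PB, ctT_wT, map_sub, map_smul, ct_PB, dC_PB]
    abel

/-- the Lie derivative on `B_2 ⊗ Λ^j`, `{x} ⊗ ω ↦ θ(1-x) x ∧ ω - θ(x) (1-x) ∧ ω` -/
def lt : (j : ℕ) → (Additive Fˣ →+ ℚ) → (Cx 2 j F →ₗ[ℚ] Tx (j + 1) F)
  | 0, θ => (ctT 1 θ) ∘ₗ (dT 0)
  | j + 1, θ => (ctT (j + 2) θ) ∘ₗ (dT (j + 1)) - (dT j) ∘ₗ (ct 2 j θ)

lemma lt_PB (j : ℕ) (θ : Additive Fˣ →+ ℚ) (x : P1 F) (ω : Tx j F) :
    lt j θ (PB 2 j (cl 2 x) ω) = θ (l1P x) • wT j (lgP x) ω - θ (lgP x) • wT j (l1P x) ω := by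
  cases j with
  | zero =>
    change ctT 1 θ (dT 0 _) = _
    rw [dT_PB, ctT_wT, ctT_wT_zero, map_smul]
  | succ j =>
    change ctT (j + 2) θ (dT (j + 1) _) - dT j (ct 2 j θ _) = _
    rw [dT_PB, ctT_wT, ct_PB, dT_PB, ctT_wT, map_sub, map_smul]
    abel

/-- Cartan formula for a cycle -/
lemma ld_cyc (k j : ℕ) (θ : Additive Fˣ →+ ℚ) (z : Cx (k + 3) (j + 1) F) :
    ct (k + 2) (j + 1) θ (dC k (j + 1) z) = ld k (j + 1) θ z - dC k j (ct (k + 3) j θ z) := by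
  change _ = ct (k + 2) (j + 1) θ (dC k (j + 1) z) + dC k j (ct (k + 3) j θ z) - _
  abel

/-- contractions commute with Lie derivatives -/
lemma ct_ld (k j : ℕ) (θ η : Additive Fˣ →+ ℚ) (z : Cx (k + 3) (j + 1) F) :
    ct (k + 2) j θ (ld k (j + 1) η z) = ld k j η (ct (k + 3) j θ z) := by
  have : (ct (k + 2) j θ) ∘ₗ (ld k (j + 1) η) = (ld k j η) ∘ₗ (ct (k + 3) j θ) := by
    refine Cx_ext fun x ω => ?_
    rw [LinearMap.comp_apply, LinearMap.comp_apply, ← PB_gen, ld_PB, map_smul, ct_PB, ct_PB,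
      ld_PB]
  exact LinearMap.congr_fun this z

lemma ld_ld (k j : ℕ) (θ η : Additive Fˣ →+ ℚ) (z : Cx (k + 4) j F) :
    ld k j θ (ld (k + 1) j η z) = ld k j η (ld (k + 1) j θ z) := by
  have : (ld k j θ) ∘ₗ (ld (k + 1) j η) = (ld k j η) ∘ₗ (ld (k + 1) j θ) := by
    refine Cx_ext fun x ω => ?_
    change ld k j θ (ld (k + 1) j η (gen (k + 4) x ω)) = ld k j η (ld (k + 1) j θ (gen (k + 4) x ω))
    rw [← PB_gen]
    have e : ∀ ξ : Additive Fˣ →+ ℚ, ld (k + 1) j ξ (PB (k + 4) j (cl (k + 4) x) (toQ ω)) =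
      ξ (lgP x) • PB (k + 3) j (cl (k + 3) x) (toQ ω) := fun ξ => ld_PB (k + 1) j ξ x (toQ ω)
    rw [e, e, map_smul, map_smul, ld_PB, ld_PB, smul_comm]
  exact LinearMap.congr_fun this z

lemma ct_ct (k j : ℕ) (θ η : Additive Fˣ →+ ℚ) (z : Cx k (j + 2) F) :
    ct k j θ (ct k (j + 1) η z) = - ct k j η (ct k (j + 1) θ z) := by
  rw [ct, ct, ct, ct, ← mapT_comp, ← mapT_comp, ← mapT_neg]
  congr 2
  exact LinearMap.ext fun ω => ctT_ctT j θ η ω

end

end Helper14.W4
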