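import Pool.Agent.Helper14.W4.D

set_option autoImplicit false
set_option linter.unusedSectionVars false

/-!
# Functionals on the hook `S_(3,1)(V)` killing functions of degree at most two: conclusions
-/

noncomputable section

open scoped Classical

namespace Helper14.W4

variable {K : Type*} [Field K]

/-- the function `λ_ab` -/
def lam (Ψ : V4 K) (a b : K) (x : K) : ℚ :=
  3 * Ψ (Finsupp.single a 1) (Finsupp.single a 1) (Finsupp.single b 1)
    (Finsupp.single (a + (b - a) / x) 1 - Finsupp.single a 1)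

/-- the affine point `a` -/
def aff (a : K) : K × K := (a, 1)

/-- the point at infinity -/
def inf : K × K := (1, 0)

@[simp] lemma E_aff (a : K) : E (aff a) = Finsupp.single a 1 := E_fin a
@[simp] lemma E_inf' : E (inf : K × K) = 0 := E_inf

lemma br_aff (a b : K) : br (aff a) (aff b) = a - b := by simp [br, aff]
lemma br_aff_inf (a : K) : br (aff a) inf = -1 := by simp [br, aff, inf]

lemma P_aff (a z : K) : P (aff a) inf z = aff (a + z) := by
  simp only [P, aff, inf]
  ext
  · simp [add_comm]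
  · simp

namespace Sol
variable {Ψ : V4 K} (S : Sol Ψ)
include S

lemma Cw_ab_inf {a b : K} (w : K →₀ ℚ) :
    Cw Ψ (aff a) (aff b) inf w =
      3 * Ψ (Finsupp.single a 1) (Finsupp.single a 1) (Finsupp.single b 1) w := by
  simp only [Cw, LinearMap.smul_apply, smul_eq_mul, E_aff, E_inf', sub_zero]

lemma hg (a : K) : br (aff a) (inf : K × K) ≠ 0 := by
  rw [br_aff_inf]; exact neg_ne_zero.2 one_ne_zero

lemma lam_eq {a b : K} (hab : a ≠ b) (x : K) :
    lam Ψ a b x = - L Ψ (aff a) inf (aff b) x := by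
  have h1 : br (aff a) (aff b) ≠ 0 := by rw [br_aff]; exact sub_ne_zero.2 hab
  have h2 := S.hg a
  have h3 := br_ne_comm (S.hg b)
  rw [← S.L_inv h2 h1 h3]
  have e : L Ψ (aff a) inf (aff b) x⁻¹ =
      Cw Ψ (aff a) inf (aff b) (E (aff (a + (b - a) / x)) - E (aff a)) := by
    refine S.L_at h2 h3 (br_ne_comm (S.hg _)) ?_
    rw [br_aff, br_aff, br_swap (aff _) inf, br_aff_inf, br_swap (aff _) inf, br_aff_inf]
    ring
  rw [e, S.Cw_swap23 h1 h2 (S.hg b), S.Cw_ab_inf, E_aff, E_aff, lam]

lemma L_P {a b : K} : L Ψ (aff a) inf (aff b) =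
    L Ψ (aff a) inf (P (aff a) inf (b - a)) := by
  rw [P_aff]; congr 2; ring

/-- (i) the function `λ_ab` is alternating -/
theorem lam_altf {a b : K} (hab : a ≠ b) : Altf (lam Ψ a b) := by
  have h1 : br (aff a) (aff b) ≠ 0 := by rw [br_aff]; exact sub_ne_zero.2 hab
  have h := S.altf (S.hg a) h1 (br_ne_comm (S.hg b))
  constructor
  · intro x; rw [S.lam_eq hab, S.lam_eq hab, h.inv]
  · intro x; rw [S.lam_eq hab, S.lam_eq hab, h.sub]

/-- (i) the function `λ_ab` satisfies the five-term relation -/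
theorem lam_five {a b : K} (hab : a ≠ b) {u w : K} (hu0 : u ≠ 0) (hu1 : u ≠ 1) (hw0 : w ≠ 0)
    (hw1 : w ≠ 1) (huw : u ≠ w) :
    lam Ψ a b (u / w) - lam Ψ a b ((u - 1) / (w - 1)) +
      lam Ψ a b ((u - 1) * w / (u * (w - 1))) - lam Ψ a b u + lam Ψ a b w = 0 := by
  have hG : Gp w u := ⟨hw0, sub_ne_zero.2 hw1, hu0, sub_ne_zero.2 hu1, sub_ne_zero.2 huw⟩
  have h := S.N_zero (S.hg a) (sub_ne_zero.2 hab.symm) hG
  rw [N, ← S.L_P, Fl] at h
  simp only [S.lam_eq hab]
  linarith

/-- if `L_abc = 0` then `C(a,b,c; ·) = 0` -/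
lemma Cw_zero {a b c : K × K} (hab : br a b ≠ 0) (hac : br a c ≠ 0) (hbc : br b c ≠ 0)
    (h : ∀ x, L Ψ a b c x = 0) : Cw Ψ a b c = 0 := by
  refine span_E a _ fun r hr => ?_
  by_cases h1 : br b r = 0
  · have e : E r = E b := by
      refine E_eq (r := a) ?_ hab (by rw [br_swap, h1, neg_zero])
      intro h2
      apply hr
      ext
      · have : r.1 * br a b = 0 := by
          have : r.1 * br a b = b.1 * br a r * 1 - a.1 * br b r := by simp only [br]; ring
          rw [this, h1, h2]; ring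
        exact (mul_eq_zero.1 this).resolve_right hab
      · have : r.2 * br a b = 0 := by
          have : r.2 * br a b = b.2 * br a r * 1 - a.2 * br b r := by simp only [br]; ring
          rw [this, h1, h2]; ring
        exact (mul_eq_zero.1 this).resolve_right hab
    rw [e]; exact S.Cw_ab hab hac hbc
  · rw [← S.L_X hab hac hbc h1]; exact h _

/-- (ii) if all `λ_ab` vanish then the functional vanishes -/
theorem eq_zero (h : ∀ a b : K, a ≠ b → ∀ x, lam Ψ a b x = 0) : Ψ = 0 := by
  have hL : ∀ a b : K, a ≠ b → ∀ x, L Ψ (aff a) inf (aff b) x = 0 := by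
    intro a b hab x
    have := S.lam_eq hab x
    rw [h a b hab x] at this
    linarith
  have hC : ∀ a b : K, a ≠ b → Cw Ψ (aff a) (aff b) inf = 0 := by
    intro a b hab
    have h1 : br (aff a) (aff b) ≠ 0 := by rw [br_aff]; exact sub_ne_zero.2 hab
    rw [← S.Cw_swap23 h1 (S.hg a) (S.hg b)]
    exact S.Cw_zero (S.hg a) h1 (br_ne_comm (S.hg b)) (hL a b hab)
  have hC3 : ∀ a b c : K, a ≠ b → a ≠ c → b ≠ c → Cw Ψ (aff a) (aff b) (aff c) = 0 := by
    intro a b c hab hac hbc
    have h1 : br (aff a) (aff b) ≠ 0 := by rw [br_aff]; exact sub_ne_zero.2 hab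
    have h2 : br (aff a) (aff c) ≠ 0 := by rw [br_aff]; exact sub_ne_zero.2 hac
    have h3 : br (aff b) (aff c) ≠ 0 := by rw [br_aff]; exact sub_ne_zero.2 hbc
    refine S.Cw_zero h1 h2 h3 fun x => ?_
    have hD := S.Dl_zero (S.hg a) (b := b - a) (c := c - a) (sub_ne_zero.2 hab.symm)
      (sub_ne_zero.2 hac.symm) (by
        have : c - a - (b - a) = c - b := by ring
        rw [this]; exact sub_ne_zero.2 hbc.symm) x
    rw [P_aff, P_aff] at hD
    have e1 : a + (b - a) = b := by ring
    have e2 : a + (c - a) = c := by ring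
    rw [e1, e2, Dl, hL a b hab, hL a c hac,
      S.L_swap12 (S.hg b) h3 (br_ne_comm (S.hg c)), hL b c hbc] at hD
    linarith
  have hC' : ∀ a b : K, a ≠ b → ∀ w, Ψ (Finsupp.single a 1) (Finsupp.single a 1)
      (Finsupp.single b 1) w = 0 := by
    intro a b hab w
    have h1 := S.Cw_ab_inf (a := a) (b := b) w
    rw [hC a b hab, LinearMap.zero_apply] at h1
    linarith
  have h0 : ∀ a : K, ∀ w, Ψ (Finsupp.single a 1) (Finsupp.single a 1)
      (Finsupp.single a 1) w = 0 := by
    intro a w
    have := S.cube (S.hg a) w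
    simpa using this
  have h3 : ∀ a b c : K, ∀ w, Ψ (Finsupp.single a 1) (Finsupp.single b 1)
      (Finsupp.single c 1) w = 0 := by
    intro a b c w
    by_cases hab : a = b
    · subst hab
      by_cases hac : a = c
      · subst hac; exact h0 _ _
      · exact hC' a c hac w
    by_cases hac : a = c
    · subst hac
      rw [S.s23]; exact hC' a b hab w
    by_cases hbc : b = c
    · subst hbc
      rw [S.s12, S.s23]; exact hC' b a (Ne.symm hab) w
    have h1 : br (aff a) (aff b) ≠ 0 := by rw [br_aff]; exact sub_ne_zero.2 hab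
    have h2 : br (aff a) (aff c) ≠ 0 := by rw [br_aff]; exact sub_ne_zero.2 hac
    have h3 : br (aff b) (aff c) ≠ 0 := by rw [br_aff]; exact sub_ne_zero.2 hbc
    have := S.T_eq h1 h2 (S.hg a) h3 (S.hg b) (S.hg c) w
    rw [hC a b hab, hC a c hac, hC b c hbc, hC3 a b c hab hac hbc] at this
    simp only [E_aff, E_inf', sub_zero, LinearMap.zero_apply] at this
    linarith
  refine Finsupp.lhom_ext fun a ra => ?_
  refine Finsupp.lhom_ext fun b rb => ?_
  refine Finsupp.lhom_ext fun c rc => ?_
  refine LinearMap.ext fun w => ?_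
  have ea : Finsupp.single a ra = ra • Finsupp.single a (1 : ℚ) := by simp
  have eb : Finsupp.single b rb = rb • Finsupp.single b (1 : ℚ) := by simp
  have ec : Finsupp.single c rc = rc • Finsupp.single c (1 : ℚ) := by simp
  rw [ea, eb, ec]
  simp only [map_smul, LinearMap.smul_apply, h3, smul_zero, LinearMap.zero_apply]

end Sol

end Helper14.W4
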