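import Pool.Agent.Helper14.W4.Lk2
import Pool.Agent.Helper14.W4.E
import Pool.Agent.Helper14.W4.H5
import Pool.Agent.Helper42.W4.M2

set_option autoImplicit false

/-!
# The leading terms of a cocycle in `B_3 ⊗ Λ^1`, `n = 4`: conclusion
-/

noncomputable section

open Polynomial TensorProduct
open scoped Classical

namespace Helper14.W4

open Helper14.Gon

universe u v w

section
variable {K : Type u} [Field K]

/-! ### the form attached to the functions `λ_ab` -/

/-- the kernel for a pair of points -/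
def kab (Ψ : V4 K) (a b : K) : (K →₀ ℚ) →ₗ[ℚ] (K →₀ ℚ) →ₗ[ℚ] ℚ :=
  if a = b then 0 else kap (lam Ψ a b) a b

/-- the form -/
def KP (Ψ : V4 K) : V4 K :=
  Finsupp.lsum ℚ fun a => LinearMap.toSpanSingleton ℚ _ (Finsupp.lsum ℚ fun b =>
    LinearMap.toSpanSingleton ℚ _ (kab Ψ a b))

lemma KP_single (Ψ : V4 K) (a b : K) :
    KP Ψ (Finsupp.single a 1) (Finsupp.single b 1) = kab Ψ a b := by
  simp [KP]

lemma KP_sum (Ψ : V4 K) {S : Finset K} {p q : K →₀ ℚ} (hp : p.support ⊆ S) (hq : q.support ⊆ S)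
    (r s : K →₀ ℚ) :
    KP Ψ p q r s = ∑ a ∈ S, ∑ b ∈ S, p a * q b * kab Ψ a b r s := by
  have a1 : KP Ψ p q r s = ∑ a ∈ S, p a * KP Ψ (Finsupp.single a 1) q r s := by
    conv_lhs => rw [exp_sum hp]
    simp only [map_sum, map_smul, LinearMap.sum_apply, LinearMap.smul_apply, smul_eq_mul]
  have a2 : ∀ a, KP Ψ (Finsupp.single a 1) q r s =
      ∑ b ∈ S, q b * kab Ψ a b r s := by
    intro a
    conv_lhs => rw [exp_sum hq]
    simp only [map_sum, map_smul, LinearMap.sum_apply, LinearMap.smul_apply, smul_eq_mul, KP_single]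
  rw [a1]
  refine Finset.sum_congr rfl fun a _ => ?_
  rw [a2, Finset.mul_sum]
  refine Finset.sum_congr rfl fun b _ => ?_
  ring

variable {Ψ : V4 K} (S : Sol Ψ)

include S in
lemma lam_swap {a b : K} (hab : a ≠ b) (x : K) : lam Ψ b a x = - lam Ψ a b x := by
  have h1 : br (aff a) (aff b) ≠ 0 := by rw [br_aff]; exact sub_ne_zero.2 hab
  rw [S.lam_eq hab, S.lam_eq hab.symm, S.L_swap13 (S.hg a) h1 (br_ne_comm (S.hg b))]

include S in
lemma lam_Five {a b : K} (hab : a ≠ b) : Five (lam Ψ a b) where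
  inv := (S.lam_altf hab).inv
  sub := (S.lam_altf hab).sub
  five _ _ hu0 hu1 hw0 hw1 huw := S.lam_five hab hu0 hu1 hw0 hw1 huw

include S in
lemma kab_self (a b : K) (r : K →₀ ℚ) : kab Ψ a b r r = 0 := by
  rw [kab]
  split_ifs with h
  · rfl
  · exact kap_self (lam_Five S h) a b r

/-- bilinear forms on divisors -/
lemma bil_ext {f g : (K →₀ ℚ) →ₗ[ℚ] (K →₀ ℚ) →ₗ[ℚ] ℚ}
    (h : ∀ p q : K, f (Finsupp.single p 1) (Finsupp.single q 1) =
      g (Finsupp.single p 1) (Finsupp.single q 1)) : f = g := by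
  refine Finsupp.lhom_ext fun a ra => ?_
  refine Finsupp.lhom_ext fun b rb => ?_
  have ea : Finsupp.single a ra = ra • Finsupp.single a (1 : ℚ) := by simp
  have eb : Finsupp.single b rb = rb • Finsupp.single b (1 : ℚ) := by simp
  rw [ea, eb]
  simp only [map_smul, LinearMap.smul_apply, h]

include S in
lemma kab_symm (a b : K) : kab Ψ a b = kab Ψ b a := by
  by_cases h : a = b
  · subst h; rfl
  · rw [kab, kab, if_neg h, if_neg (Ne.symm h)]
    refine bil_ext fun p q => ?_
    rw [kap_single, kap_single, lam_swap S h, lam_swap S h]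
    ring

include S in
lemma KP_SA : SA (KP Ψ) where
  sym p q r s := by
    rw [KP_sum Ψ (S := p.support ∪ q.support) Finset.subset_union_left Finset.subset_union_right,
      KP_sum Ψ (S := p.support ∪ q.support) Finset.subset_union_right Finset.subset_union_left,
      Finset.sum_comm]
    refine Finset.sum_congr rfl fun a _ => Finset.sum_congr rfl fun b _ => ?_
    rw [kab_symm S b a]; ring
  alt p q r := by
    rw [KP_sum Ψ (S := p.support ∪ q.support) Finset.subset_union_left Finset.subset_union_right]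
    refine Finset.sum_eq_zero fun a _ => Finset.sum_eq_zero fun b _ => ?_
    rw [kab_self S, mul_zero]

include S in
/-- reciprocity for a pair of points -/
lemma kab_dv [IsAlgClosed K] {a b : K} (hab : a ≠ b) (f : RatFunc K) :
    kab Ψ a b (dv (lg (1 - f))) (dv (lg f)) =
      lP (lam Ψ a b) (spec a (some f)) - lP (lam Ψ a b) (spec b (some f)) := by
  rw [kab, if_neg hab]
  exact kap_dv (lam_Five S hab) a b f

lemma lP_spec_zero {l : K → ℚ} (hl : l 0 = 0) {a : K} {f : RatFunc K} (h : dv (lg f) a ≠ 0) :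
    lP l (spec a (some f)) = 0 := by
  rcases hs : spec a (some f) with _ | y
  · rfl
  · by_cases hy : y = 0
    · subst hy; exact hl
    · rw [dv_lg, dvR_of_spec hs hy] at h
      exact absurd rfl h

include S in
lemma KP_KF [IsAlgClosed K] : KF (KP Ψ) := by
  intro f _ _
  rw [KP_sum Ψ (S := (dv (lg f)).support) (le_refl _) (le_refl _)]
  refine Finset.sum_eq_zero fun a ha => Finset.sum_eq_zero fun b hb => ?_
  by_cases hab : a = b
  · subst hab
    rw [kab, if_pos rfl]; simp
  · have h0 := (lam_Five S hab).zero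
    rw [kab_dv S hab, lP_spec_zero h0 (Finsupp.mem_support_iff.1 ha),
      lP_spec_zero h0 (Finsupp.mem_support_iff.1 hb)]
    ring

include S in
/-- comparison of the functions `λ_ab` -/
lemma lam_Pol_KP {a b : K} (hab : a ≠ b) (x : K) :
    lam (Pol (KP Ψ)) a b x = -2 * lam Ψ a b x := by
  have e1 : kab Ψ a a = 0 := by rw [kab, if_pos rfl]
  have hF := lam_Five S hab
  have e2 : kab Ψ a b = kap (lam Ψ a b) a b := by rw [kab, if_neg hab]
  rw [lam, Pol_apply, KP_single, KP_single, e1, e2]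
  simp only [map_sub, LinearMap.sub_apply]
  set y := Finsupp.single (a + (b - a) / x) (1 : ℚ) with hy
  have e3 : KP Ψ (Finsupp.single a 1) (Finsupp.single b 1) = kap (lam Ψ a b) a b := by
    rw [KP_single, e2]
  have k1 : kap (lam Ψ a b) a b y (Finsupp.single a 1) = - lam Ψ a b x := by
    rw [hy, kap_single]
    by_cases hx : x = 0
    · subst hx
      rw [div_zero, add_zero, sub_self, div_zero, div_zero, hF.zero]; ring
    · have : (b - a) / (a + (b - a) / x - a) = x := by
        have hba : b - a ≠ 0 := sub_ne_zero.2 hab.symm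
        have : a + (b - a) / x - a = (b - a) / x := by ring
        rw [this]; field_simp
      rw [this, sub_self, zero_div, hF.zero]; ring
  have k2 : kap (lam Ψ a b) a b (Finsupp.single a 1) (Finsupp.single a 1) = 0 :=
    kap_self hF a b _
  rw [k1, k2]
  simp only [LinearMap.zero_apply]
  ring

include S in
lemma Pol_KP [IsAlgClosed K] (u v w y : K →₀ ℚ) :
    Pol (KP Ψ) u v w y = -2 * Ψ u v w y := by
  have S' := sol_Pol (KP_SA S) (KP_KF S)
  have S2 : Sol (Pol (KP Ψ) + (2 : ℚ) • Ψ) := by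
    constructor
    · intro u v w y
      simp only [LinearMap.add_apply, LinearMap.smul_apply]; rw [S.s12, S'.s12]
    · intro u v w y
      simp only [LinearMap.add_apply, LinearMap.smul_apply]; rw [S.s23, S'.s23]
    · intro u
      simp only [LinearMap.add_apply, LinearMap.smul_apply]; rw [S.diag, S'.diag]; simp
    · intro p q r h1 h2 h3
      simp only [LinearMap.add_apply, LinearMap.smul_apply]
      rw [S.H1 p q r h1 h2 h3, S'.H1 p q r h1 h2 h3]; simp
    · intro a b c d e h1 h2 h3 h4 h5 h6 h7 h8 h9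
      simp only [LinearMap.add_apply, LinearMap.smul_apply]
      rw [S.H2 a b c d e h1 h2 h3 h4 h5 h6 h7 h8 h9, S'.H2 a b c d e h1 h2 h3 h4 h5 h6 h7 h8 h9]
      simp
  have h0 := S2.eq_zero fun a b hab x => by
    have h1 := lam_Pol_KP S hab x
    have h2 : lam (Pol (KP Ψ) + (2 : ℚ) • Ψ) a b x =
        lam (Pol (KP Ψ)) a b x + 2 * lam Ψ a b x := by
      simp only [lam, LinearMap.add_apply, LinearMap.smul_apply, smul_eq_mul]; ring
    rw [h2, h1]; ring
  have h1 := congrArg (fun T : V4 K => T u v w y) h0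
  simp only [LinearMap.add_apply, LinearMap.smul_apply, smul_eq_mul, LinearMap.zero_apply] at h1
  linarith

/-! ### the functional on `B_2(K)` -/

/-- the isomorphism `Λ^0 ⊗ ℚ → ℚ` -/
def e0 (F : Type u) [Field F] : Tx 0 F →ₗ[ℚ] ℚ :=
  LinearMap.liftBaseChange ℚ
    ((Int.castAddHom ℚ).toIntLinearMap ∘ₗ (exteriorPower.zeroEquiv ℤ (Additive Fˣ)).toLinearMap)

/-- the unit -/
def u0 (F : Type u) [Field F] : Tx 0 F := dm (fun i => i.elim0)

lemma e0_dm {F : Type u} [Field F] (v : Fin 0 → Additive Fˣ) : e0 F (dm v) = 1 := by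
  simp only [e0, dm, toQ]
  rw [LinearMap.liftBaseChange_one_tmul, LinearMap.comp_apply]
  change ((Int.castAddHom ℚ) (exteriorPower.zeroEquiv ℤ (Additive Fˣ)
    (exteriorPower.ιMulti ℤ 0 v))) = 1
  rw [exteriorPower.zeroEquiv_ιMulti]; simp

lemma e0_inj {F : Type u} [Field F] (ω : Tx 0 F) : e0 F ω • u0 F = ω := by
  have : (LinearMap.toSpanSingleton ℚ (Tx 0 F) (u0 F)) ∘ₗ (e0 F) = LinearMap.id := by
    refine Tx_ext fun v => ?_
    change e0 F (dm v) • u0 F = dm v
    rw [e0_dm, one_smul, u0]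
    congr 1
    funext i
    exact i.elim0
  exact LinearMap.congr_fun this ω

/-- the functional on `B_2(K)` given by a five-term functional -/
def lamC [IsAlgClosed K] {l : K → ℚ} (h : Five l) : Cx 2 0 K →ₗ[ℚ] ℚ :=
  liftC (QuotientAddGroup.lift (R 2 K)
    (AddMonoidHom.mk' (fun α => ext (lP l) α • e0 K) (fun a b => by rw [map_add, add_smul]))
    (by
      intro β hβ
      change ext (lP l) β • e0 K = 0
      rw [h.kill hβ, zero_smul]))

lemma lamC_PB [IsAlgClosed K] {l : K → ℚ} (h : Five l) (x : P1 K) (ω : Tx 0 K) :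
    lamC h (PB 2 0 (cl 2 x) ω) = lP l x * e0 K ω := by
  rw [lamC, liftC_PB]
  change ext (lP l) (Helper14.Gon.br x) • e0 K ω = _
  rw [ext_br, smul_eq_mul]

/-! ### representations and leading terms -/

/-- the element `{x} ⊗ g` -/
def GG {F : Type u} [Field F] (k : ℕ) (x : P1 F) (g : Additive Fˣ) : Cx k 1 F :=
  PB k 1 (cl k x) (wT 0 g (u0 F))

lemma exists_GG {F : Type u} [Field F] (k : ℕ) (z : Cx k 1 F) :
    ∃ ζ : (P1 F × Additive Fˣ) →₀ ℚ, z = ∑ i ∈ ζ.support, ζ i • GG k i.1 i.2 := by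
  have h : z ∈ LinearMap.range (Finsupp.linearCombination ℚ
      (fun i : P1 F × Additive Fˣ => GG k i.1 i.2)) := by
    set P := LinearMap.range (Finsupp.linearCombination ℚ
      (fun i : P1 F × Additive Fˣ => GG k i.1 i.2)) with hP
    induction z using Cx_ind with
    | h0 => exact zero_mem _
    | hadd a b ha hb => exact add_mem ha hb
    | h1 x ω =>
      induction ω using Tx_ind with
      | h0 => rw [map_zero]; exact zero_mem _
      | hadd a b ha hb => rw [map_add]; exact add_mem ha hb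
      | h1 v ω =>
        rw [← e0_inj ω, map_smul, map_smul]
        refine Submodule.smul_mem _ _ ?_
        exact ⟨Finsupp.single (x, v) 1, by
          rw [Finsupp.linearCombination_single, one_smul]; rfl⟩
  obtain ⟨ζ, hζ⟩ := h
  exact ⟨ζ, hζ.symm⟩

/-- the double residues -/
def bet (a b : K) : Cx 3 1 (RatFunc K) →ₗ[ℚ] Cx 2 0 (RatFunc K) :=
  (ld 0 0 (va b)) ∘ₗ (ct 3 0 (va a))

/-- the array of leading coefficients of the double residues -/
def mm : Cx 3 1 (RatFunc K) →ₗ[ℚ] Arr K :=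
  LinearMap.pi fun t => (e0 (RatFunc K)) ∘ₗ (ll 0 (va t.2.2.1) (va t.2.2.2)) ∘ₗ (bet t.1 t.2.1)

lemma bet_GG (a b : K) (x : P1 (RatFunc K)) (g : Additive (RatFunc K)ˣ) :
    bet a b (GG 3 x g) = (va a g * va b (lgP x)) • PB 2 0 (cl 2 x) (u0 _) := by
  rw [bet, LinearMap.comp_apply, GG, ct_PB, ctT_wT_zero, map_smul, map_smul, ld_PB, smul_smul]

lemma mm_GG (x : P1 (RatFunc K)) (g : Additive (RatFunc K)ˣ) :
    mm (GG 3 x g) = arr (dv g) (dv (lgP x)) (dv (l1P x)) (dv (lgP x)) := by
  funext t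
  change e0 _ (ll 0 (va t.2.2.1) (va t.2.2.2) (bet t.1 t.2.1 (GG 3 x g))) = _
  rw [bet_GG, map_smul, ll_PB, map_smul, map_smul, u0, e0_dm, smul_eq_mul, smul_eq_mul, arr]
  simp only [va, co_apply]
  ring

lemma mm_symm {z : Cx 3 1 (RatFunc K)} (hz : dC 0 1 z = 0) (a b c d : K) :
    mm z (a, b, c, d) = mm z (b, a, c, d) := by
  change e0 _ (ll 0 (va c) (va d) (bet a b z)) = e0 _ (ll 0 (va c) (va d) (bet b a z))
  have : bet a b z = bet b a z := cyc_symm 0 z hz a b
  rw [this]

lemma mm_dC (x : P1 (RatFunc K)) :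
    mm (dC 1 0 (PB 4 0 (cl 4 x) (u0 _))) =
      arr (dv (lgP x)) (dv (lgP x)) (dv (l1P x)) (dv (lgP x)) := by
  have : dC 1 0 (PB 4 0 (cl 4 x) (u0 (RatFunc K))) = GG 3 x (lgP x) := dC_PB 1 0 x _
  rw [this, mm_GG]

/-- the relation from the specialisations of the double residues -/
lemma rel_spec [IsAlgClosed K] {l : K → ℚ} (hl : Five l) {z : Cx 3 1 (RatFunc K)}
    (hz : dC 0 1 z = 0) {ι : Type v} (I : Finset ι) (r : ι → ℚ) (x : ι → P1 (RatFunc K))
    (g : ι → Additive (RatFunc K)ˣ) (hzs : z = ∑ i ∈ I, r i • GG 3 (x i) (g i)) (a b : K) :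
    ∑ i ∈ I, r i * (va a (g i) * va b (lgP (x i)) *
      kap l a b (dv (l1P (x i))) (dv (lgP (x i)))) = 0 := by
  have hb : bet a b z = ∑ i ∈ I, (r i * (va a (g i) * va b (lgP (x i)))) •
      PB 2 0 (cl 2 (x i)) (u0 _) := by
    rw [hzs, map_sum]
    refine Finset.sum_congr rfl fun i _ => ?_
    rw [map_smul, bet_GG, smul_smul]
  have hs : ∀ c : K, sC c 0 0 (bet a b z) =
      ∑ i ∈ I, (r i * (va a (g i) * va b (lgP (x i)))) • PB 2 0 (cl 2 (spec c (x i))) (u0 _) := by
    intro c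
    rw [hb, map_sum]
    refine Finset.sum_congr rfl fun i _ => ?_
    have e : sC c 0 0 (PB 2 0 (cl 2 (x i)) (u0 (RatFunc K))) =
      PB 2 0 (cl 2 (spec c (x i))) (sT c 0 (u0 (RatFunc K))) := sC_PB c 0 0 (x i) _
    rw [map_smul, e]
    congr 2
    rw [u0, sT_dm, u0]
    congr 1
    funext i
    exact i.elim0
  have z2 : sC b 0 0 (bet a b z) = 0 := sC_ld b 0 0 _
  have z1 : sC a 0 0 (bet a b z) = 0 := by
    have : bet a b z = bet b a z := cyc_symm 0 z hz a b
    rw [this]; exact sC_ld a 0 0 _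
  have f1 := congrArg (lamC hl) z1
  have f2 := congrArg (lamC hl) z2
  rw [map_zero, hs, map_sum] at f1 f2
  have f3 := congrArg₂ (· - ·) f1 f2
  simp only [sub_zero] at f3
  rw [← Finset.sum_sub_distrib] at f3
  rw [← f3]
  refine Finset.sum_congr rfl fun i _ => ?_
  rw [map_smul, map_smul, lamC_PB, lamC_PB, u0, e0_dm, smul_eq_mul, smul_eq_mul]
  rcases hx : x i with _ | f
  · simp [l1P]
  · have := kap_dv hl a b f
    change r i * (_ * _ * kap l a b (dv (lg (1 - f))) (dv (lg f))) = _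
    rw [this]
    ring

lemma l1P_some {F : Type u} [Field F] (x : F) : l1P (some x) = lg (1 - x) := rfl

end

end Helper14.W4
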