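import Pool.Agent.Helper14.W4.H6
import Pool.Agent.Helper14.W4.Lk3

set_option autoImplicit false

/-!
# Localisation for `n = 3`, `i = 2`
-/

noncomputable section

open Polynomial TensorProduct
open scoped Classical

namespace Helper14.W4

open Helper14.Gon

universe u v w

section
variable {K : Type u} [Field K]

/-! ### trilinear maps killing functions -/

lemma fs_ind (P : (K →₀ ℚ) → Prop) (h0 : P 0) (hadd : ∀ a b, P a → P b → P (a + b))
    (hs : ∀ (c : ℚ) a, P a → P (c • a)) (h1 : ∀ a, P (Finsupp.single a 1)) (p : K →₀ ℚ) : P p := by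
  induction p using Finsupp.induction_linear with
  | zero => exact h0
  | add f g hf hg => exact hadd f g hf hg
  | single a c =>
    have : Finsupp.single a c = c • Finsupp.single a (1 : ℚ) := by simp
    rw [this]; exact hs c _ (h1 a)

variable {N : Type v} [AddCommGroup N] [Module ℚ N]

variable (K N) in
/-- trilinear maps -/
abbrev V3 : Type (max u v) := (K →₀ ℚ) →ₗ[ℚ] (K →₀ ℚ) →ₗ[ℚ] (K →₀ ℚ) →ₗ[ℚ] N

lemma tri_poly {T : V3 K N} (h : ∀ f : RatFunc K, f ≠ 0 → 1 - f ≠ 0 →
      T (dv (lg f)) (dv (lg (1 - f))) (dv (lg f)) = 0) {A B C : K[X]} (hA : A ≠ 0) (hB : B ≠ 0)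
    (hC : C ≠ 0) (e : A + B = C) :
    T (dvP A - dvP C) (dvP B - dvP C) (dvP A - dvP C) = 0 := by
  have hA' := RatFunc.algebraMap_ne_zero (K := K) hA
  have hB' := RatFunc.algebraMap_ne_zero (K := K) hB
  have hC' := RatFunc.algebraMap_ne_zero (K := K) hC
  set f : RatFunc K := algebraMap K[X] (RatFunc K) A / algebraMap K[X] (RatFunc K) C with hf
  have e1 : 1 - f = algebraMap K[X] (RatFunc K) B / algebraMap K[X] (RatFunc K) C := by
    rw [hf, ← e] at *
    rw [map_add] at *
    field_simp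
    ring
  have := h f (div_ne_zero hA' hC') (by rw [e1]; exact div_ne_zero hB' hC')
  rwa [e1, dv_frac hB hC, hf, dv_frac hA hC] at this

/-- trilinear maps killing functions are totally alternating -/
theorem tri_alt {T : V3 K N} (halt : ∀ p r, T p r r = 0) (h : ∀ f : RatFunc K, f ≠ 0 → 1 - f ≠ 0 →
      T (dv (lg f)) (dv (lg (1 - f))) (dv (lg f)) = 0) (p r q : K →₀ ℚ) :
    T p r q = - T q r p := by
  have anti : ∀ p r s, T p r s = - T p s r := by
    intro p r s
    have h1 := halt p (r + s)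
    simp only [map_add, LinearMap.add_apply, halt, zero_add, add_zero] at h1
    exact eq_neg_of_add_eq_zero_right h1
  have hm1 : (-1 : K) ≠ 0 := neg_ne_zero.2 one_ne_zero
  have aff : ∀ p r : K, T (Finsupp.single p 1) (Finsupp.single r 1) (Finsupp.single p 1) = 0 := by
    intro p r
    by_cases hpr : p = r
    · subst hpr; exact halt _ _
    · have h1 : (C (-1 : K)) * (Polynomial.X - C r) ≠ 0 :=
        mul_ne_zero (C_ne_zero.2 hm1) (X_sub_C_ne_zero r)
      have h2 : (C (r - p) : K[X]) ≠ 0 := C_ne_zero.2 (sub_ne_zero.2 (Ne.symm hpr))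
      have := tri_poly h (X_sub_C_ne_zero p) h1 h2 (by simp only [C_sub, C_neg, C_1]; ring)
      rwa [dvP_mul (C_ne_zero.2 hm1) (X_sub_C_ne_zero r), dvP_C, dvP_C, dvP_X_sub_C, dvP_X_sub_C,
        sub_zero, zero_add, sub_zero] at this
  have base : ∀ p r q : K, T (Finsupp.single p 1) (Finsupp.single r 1) (Finsupp.single q 1) +
      T (Finsupp.single q 1) (Finsupp.single r 1) (Finsupp.single p 1) = 0 := by
    intro p r q
    by_cases hpq : p = q
    · subst hpq; rw [aff, add_zero]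
    by_cases hpr : p = r
    · subst hpr; rw [halt, add_zero, anti, aff, neg_zero]
    by_cases hqr : q = r
    · subst hqr; rw [halt, zero_add, anti, aff, neg_zero]
    have k1 : (C (r - q) : K[X]) ≠ 0 := C_ne_zero.2 (sub_ne_zero.2 (Ne.symm hqr))
    have k2 : (C (q - p) : K[X]) ≠ 0 := C_ne_zero.2 (sub_ne_zero.2 (Ne.symm hpq))
    have k3 : (C (r - p) : K[X]) ≠ 0 := C_ne_zero.2 (sub_ne_zero.2 (Ne.symm hpr))
    have := tri_poly h (mul_ne_zero k1 (X_sub_C_ne_zero p)) (mul_ne_zero k2 (X_sub_C_ne_zero r))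
      (mul_ne_zero k3 (X_sub_C_ne_zero q)) (by simp only [C_sub]; ring)
    rw [dvP_mul k1 (X_sub_C_ne_zero p), dvP_mul k2 (X_sub_C_ne_zero r),
      dvP_mul k3 (X_sub_C_ne_zero q), dvP_C, dvP_C, dvP_C, zero_add, zero_add, zero_add,
      dvP_X_sub_C, dvP_X_sub_C, dvP_X_sub_C] at this
    simp only [map_sub, LinearMap.sub_apply, aff, halt] at this
    have e2 := anti (Finsupp.single p 1) (Finsupp.single q 1) (Finsupp.single p 1)
    have e3 := anti (Finsupp.single q 1) (Finsupp.single q 1) (Finsupp.single p 1)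
    rw [aff] at e2 e3
    rw [e3] at this
    rw [← neg_eq_zero]
    rw [← this]
    abel
  have all : ∀ p r q : K →₀ ℚ, T p r q + T q r p = 0 := by
    intro p r q
    refine fs_ind (fun p => T p r q + T q r p = 0) ?_ ?_ ?_ ?_ p
    · simp
    · intro a b ha hb
      simp only [map_add, LinearMap.add_apply]
      rw [add_add_add_comm, ha, hb, add_zero]
    · intro c a ha
      simp only [map_smul, LinearMap.smul_apply]
      rw [← smul_add, ha, smul_zero]
    · intro a
      refine fs_ind (fun r => T (Finsupp.single a 1) r q + T q r (Finsupp.single a 1) = 0)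
        ?_ ?_ ?_ ?_ r
      · simp
      · intro x y hx hy
        simp only [map_add, LinearMap.add_apply]
        rw [add_add_add_comm, hx, hy, add_zero]
      · intro c x hx
        simp only [map_smul, LinearMap.smul_apply]
        rw [← smul_add, hx, smul_zero]
      · intro b
        refine fs_ind (fun q => T (Finsupp.single a 1) (Finsupp.single b 1) q +
          T q (Finsupp.single b 1) (Finsupp.single a 1) = 0) ?_ ?_ ?_ ?_ q
        · simp
        · intro x y hx hy
          simp only [map_add, LinearMap.add_apply]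
          rw [add_add_add_comm, hx, hy, add_zero]
        · intro c x hx
          simp only [map_smul, LinearMap.smul_apply]
          rw [← smul_add, hx, smul_zero]
        · intro c
          exact base a b c
  exact eq_neg_of_add_eq_zero_left (all p r q)

/-! ### arrays -/

/-- the array of `p ⊗ (r ∧ s) ⊗ m` -/
def arr3 {M : Type w} [AddCommGroup M] [Module ℚ M] (m : M) (p r s : K →₀ ℚ) : K × K × K → M :=
  fun t => (p t.1 * (r t.2.1 * s t.2.2 - r t.2.2 * s t.2.1)) • m

/-- the trilinear map given by a linear map on arrays -/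
def Phi3 {M : Type w} [AddCommGroup M] [Module ℚ M] (m : M) (Λ : (K × K × K → M) →ₗ[ℚ] N) :
    V3 K N where
  toFun p :=
    { toFun := fun r =>
        { toFun := fun s => Λ (arr3 m p r s)
          map_add' := fun s s' => by
            rw [← map_add]; congr 1; funext t; simp only [arr3, Pi.add_apply, Finsupp.add_apply]
            rw [← add_smul]; congr 1; ring
          map_smul' := fun c s => by
            rw [← map_smul]; congr 1; funext t
            simp only [arr3, Pi.smul_apply, Finsupp.smul_apply, RingHom.id_apply, smul_smul,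
              smul_eq_mul]
            congr 1; ring }
      map_add' := fun r r' => by
        ext s
        change Λ (arr3 m p (r + r') _) = Λ (arr3 m p r _) + Λ (arr3 m p r' _)
        rw [← map_add]; congr 1; funext t; simp only [arr3, Pi.add_apply, Finsupp.add_apply]
        rw [← add_smul]; congr 1; ring
      map_smul' := fun c r => by
        ext s
        change Λ (arr3 m p (c • r) _) = c • Λ (arr3 m p r _)
        rw [← map_smul]; congr 1; funext t
        simp only [arr3, Pi.smul_apply, Finsupp.smul_apply, smul_smul, smul_eq_mul]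
        congr 1; ring }
  map_add' p p' := by
    ext r s
    change Λ (arr3 m (p + p') _ _) = Λ (arr3 m p _ _) + Λ (arr3 m p' _ _)
    rw [← map_add]; congr 1; funext t; simp only [arr3, Pi.add_apply, Finsupp.add_apply]
    rw [← add_smul]; congr 1; ring
  map_smul' c p := by
    ext r s
    change Λ (arr3 m (c • p) _ _) = c • Λ (arr3 m p _ _)
    rw [← map_smul]; congr 1; funext t
    simp only [arr3, Pi.smul_apply, Finsupp.smul_apply, smul_smul, smul_eq_mul]
    congr 1; ring

lemma Phi3_apply {M : Type w} [AddCommGroup M] [Module ℚ M] (m : M)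
    (Λ : (K × K × K → M) →ₗ[ℚ] N) (p r s : K →₀ ℚ) : Phi3 m Λ p r s = Λ (arr3 m p r s) := rfl

lemma arr3_alt {M : Type w} [AddCommGroup M] [Module ℚ M] (m : M) (p r : K →₀ ℚ) :
    arr3 m p r r = 0 := by
  funext t; simp only [arr3, Pi.zero_apply]
  rw [mul_comm (r t.2.1), sub_self, mul_zero, zero_smul]

/-- `arr3 p r s + arr3 r s p + arr3 s p r` is the cyclic sum of `arr3 p r s` -/
lemma arr3_cyc {M : Type w} [AddCommGroup M] [Module ℚ M] (m : M) (p r s : K →₀ ℚ) :
    arr3 m p r s + arr3 m r s p + arr3 m s p r = fun t =>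
      arr3 m p r s t + arr3 m p r s (t.2.1, t.2.2, t.1) + arr3 m p r s (t.2.2, t.1, t.2.1) := by
  funext t
  simp only [arr3, Pi.add_apply, ← add_smul]
  congr 1; ring

/-- values of totally alternating maps killing functions -/
lemma Phi3_three {M : Type w} [AddCommGroup M] [Module ℚ M] (m : M)
    (Λ : (K × K × K → M) →ₗ[ℚ] N) (h : ∀ f : RatFunc K, f ≠ 0 → 1 - f ≠ 0 →
      Λ (arr3 m (dv (lg f)) (dv (lg (1 - f))) (dv (lg f))) = 0) (p r s : K →₀ ℚ) :
    (3 : ℚ) • Λ (arr3 m p r s) = Λ (fun t =>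
      arr3 m p r s t + arr3 m p r s (t.2.1, t.2.2, t.1) + arr3 m p r s (t.2.2, t.1, t.2.1)) := by
  have halt : ∀ p r, Phi3 m Λ p r r = 0 := fun p r => by
    rw [Phi3_apply, arr3_alt, map_zero]
  have key := tri_alt halt h
  have anti : ∀ p r s, Phi3 m Λ p r s = - Phi3 m Λ p s r := by
    intro p r s
    have h1 := halt p (r + s)
    simp only [map_add, LinearMap.add_apply, halt, zero_add, add_zero] at h1
    exact eq_neg_of_add_eq_zero_right h1
  rw [← arr3_cyc, map_add, map_add, ← Phi3_apply, ← Phi3_apply, ← Phi3_apply]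
  have e1 : Phi3 m Λ r s p = Phi3 m Λ p r s := by
    rw [key r s p, anti p s r, neg_neg]
  have e2 : Phi3 m Λ s p r = Phi3 m Λ p r s := by
    rw [anti s p r, key s r p, neg_neg]
  rw [e1, e2]
  module

/-! ### the leading terms, `n = 3` -/

/-- the array of leading coefficients of the residues -/
def mm3 : Cx 2 1 (RatFunc K) →ₗ[ℚ] (K × K × K → ℚ) :=
  LinearMap.pi fun t => (e0 (RatFunc K)) ∘ₗ (ll 0 (va t.2.1) (va t.2.2)) ∘ₗ (ct 2 0 (va t.1))

lemma mm3_GG (x : P1 (RatFunc K)) (g : Additive (RatFunc K)ˣ) :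
    mm3 (GG 2 x g) = arr3 (1 : ℚ) (dv g) (dv (l1P x)) (dv (lgP x)) := by
  funext t
  change e0 _ (ll 0 (va t.2.1) (va t.2.2) (ct 2 0 (va t.1) (GG 2 x g))) = _
  rw [GG, ct_PB, ctT_wT_zero, map_smul, map_smul, ll_PB, map_smul, map_smul, u0, e0_dm,
    smul_eq_mul, smul_eq_mul, arr3, smul_eq_mul]
  simp only [va, co_apply]
  ring

lemma ll_anti {F : Type u} [Field F] (j : ℕ) (θ η : Additive Fˣ →+ ℚ) (z : Cx 2 j F) :
    ll j θ η z = - ll j η θ z := by
  have : ll j θ η = - ll j η θ := by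
    refine Cx_ext fun x ω => ?_
    rw [LinearMap.neg_apply, ← PB_gen, ll_PB, ll_PB, ← neg_smul]
    congr 1; ring
  rw [this]; rfl

/-- the cyclic sum of the double leading terms of a cocycle -/
lemma ll_cyc {F : Type u} [Field F] (z : Cx 2 1 F) (hz : dT 1 z = 0)
    (θ η ζ : Additive Fˣ →+ ℚ) :
    ll 0 θ η (ct 2 0 ζ z) + ll 0 η ζ (ct 2 0 θ z) + ll 0 ζ θ (ct 2 0 η z) = 0 := by
  have e1 : lt 1 θ z = - dT 0 (ct 2 0 θ z) := by
    have : lt 1 θ z = ctT 2 θ (dT 1 z) - dT 0 (ct 2 0 θ z) := rfl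
    rw [this, hz, map_zero, zero_sub]
  have e2 : ll 1 θ η z = ctT 1 η (lt 1 θ z) + lt 0 θ (ct 2 0 η z) := rfl
  have e3 : ctT 0 ζ (ctT 1 η (dT 0 (ct 2 0 θ z))) = ll 0 η ζ (ct 2 0 θ z) := rfl
  have e4 : ctT 0 ζ (lt 0 θ (ct 2 0 η z)) = ll 0 θ ζ (ct 2 0 η z) := rfl
  rw [← ctT_ll, e2, e1, map_neg, map_add, map_neg, e3, e4, ll_anti 0 ζ θ]
  abel

lemma mm3_cyc {z : Cx 2 1 (RatFunc K)} (hz : dT 1 z = 0) (a b c : K) :
    mm3 z (a, b, c) + mm3 z (b, c, a) + mm3 z (c, a, b) = 0 := by
  change e0 _ (ll 0 (va b) (va c) (ct 2 0 (va a) z)) +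
    e0 _ (ll 0 (va c) (va a) (ct 2 0 (va b) z)) +
    e0 _ (ll 0 (va a) (va b) (ct 2 0 (va c) z)) = 0
  rw [← map_add, ← map_add, ll_cyc z hz, map_zero]

/-- The leading terms of a cocycle are those of a coboundary. -/
theorem lead3 {z : Cx 2 1 (RatFunc K)} (hz : dT 1 z = 0) :
    ∃ w : Cx 3 0 (RatFunc K), mm3 (dC 0 0 w) = mm3 z := by
  set P := LinearMap.range (mm3 ∘ₗ (dC 0 0 : Cx 3 0 (RatFunc K) →ₗ[ℚ] _)) with hP
  suffices h : mm3 z ∈ P by
    obtain ⟨w, hw⟩ := h
    exact ⟨w, hw⟩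
  obtain ⟨ζ, hζ⟩ := exists_GG 2 z
  set I := ζ.support with hI
  have hkill : ∀ f : RatFunc K, f ≠ 0 → 1 - f ≠ 0 →
      P.mkQ (arr3 (1 : ℚ) (dv (lg f)) (dv (lg (1 - f))) (dv (lg f))) = 0 := by
    intro f _ _
    rw [Submodule.mkQ_apply, Submodule.Quotient.mk_eq_zero]
    refine ⟨PB 3 0 (cl 3 (some f)) (u0 _), ?_⟩
    have : dC 0 0 (PB 3 0 (cl 3 (some f)) (u0 (RatFunc K))) = GG 2 (some f) (lgP (some f)) :=
      dC_PB 0 0 _ _
    rw [LinearMap.comp_apply, this, mm3_GG, lgP_some, l1P_some]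
  have hmz : mm3 z = ∑ i ∈ I, ζ i • arr3 (1 : ℚ) (dv i.2) (dv (l1P i.1)) (dv (lgP i.1)) := by
    conv_lhs => rw [hζ]
    rw [map_sum]
    refine Finset.sum_congr rfl fun i _ => ?_
    rw [map_smul, mm3_GG]
  have h3 : (3 : ℚ) • P.mkQ (mm3 z) = 0 := by
    have e1 : (3 : ℚ) • P.mkQ (mm3 z) = P.mkQ (fun t => mm3 z t + mm3 z (t.2.1, t.2.2, t.1) +
        mm3 z (t.2.2, t.1, t.2.1)) := by
      rw [hmz, map_sum, Finset.smul_sum]
      rw [Finset.sum_congr rfl fun i _ => by
        rw [map_smul, smul_comm, Phi3_three (1 : ℚ) P.mkQ hkill, ← map_smul]]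
      rw [← map_sum]
      congr 1
      funext t
      simp only [Finset.sum_apply, Pi.smul_apply, smul_add, Finset.sum_add_distrib]
    rw [e1]
    have e2 : (fun t : K × K × K => mm3 z t + mm3 z (t.2.1, t.2.2, t.1) +
        mm3 z (t.2.2, t.1, t.2.1)) = 0 := by
      funext t
      obtain ⟨a, b, c⟩ := t
      exact mm3_cyc hz a b c
    rw [e2, map_zero]
  have h4 := (smul_eq_zero.1 h3).resolve_left (by norm_num)
  rwa [Submodule.mkQ_apply, Submodule.Quotient.mk_eq_zero] at h4

/-- Localisation for `n = 3`, `i = 2`: surjectivity. -/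
theorem surj32 [IsAlgClosed K] (z : Cx 2 1 (RatFunc K)) (hz : dT 1 z = 0) :
    ∃ (z0 : Cx 2 1 K) (s : Finset K) (za : K → Cx 2 0 K) (w : Cx 3 0 (RatFunc K)),
      dT 1 z0 = 0 ∧ (∀ a, dT 0 (za a) = 0) ∧
      z = rC 0 1 z0 + ∑ a ∈ s, wC 2 0 (ee a) (rC 0 0 (za a)) + dC 0 0 w := by
  obtain ⟨w, hw⟩ := lead3 hz
  have hz' : dT 1 (z - dC 0 0 w) = 0 := by
    have := LinearMap.congr_fun (dT_dC 0) w
    rw [LinearMap.comp_apply, LinearMap.zero_apply] at this
    rw [map_sub, hz, this, sub_zero]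
  have hm : mm3 (z - dC 0 0 w) = 0 := by rw [map_sub, hw, sub_self]
  obtain ⟨z0, s, za, h0, ha, h⟩ := decomp2 0 _ hz' (fun a => by
    refine E2 0 _ fun b c => ?_
    have h1 := congrFun hm (a, b, c)
    have h2 : e0 (RatFunc K) (ll 0 (va b) (va c) (ct 2 0 (va a) (z - dC 0 0 w))) = 0 := h1
    have h3 := e0_inj (ll 0 (va b) (va c) (ct 2 0 (va a) (z - dC 0 0 w)))
    rw [h2, zero_smul] at h3
    exact h3.symm)
  exact ⟨z0, s, za, w, h0, ha, by rw [← h]; abel⟩

end

end Helper14.W4
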