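import Mathlib

set_option autoImplicit false

/-!
# Functionals on the hook `S_(3,1)(V)` killing functions of degree at most two: part A

`V` is the space of divisors on `K`; points of `P¹(K)` are given by vectors in `K × K`.
-/

noncomputable section

open scoped Classical

namespace Helper14.W4

variable {K : Type*} [Field K]

/-- the bracket -/
def br (p q : K × K) : K := p.1 * q.2 - p.2 * q.1

/-- the class of the linear form with root `p` -/
def E (p : K × K) : K →₀ ℚ := if p.2 = 0 then 0 else Finsupp.single (p.1 / p.2) 1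

lemma br_self (p : K × K) : br p p = 0 := by simp only [br]; ring
lemma br_swap (p q : K × K) : br q p = -br p q := by simp only [br]; ring
lemma br_smul_left (c : K) (p q : K × K) : br (c • p) q = c * br p q := by
  simp only [br, Prod.smul_fst, Prod.smul_snd, smul_eq_mul]; ring
lemma br_smul_right (c : K) (p q : K × K) : br p (c • q) = c * br p q := by
  simp only [br, Prod.smul_fst, Prod.smul_snd, smul_eq_mul]; ring
lemma br_add_left (p p' q : K × K) : br (p + p') q = br p q + br p' q := by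
  simp only [br, Prod.fst_add, Prod.snd_add]; ring
lemma br_add_right (p q q' : K × K) : br p (q + q') = br p q + br p q' := by
  simp only [br, Prod.fst_add, Prod.snd_add]; ring
lemma br_sub_left (p p' q : K × K) : br (p - p') q = br p q - br p' q := by
  simp only [br, Prod.fst_sub, Prod.snd_sub]; ring
lemma br_sub_right (p q q' : K × K) : br p (q - q') = br p q - br p q' := by
  simp only [br, Prod.fst_sub, Prod.snd_sub]; ring
lemma plucker (a b c d : K × K) :
    br a b * br c d - br a c * br b d + br a d * br b c = 0 := by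
  simp only [br]; ring

lemma br_ne_comm {p q : K × K} (h : br p q ≠ 0) : br q p ≠ 0 := by
  rw [br_swap]; exact neg_ne_zero.2 h

lemma E_inf : E ((1, 0) : K × K) = 0 := by simp [E]
lemma E_fin (x : K) : E ((x, 1) : K × K) = Finsupp.single x 1 := by simp [E]

/-- `E` only depends on the point -/
lemma E_eq {p q r : K × K} (hp : br r p ≠ 0) (hq : br r q ≠ 0) (h : br p q = 0) : E p = E q := by
  simp only [br] at *
  simp only [E]
  by_cases hp2 : p.2 = 0
  · have hp1 : p.1 ≠ 0 := by
      intro h1; apply hp; rw [hp2, h1]; ring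
    have hq2 : q.2 = 0 := by
      rw [hp2, zero_mul, sub_zero] at h
      exact (mul_eq_zero.1 h).resolve_left hp1
    rw [if_pos hp2, if_pos hq2]
  · have hq2 : q.2 ≠ 0 := by
      intro hq2
      rw [hq2, mul_zero, zero_sub, neg_eq_zero] at h
      have hq1 := (mul_eq_zero.1 h).resolve_left hp2
      apply hq; rw [hq2, hq1]; ring
    rw [if_neg hp2, if_neg hq2]
    congr 1
    rw [div_eq_div_iff hp2 hq2]
    linear_combination h

abbrev V4 (K : Type*) [Field K] : Type _ :=
  (K →₀ ℚ) →ₗ[ℚ] (K →₀ ℚ) →ₗ[ℚ] (K →₀ ℚ) →ₗ[ℚ] (K →₀ ℚ) →ₗ[ℚ] ℚ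

/-- the image of `e` under the involution exchanging `a, b` and `c, d` -/
def inv4 (a b c d e : K × K) : K × K := (br c a * br d e) • b + (br a e * br d b) • c

/-- functionals killing the functions of degree at most two -/
structure Sol (Ψ : V4 K) : Prop where
  s12 : ∀ u v w y, Ψ u v w y = Ψ v u w y
  s23 : ∀ u v w y, Ψ u v w y = Ψ u w v y
  diag : ∀ u, Ψ u u u u = 0
  H1 : ∀ p q r : K × K, br p q ≠ 0 → br p r ≠ 0 → br q r ≠ 0 →
    Ψ (E p - E q) (E p - E q) (E p - E q) (E r - E q) = 0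
  H2 : ∀ a b c d e : K × K, br a c ≠ 0 → br a d ≠ 0 → br a e ≠ 0 → br b c ≠ 0 → br b d ≠ 0 →
    br b e ≠ 0 → br c d ≠ 0 → br c e ≠ 0 → br d e ≠ 0 →
    Ψ (E a + E b - E c - E d) (E a + E b - E c - E d) (E a + E b - E c - E d)
      (E e + E (inv4 a b c d e) - E c - E d) = 0

/-- the divisors `E r - E q` span -/
lemma span_E (q : K × K) (φ : (K →₀ ℚ) →ₗ[ℚ] ℚ)
    (h : ∀ r : K × K, r ≠ 0 → φ (E r - E q) = 0) : φ = 0 := by
  refine Finsupp.lhom_ext fun x c => ?_
  have h1 := h (1, 0) (by simp)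
  have h2 := h (x, 1) (by simp)
  rw [E_inf, zero_sub, map_neg, neg_eq_zero] at h1
  rw [E_fin, map_sub, h1, sub_zero] at h2
  rw [LinearMap.zero_apply, ← Finsupp.smul_single_one, map_smul, h2, smul_zero]

namespace Sol
variable {Ψ : V4 K} (S : Sol Ψ)
include S

/-- functions of degree one -/
lemma cube {p q : K × K} (h : br p q ≠ 0) (w : K →₀ ℚ) :
    Ψ (E p - E q) (E p - E q) (E p - E q) w = 0 := by
  have h0 : Ψ (E p - E q) (E p - E q) (E p - E q) = 0 := by
    refine span_E q _ fun r hr => ?_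
    by_cases h1 : br p r = 0
    · have : E r = E p := by
        refine E_eq (r := q) ?_ (br_ne_comm h) (by rw [br_swap, h1, neg_zero])
        intro h2
        -- `r` is proportional to both
        apply hr
        have e1 := plucker p q r r
        ext
        · have : r.1 * br p q = 0 := by
            have : r.1 * br p q = p.1 * br r q * 1 + q.1 * br p r := by simp only [br]; ring
            rw [this, h1, br_swap, h2]; ring
          exact (mul_eq_zero.1 this).resolve_right h
        · have : r.2 * br p q = 0 := by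
            have : r.2 * br p q = p.2 * br r q * 1 + q.2 * br p r := by simp only [br]; ring
            rw [this, h1, br_swap, h2]; ring
          exact (mul_eq_zero.1 this).resolve_right h
      rw [this]
      exact S.diag _
    · by_cases h2 : br q r = 0
      · have : E r = E q := by
          refine E_eq (r := p) h1 h ?_
          rw [br_swap, h2, neg_zero]
        rw [this, sub_self, map_zero]
      · exact S.H1 p q r h h1 h2
  rw [h0]; rfl

lemma xxy_eq {p q r : K × K} (hpq : br p q ≠ 0) (hpr : br p r ≠ 0) (hqr : br q r ≠ 0)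
    (w : K →₀ ℚ) :
    Ψ (E p - E r) (E p - E r) (E q - E r) w = Ψ (E p - E r) (E q - E r) (E q - E r) w := by
  have h1 := S.cube hpr w
  have h2 := S.cube hqr w
  have h3 := S.cube hpq w
  have e : E p - E q = (E p - E r) - (E q - E r) := by abel
  rw [e] at h3
  set x := E p - E r
  set y := E q - E r
  simp only [map_sub, LinearMap.sub_apply] at h3
  have a1 := S.s23 x y x w
  have a2 := S.s12 y x x w
  have a3 := S.s23 y y x w
  have a4 := S.s12 y x y w
  have a5 := S.s23 y x y w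
  rw [a2, a1] at h3
  have a6 : Ψ y x y w = Ψ x y y w := S.s12 y x y w
  have a7 : Ψ y y x w = Ψ x y y w := by rw [a3, a6]
  rw [h1, h2, a6, a7] at h3
  linarith

/-- the basic function -/
def _root_.Helper14.W4.Cw (Ψ : V4 K) (a b c : K × K) : (K →₀ ℚ) →ₗ[ℚ] ℚ :=
  (3 : ℚ) • Ψ (E a - E c) (E a - E c) (E b - E c)

lemma Cw_swap12 {a b c : K × K} (hab : br a b ≠ 0) (hac : br a c ≠ 0) (hbc : br b c ≠ 0) :
    Cw Ψ b a c = Cw Ψ a b c := by
  refine LinearMap.ext fun w => ?_
  simp only [Cw, LinearMap.smul_apply]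
  rw [S.xxy_eq hab hac hbc, S.s23 (E b - E c) (E b - E c) (E a - E c),
    S.s12 (E b - E c) (E a - E c) (E b - E c)]

lemma Cw_swap23 {a b c : K × K} (hab : br a b ≠ 0) (hac : br a c ≠ 0) (hbc : br b c ≠ 0) :
    Cw Ψ a c b = Cw Ψ a b c := by
  refine LinearMap.ext fun w => ?_
  simp only [Cw, LinearMap.smul_apply]
  congr 1
  have h2 := S.cube hbc w
  have h4 := S.xxy_eq hab hac hbc w
  have e1 : E a - E b = (E a - E c) - (E b - E c) := by abel
  have e2 : E c - E b = -(E b - E c) := by abel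
  rw [e1, e2]
  set x := E a - E c
  set y := E b - E c
  simp only [map_sub, map_neg, LinearMap.sub_apply, LinearMap.neg_apply]
  have a1 : Ψ y x y w = Ψ x y y w := S.s12 y x y w
  rw [a1, h2, ← h4]
  ring

/-- polarisation -/
lemma pol (x y : K →₀ ℚ) (hx : ∀ w, Ψ x x x w = 0) (hy : ∀ w, Ψ y y y w = 0) :
    Ψ x x y x = 0 := by
  have a1 : ∀ w, Ψ y x x w = Ψ x x y w := fun w => by rw [S.s12 y x x w, S.s23 x y x w]
  have a2 : ∀ w, Ψ x y x w = Ψ x x y w := fun w => S.s23 x y x w
  have a3 : ∀ w, Ψ y x y w = Ψ x y y w := fun w => S.s12 y x y w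
  have a4 : ∀ w, Ψ y y x w = Ψ x y y w := fun w => by rw [S.s23 y y x w, S.s12 y x y w]
  have h1 := S.diag (x + y)
  have h2 := S.diag (x - y)
  have h3 := S.diag (x + (2 : ℚ) • y)
  simp only [map_add, map_sub, map_smul, LinearMap.add_apply, LinearMap.sub_apply,
    LinearMap.smul_apply, smul_eq_mul, a1, a2, a3, a4, hx, hy] at h1 h2 h3
  linarith

lemma pol2 (x y z : K →₀ ℚ) :
    3 * Ψ x x y z + 3 * Ψ x x z y + 6 * Ψ x y z x = 0 := by
  have key : ∀ u v : K →₀ ℚ, Ψ u u u v + 3 * Ψ u u v u = 0 := by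
    intro u v
    have a1 : ∀ w, Ψ v u u w = Ψ u u v w := fun w => by rw [S.s12 v u u w, S.s23 u v u w]
    have a2 : ∀ w, Ψ u v u w = Ψ u u v w := fun w => S.s23 u v u w
    have a3 : ∀ w, Ψ v u v w = Ψ u v v w := fun w => S.s12 v u v w
    have a4 : ∀ w, Ψ v v u w = Ψ u v v w := fun w => by rw [S.s23 v v u w, S.s12 v u v w]
    have h0 := S.diag u
    have h0' := S.diag v
    have h1 := S.diag (u + v)
    have h2 := S.diag (u - v)
    have h3 := S.diag (u + (2 : ℚ) • v)
    simp only [map_add, map_sub, map_smul, LinearMap.add_apply, LinearMap.sub_apply,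
      LinearMap.smul_apply, smul_eq_mul, a1, a2, a3, a4, h0, h0'] at h1 h2 h3
    linarith
  -- polarise `key`
  have k1 := key (x + y) z
  have k2 := key (x - y) z
  have k3 := key x z
  have k4 := key y z
  have k5 := key x y
  have k6 := key y x
  have b1 : ∀ w, Ψ y x x w = Ψ x x y w := fun w => by rw [S.s12 y x x w, S.s23 x y x w]
  have b2 : ∀ w, Ψ x y x w = Ψ x x y w := fun w => S.s23 x y x w
  have b3 : ∀ w, Ψ y x y w = Ψ x y y w := fun w => S.s12 y x y w
  have b4 : ∀ w, Ψ y y x w = Ψ x y y w := fun w => by rw [S.s23 y y x w, S.s12 y x y w]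
  have b5 : ∀ w, Ψ y x z w = Ψ x y z w := fun w => S.s12 y x z w
  simp only [map_add, map_sub, LinearMap.add_apply, LinearMap.sub_apply,
    b1, b2, b3, b4, b5] at k1 k2 k3 k4
  linarith

/-- `C(a,b,c; a - c) = 0` -/
lemma Cw_ac {a b c : K × K} (hac : br a c ≠ 0) (hbc : br b c ≠ 0) :
    Cw Ψ a b c (E a - E c) = 0 := by
  simp only [Cw, LinearMap.smul_apply]
  rw [S.pol _ _ (S.cube hac) (S.cube hbc), smul_zero]

lemma Cw_bc {a b c : K × K} (hab : br a b ≠ 0) (hac : br a c ≠ 0) (hbc : br b c ≠ 0) :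
    Cw Ψ a b c (E b - E c) = 0 := by
  rw [← S.Cw_swap12 hab hac hbc]
  exact S.Cw_ac hbc hac

/-- the mixed value in terms of `C` -/
lemma T_eq {a b c d : K × K} (_hab : br a b ≠ 0) (hac : br a c ≠ 0) (had : br a d ≠ 0)
    (hbc : br b c ≠ 0) (hbd : br b d ≠ 0) (hcd : br c d ≠ 0) (w : K →₀ ℚ) :
    6 * Ψ (E a - E d) (E b - E d) (E c - E d) w =
      Cw Ψ a b d w + Cw Ψ a c d w + Cw Ψ b c d w - Cw Ψ a b c w := by
  have e1 : E a - E c = (E a - E d) - (E c - E d) := by abel
  have e2 : E b - E c = (E b - E d) - (E c - E d) := by abel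
  have h1 := S.cube hcd w
  have h2 := S.xxy_eq hac had hcd w
  have h3 := S.xxy_eq hbc hbd hcd w
  simp only [Cw, LinearMap.smul_apply, smul_eq_mul]
  rw [e1, e2]
  set x := E a - E d
  set y := E b - E d
  set z := E c - E d
  have b1 : ∀ w, Ψ z x y w = Ψ x y z w := fun w => by rw [S.s12 z x y w, S.s23 x z y w]
  have b2 : ∀ w, Ψ x z y w = Ψ x y z w := fun w => S.s23 x z y w
  have b3 : ∀ w, Ψ z x z w = Ψ x z z w := fun w => S.s12 z x z w
  have b4 : ∀ w, Ψ z z y w = Ψ y z z w := fun w => by rw [S.s23 z z y w, S.s12 z y z w]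
  simp only [map_sub, LinearMap.sub_apply, b1, b2, b3, b4, h1]
  linarith

/-- the four-term relation -/
lemma four {a b c d : K × K} (hab : br a b ≠ 0) (hac : br a c ≠ 0) (had : br a d ≠ 0)
    (hbc : br b c ≠ 0) (hbd : br b d ≠ 0) (hcd : br c d ≠ 0) :
    Cw Ψ a b d (E c - E d) + Cw Ψ a c d (E b - E d) + Cw Ψ b c d (E a - E d) -
      Cw Ψ a b c (E a - E d) = 0 := by
  have h1 := S.T_eq hab hac had hbc hbd hcd (E a - E d)
  have h2 := S.pol2 (E a - E d) (E b - E d) (E c - E d)
  have h3 := S.Cw_ac (b := b) had hbd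
  have h4 := S.Cw_ac (b := c) had hcd
  have h5 : 3 * Ψ (E a - E d) (E a - E d) (E b - E d) (E c - E d) =
    Cw Ψ a b d (E c - E d) := rfl
  have h6 : 3 * Ψ (E a - E d) (E a - E d) (E c - E d) (E b - E d) =
    Cw Ψ a c d (E b - E d) := rfl
  rw [h5, h6, h1, h3, h4] at h2
  linarith

/-- functions of degree two -/
lemma deg2 {a b c d e : K × K} (hab : br a b ≠ 0) (hac : br a c ≠ 0) (had : br a d ≠ 0)
    (hae : br a e ≠ 0) (hbc : br b c ≠ 0) (hbd : br b d ≠ 0) (hbe : br b e ≠ 0)
    (hcd : br c d ≠ 0) (hce : br c e ≠ 0) (hde : br d e ≠ 0) :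
    (Cw Ψ a b c + Cw Ψ a b d - Cw Ψ a c d - Cw Ψ b c d)
      (E e + E (inv4 a b c d e) - E c - E d) = 0 := by
  have h := S.H2 a b c d e hac had hae hbc hbd hbe hcd hce hde
  set w := E e + E (inv4 a b c d e) - E c - E d
  have h1 := S.T_eq hab hac had hbc hbd hcd w
  have c1 := S.cube had w
  have c2 := S.cube hbd w
  have c3 := S.cube hcd w
  have x1 := S.xxy_eq hab had hbd w
  have x2 := S.xxy_eq hac had hcd w
  have x3 := S.xxy_eq hbc hbd hcd w
  have e1 : E a + E b - E c - E d = (E a - E d) + (E b - E d) - (E c - E d) := by abel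
  have f1 : Cw Ψ a b d w = 3 * Ψ (E a - E d) (E a - E d) (E b - E d) w := rfl
  rw [e1] at h
  simp only [LinearMap.add_apply, LinearMap.sub_apply]
  set x := E a - E d
  set y := E b - E d
  set z := E c - E d
  have b1 : ∀ w, Ψ z x y w = Ψ x y z w := fun w => by rw [S.s12 z x y w, S.s23 x z y w]
  have b2 : ∀ w, Ψ x z y w = Ψ x y z w := fun w => S.s23 x z y w
  have b3 : ∀ w, Ψ z x z w = Ψ x z z w := fun w => S.s12 z x z w
  have b4 : ∀ w, Ψ z z y w = Ψ y z z w := fun w => by rw [S.s23 z z y w, S.s12 z y z w]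
  have b5 : ∀ w, Ψ y x z w = Ψ x y z w := fun w => S.s12 y x z w
  have b6 : ∀ w, Ψ z y x w = Ψ x y z w := fun w => by
    rw [S.s23 z y x w, b1]
  have b7 : ∀ w, Ψ y z x w = Ψ x y z w := fun w => by
    rw [S.s23 y z x w, b5]
  have b8 : ∀ w, Ψ y x x w = Ψ x x y w := fun w => by rw [S.s12 y x x w, S.s23 x y x w]
  have b9 : ∀ w, Ψ x y x w = Ψ x x y w := fun w => S.s23 x y x w
  have b10 : ∀ w, Ψ y x y w = Ψ x y y w := fun w => S.s12 y x y w
  have b11 : ∀ w, Ψ y y x w = Ψ x y y w := fun w => by rw [S.s23 y y x w, S.s12 y x y w]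
  have b12 : ∀ w, Ψ z x x w = Ψ x x z w := fun w => by rw [S.s12 z x x w, S.s23 x z x w]
  have b13 : ∀ w, Ψ x z x w = Ψ x x z w := fun w => S.s23 x z x w
  have b14 : ∀ w, Ψ z z x w = Ψ x z z w := fun w => by rw [S.s23 z z x w, S.s12 z x z w]
  have b15 : ∀ w, Ψ z y y w = Ψ y y z w := fun w => by rw [S.s12 z y y w, S.s23 y z y w]
  have b16 : ∀ w, Ψ y z y w = Ψ y y z w := fun w => S.s23 y z y w
  have b17 : ∀ w, Ψ z y z w = Ψ y z z w := fun w => S.s12 z y z w
  simp only [map_add, map_sub, LinearMap.add_apply, LinearMap.sub_apply, b1, b2, b3, b4, b5,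
    b6, b7, b8, b9, b10, b11, b12, b13, b14, b15, b16, b17, c1, c2, c3] at h
  rw [x1] at f1
  linarith

/-- functions of degree two with a double zero -/
lemma deg2' {a c d e : K × K} (hac : br a c ≠ 0) (had : br a d ≠ 0)
    (hae : br a e ≠ 0) (hcd : br c d ≠ 0) (hce : br c e ≠ 0) (hde : br d e ≠ 0) :
    Cw Ψ a c d (E e + E (inv4 a a c d e) - E c - E d) = 0 := by
  have h := S.H2 a a c d e hac had hae hac had hae hcd hce hde
  set w := E e + E (inv4 a a c d e) - E c - E d
  have c1 := S.cube had w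
  have c3 := S.cube hcd w
  have x2 := S.xxy_eq hac had hcd w
  have e1 : E a + E a - E c - E d = (E a - E d) + (E a - E d) - (E c - E d) := by abel
  have f1 : Cw Ψ a c d w = 3 * Ψ (E a - E d) (E a - E d) (E c - E d) w := rfl
  rw [e1] at h
  set x := E a - E d
  set z := E c - E d
  have b3 : ∀ w, Ψ z x z w = Ψ x z z w := fun w => S.s12 z x z w
  have b12 : ∀ w, Ψ z x x w = Ψ x x z w := fun w => by rw [S.s12 z x x w, S.s23 x z x w]
  have b13 : ∀ w, Ψ x z x w = Ψ x x z w := fun w => S.s23 x z x w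
  have b14 : ∀ w, Ψ z z x w = Ψ x z z w := fun w => by rw [S.s23 z z x w, S.s12 z x z w]
  simp only [map_add, map_sub, LinearMap.add_apply, LinearMap.sub_apply, b3,
    b12, b13, b14, c1, c3] at h
  linarith

end Sol

end Helper14.W4
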