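import Pool.Agent.Helper14.W4.A

set_option autoImplicit false
set_option linter.unusedSectionVars false

/-!
# Functionals on the hook `S_(3,1)(V)` killing functions of degree at most two: part B

The functions `L_abc` of the cross ratio and the relation `R'`.
-/

noncomputable section

open scoped Classical

namespace Helper14.W4

variable {K : Type*} [Field K]

/-- the cross ratio -/
def X (a b c d : K × K) : K := (br a d * br b c) / (br b d * br a c)

/-- the point with given cross ratio -/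
def pt (a b c : K × K) (x : K) : K × K := br b c • a - (x * br a c) • b

lemma br_pt_a (a b c : K × K) (x : K) : br a (pt a b c x) = -(x * br a c * br a b) := by
  rw [pt, br_sub_right, br_smul_right, br_smul_right, br_self]; ring

lemma br_pt_b (a b c : K × K) (x : K) : br b (pt a b c x) = -(br b c * br a b) := by
  rw [pt, br_sub_right, br_smul_right, br_smul_right, br_self, br_swap a b]; ring

lemma br_pt_c (a b c : K × K) (x : K) : br c (pt a b c x) = (x - 1) * (br a c * br b c) := by
  rw [pt, br_sub_right, br_smul_right, br_smul_right, br_swap a c, br_swap b c]; ring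

/-- recognising the point with given cross ratio -/
lemma E_pt {a b c P : K × K} {y : K} (hab : br a b ≠ 0) (hbc : br b c ≠ 0)
    (hbP : br b P ≠ 0) (h : br a P * br b c = y * (br b P * br a c)) :
    E (pt a b c y) = E P := by
  refine E_eq (r := b) ?_ hbP ?_
  · rw [br_pt_b]
    exact neg_ne_zero.2 (mul_ne_zero hbc hab)
  · rw [pt, br_sub_left, br_smul_left, br_smul_left]
    linear_combination h

/-- a general position point is recovered from the cross ratio -/
lemma E_pt_X {a b c d : K × K} (hac : br a c ≠ 0) (hbc : br b c ≠ 0)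
    (hab : br a b ≠ 0) (hbd : br b d ≠ 0) : E (pt a b c (X a b c d)) = E d := by
  refine E_pt hab hbc hbd ?_
  rw [X]
  field_simp

/-- alternating functions on the field -/
structure Altf (l : K → ℚ) : Prop where
  inv : ∀ x, l x⁻¹ = - l x
  sub : ∀ x, l (1 - x) = - l x

namespace Altf
variable {l : K → ℚ} (h : Altf l)
include h

lemma zero : l 0 = 0 := by
  have := h.inv 0
  rw [inv_zero] at this; linarith

lemma one : l 1 = 0 := by
  have := h.sub 0
  rw [sub_zero, h.zero] at this; linarith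

lemma frac (x : K) : l (x / (x - 1)) = - l x := by
  by_cases hx : x = 0
  · subst hx; simp [h.zero]
  by_cases hx1 : x = 1
  · subst hx1; simp [h.zero, h.one]
  have h1 : x - 1 ≠ 0 := sub_ne_zero.2 hx1
  have e : x / (x - 1) = (1 - x⁻¹)⁻¹ := by
    have : 1 - x⁻¹ ≠ 0 := by
      intro h2
      apply h1
      have : x * (1 - x⁻¹) = 0 := by rw [h2, mul_zero]
      rw [mul_sub, mul_inv_cancel₀ hx, mul_one] at this
      exact this
    field_simp
  rw [e, h.inv, h.sub, h.inv]; ring

lemma X12 (a b c d : K × K) : l (X b a c d) = - l (X a b c d) := by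
  rw [← h.inv, X, X, inv_div]

lemma X34 (a b c d : K × K) : l (X a b d c) = - l (X a b c d) := by
  rw [← h.inv, X, X, inv_div]
  congr 1
  rw [mul_comm, mul_comm (br b c)]

lemma X23 {a b c d : K × K} (hab : br a b ≠ 0) (hac : br a c ≠ 0) (hbd : br b d ≠ 0)
    (hcd : br c d ≠ 0) : l (X a c b d) = - l (X a b c d) := by
  rw [← h.frac]
  congr 1
  have p := plucker a b c d
  have e1 : X a b c d - 1 = - (br a b * br c d) / (br b d * br a c) := by
    rw [X]
    field_simp
    linear_combination p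
  rw [e1, X, X, br_swap b c]
  have : br b d * br a c ≠ 0 := mul_ne_zero hbd hac
  field_simp

end Altf

/-- the function `L_abc` -/
def L (Ψ : V4 K) (a b c : K × K) (x : K) : ℚ := Cw Ψ a b c (E (pt a b c x) - E a)

namespace Sol
variable {Ψ : V4 K} (S : Sol Ψ)
include S

lemma Cw_ab {a b c : K × K} (hab : br a b ≠ 0) (hac : br a c ≠ 0) (hbc : br b c ≠ 0) :
    Cw Ψ a b c (E b - E a) = 0 := by
  have h1 := S.Cw_ac (b := b) hac hbc
  have h2 := S.Cw_bc hab hac hbc
  rw [map_sub] at h1 h2 ⊢
  linarith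

lemma L_zero {a b c : K × K} (hab : br a b ≠ 0) (hbc : br b c ≠ 0) :
    L Ψ a b c 0 = 0 := by
  have : E (pt a b c 0) = E a := by
    refine E_pt hab hbc (br_ne_comm hab) ?_
    rw [br_self]; ring
  rw [L, this, sub_self, map_zero]

lemma L_one {a b c : K × K} (hab : br a b ≠ 0) (hac : br a c ≠ 0) (hbc : br b c ≠ 0) :
    L Ψ a b c 1 = 0 := by
  have : E (pt a b c 1) = E c := by
    refine E_pt hab hbc hbc ?_
    ring
  rw [L, this]
  have h1 := S.Cw_ac (b := b) hac hbc
  rw [map_sub] at h1 ⊢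
  linarith

/-- `L` at a cross ratio -/
lemma L_X {a b c d : K × K} (hab : br a b ≠ 0) (hac : br a c ≠ 0) (hbc : br b c ≠ 0)
    (hbd : br b d ≠ 0) : L Ψ a b c (X a b c d) = Cw Ψ a b c (E d - E a) := by
  rw [L, E_pt_X hac hbc hab hbd]

/-- the involution fixing the third point -/
lemma L_inv {a b c : K × K} (hab : br a b ≠ 0) (hac : br a c ≠ 0) (hbc : br b c ≠ 0) (x : K) :
    L Ψ a b c x⁻¹ = - L Ψ a b c x := by
  by_cases hx : x = 0
  · subst hx; rw [inv_zero, S.L_zero hab hbc]; ring
  by_cases hx1 : x = 1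
  · subst hx1; rw [inv_one, S.L_one hab hac hbc]; ring
  have hx1' : x - 1 ≠ 0 := sub_ne_zero.2 hx1
  have ha := br_pt_a a b c x
  have hb := br_pt_b a b c x
  have hc := br_pt_c a b c x
  have h0 : L Ψ a b c x = Cw Ψ a b c (E (pt a b c x) - E a) := rfl
  set e := pt a b c x with he
  have hae : br a e ≠ 0 := by
    rw [ha]; exact neg_ne_zero.2 (mul_ne_zero (mul_ne_zero hx hac) hab)
  have hbe : br b e ≠ 0 := by
    rw [hb]; exact neg_ne_zero.2 (mul_ne_zero hbc hab)
  have hce : br c e ≠ 0 := by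
    rw [hc]; exact mul_ne_zero hx1' (mul_ne_zero hac hbc)
  have h := S.deg2' (a := c) (c := a) (d := b) (e := e) (br_ne_comm hac) (br_ne_comm hbc) hce
    hab hae hbe
  have k1 : br b (inv4 c c a b e) = - (x * br a c * br b c ^ 2 * br a b) := by
    rw [inv4, br_add_right, br_smul_right, br_smul_right, hb, hc, br_swap a b]; ring
  have k2 : br a (inv4 c c a b e) = - (br a c ^ 2 * br b c * br a b) := by
    rw [inv4, br_add_right, br_smul_right, br_smul_right, hb, br_self]; ring
  have e1 : E (pt a b c x⁻¹) = E (inv4 c c a b e) := by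
    refine E_pt hab hbc ?_ ?_
    · rw [k1]
      exact neg_ne_zero.2 (mul_ne_zero (mul_ne_zero (mul_ne_zero hx hac) (pow_ne_zero 2 hbc))
        hab)
    · rw [k1, k2]; field_simp
  have hC : Cw Ψ c a b = Cw Ψ a b c := by
    rw [S.Cw_swap12 (a := a) (b := c) (c := b) hac hab (br_ne_comm hbc),
      S.Cw_swap23 hab hac hbc]
  rw [hC] at h
  have h1 := S.Cw_ab hab hac hbc
  rw [L, e1, h0]
  simp only [map_add, map_sub] at h h1 ⊢
  linarith

/-- the involution fixing the second point -/
lemma L_sub {a b c : K × K} (hab : br a b ≠ 0) (hac : br a c ≠ 0) (hbc : br b c ≠ 0) (x : K) :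
    L Ψ a b c (1 - x) = - L Ψ a b c x := by
  by_cases hx : x = 0
  · subst hx; rw [sub_zero, S.L_zero hab hbc, S.L_one hab hac hbc]; ring
  by_cases hx1 : x = 1
  · subst hx1; rw [sub_self, S.L_zero hab hbc, S.L_one hab hac hbc]; ring
  have hx1' : x - 1 ≠ 0 := sub_ne_zero.2 hx1
  have ha := br_pt_a a b c x
  have hb := br_pt_b a b c x
  have hc := br_pt_c a b c x
  have h0 : L Ψ a b c x = Cw Ψ a b c (E (pt a b c x) - E a) := rfl
  set e := pt a b c x with he
  have hae : br a e ≠ 0 := by
    rw [ha]; exact neg_ne_zero.2 (mul_ne_zero (mul_ne_zero hx hac) hab)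
  have hbe : br b e ≠ 0 := by
    rw [hb]; exact neg_ne_zero.2 (mul_ne_zero hbc hab)
  have hce : br c e ≠ 0 := by
    rw [hc]; exact mul_ne_zero hx1' (mul_ne_zero hac hbc)
  have h := S.deg2' (a := b) (c := a) (d := c) (e := e) (br_ne_comm hab) hbc hbe
    hac hae hce
  have k1 : br b (inv4 b b a c e) = - (br a b ^ 2 * br b c ^ 2) := by
    rw [inv4, br_add_right, br_smul_right, br_smul_right, hb, br_self,
      br_swap a b, br_swap b c]; ring
  have k2 : br a (inv4 b b a c e) = (x - 1) * (br a b ^ 2 * br a c * br b c) := by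
    rw [inv4, br_add_right, br_smul_right, br_smul_right, hc, br_self]; ring
  have e1 : E (pt a b c (1 - x)) = E (inv4 b b a c e) := by
    refine E_pt hab hbc ?_ ?_
    · rw [k1]
      exact neg_ne_zero.2 (mul_ne_zero (pow_ne_zero 2 hab) (pow_ne_zero 2 hbc))
    · rw [k1, k2]; ring
  rw [S.Cw_swap12 hab hac hbc] at h
  have h1 := S.Cw_ac (b := b) hac hbc
  rw [L, e1, h0]
  simp only [map_add, map_sub] at h h1 ⊢
  linarith

lemma altf {a b c : K × K} (hab : br a b ≠ 0) (hac : br a c ≠ 0) (hbc : br b c ≠ 0) :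
    Altf (L Ψ a b c) := ⟨S.L_inv hab hac hbc, S.L_sub hab hac hbc⟩

lemma L_swap12 {a b c : K × K} (hab : br a b ≠ 0) (hac : br a c ≠ 0) (hbc : br b c ≠ 0)
    (x : K) : L Ψ b a c x = - L Ψ a b c x := by
  rw [← S.L_inv hab hac hbc]
  by_cases hx : x = 0
  · subst hx; rw [inv_zero, S.L_zero hab hbc, S.L_zero (br_ne_comm hab) hac]
  have h1 := S.Cw_ab hab hac hbc
  have e1 : E (pt a b c x⁻¹) = E (pt b a c x) := by
    refine E_pt hab hbc ?_ ?_
    · rw [br_pt_a]
      exact neg_ne_zero.2 (mul_ne_zero (mul_ne_zero hx hbc) (br_ne_comm hab))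
    · rw [br_pt_a, br_pt_b]; field_simp
  rw [L, L, S.Cw_swap12 hab hac hbc, e1]
  simp only [map_sub] at h1 ⊢
  linarith

lemma L_swap23 {a b c : K × K} (hab : br a b ≠ 0) (hac : br a c ≠ 0) (hbc : br b c ≠ 0)
    (x : K) : L Ψ a c b x = - L Ψ a b c x := by
  rw [← (S.altf hab hac hbc).frac]
  by_cases hx : x = 1
  · subst hx
    rw [S.L_one hac hab (br_ne_comm hbc), sub_self, div_zero, S.L_zero hab hbc]
  have hx1' : x - 1 ≠ 0 := sub_ne_zero.2 hx
  have e1 : E (pt a b c (x / (x - 1))) = E (pt a c b x) := by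
    refine E_pt hab hbc ?_ ?_
    · rw [br_pt_c]
      exact mul_ne_zero hx1' (mul_ne_zero hab (br_ne_comm hbc))
    · rw [br_pt_c, br_pt_a, br_swap b c]; field_simp
  rw [L, L, S.Cw_swap23 hab hac hbc, e1]

end Sol

end Helper14.W4
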