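import Pool.Agent.Helper14.W4.B

set_option autoImplicit false
set_option linter.unusedSectionVars false

/-!
# Functionals on the hook `S_(3,1)(V)` killing functions of degree at most two: part C

The five-term relation.
-/

noncomputable section

open scoped Classical

namespace Helper14.W4

variable {K : Type*} [Field K]

/-- four distinct points -/
structure G4 (a b c d : K × K) : Prop where
  ab : br a b ≠ 0
  ac : br a c ≠ 0
  ad : br a d ≠ 0
  bc : br b c ≠ 0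
  bd : br b d ≠ 0
  cd : br c d ≠ 0

/-- five distinct points -/
structure G5 (a b c d e : K × K) : Prop extends G4 a b c d where
  ae : br a e ≠ 0
  be : br b e ≠ 0
  ce : br c e ≠ 0
  de : br d e ≠ 0

namespace G4
variable {a b c d : K × K} (h : G4 a b c d)
include h
lemma s12 : G4 b a c d := ⟨br_ne_comm h.ab, h.bc, h.bd, h.ac, h.ad, h.cd⟩
lemma s23 : G4 a c b d := ⟨h.ac, h.ab, h.ad, br_ne_comm h.bc, h.cd, h.bd⟩
lemma s34 : G4 a b d c := ⟨h.ab, h.ad, h.ac, h.bd, h.bc, br_ne_comm h.cd⟩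
end G4

namespace G5
variable {a b c d e : K × K} (h : G5 a b c d e)
include h
lemma s12 : G5 b a c d e := ⟨h.toG4.s12, h.be, h.ae, h.ce, h.de⟩
lemma s23 : G5 a c b d e := ⟨h.toG4.s23, h.ae, h.ce, h.be, h.de⟩
lemma s34 : G5 a b d c e := ⟨h.toG4.s34, h.ae, h.be, h.de, h.ce⟩
lemma s45 : G5 a b c e d :=
  ⟨⟨h.ab, h.ac, h.ae, h.bc, h.be, h.ce⟩, h.ad, h.bd, h.cd, br_ne_comm h.de⟩
lemma o1 : G4 b c d e := ⟨h.bc, h.bd, h.be, h.cd, h.ce, h.de⟩
lemma o2 : G4 a c d e := ⟨h.ac, h.ad, h.ae, h.cd, h.ce, h.de⟩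
lemma o3 : G4 a b d e := ⟨h.ab, h.ad, h.ae, h.bd, h.be, h.de⟩
lemma o4 : G4 a b c e := ⟨h.ab, h.ac, h.ae, h.bc, h.be, h.ce⟩
end G5

namespace Altf
variable {l : K → ℚ} (hl : Altf l) {a b c d : K × K} (h : G4 a b c d)
include hl h
lemma x23 : l (X a c b d) = - l (X a b c d) := hl.X23 h.ab h.ac h.bd h.cd
end Altf

/-- the five-term expression -/
def FF (l : K → ℚ) (a b c d e : K × K) : ℚ :=
  l (X b c d e) - l (X a c d e) + l (X a b d e) - l (X a b c e) + l (X a b c d)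

namespace Sol
variable {Ψ : V4 K} (S : Sol Ψ)
include S

lemma L_at {a b c P : K × K} {y : K} (hab : br a b ≠ 0) (hbc : br b c ≠ 0)
    (hbP : br b P ≠ 0) (h : br a P * br b c = y * (br b P * br a c)) :
    L Ψ a b c y = Cw Ψ a b c (E P - E a) := by
  rw [L, E_pt hab hbc hbP h]

/-- the four-term relation -/
lemma four' {a b c d : K × K} (h : G4 a b c d) :
    L Ψ a b c (X a b c d) - L Ψ a b d (X a b c d) + L Ψ a c d (X a b c d) -
      L Ψ b c d (X a b c d) = 0 := by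
  have h0 := S.four h.ab h.ac h.ad h.bc h.bd h.cd
  have l1 := S.L_X h.ab h.ac h.bc h.bd
  have l2 := S.L_X h.ab h.ad h.bd h.bc
  have l3 := S.L_X h.ac h.ad h.cd (br_ne_comm h.bc)
  have l4 := S.L_X h.bc h.bd h.cd (br_ne_comm h.ac)
  have A2 := S.altf h.ab h.ad h.bd
  have A3 := S.altf h.ac h.ad h.cd
  have A4 := S.altf h.bc h.bd h.cd
  rw [A2.X34] at l2
  rw [A3.X34, A3.x23 h] at l3
  rw [A4.X34, A4.x23 h.s12, A4.X12] at l4
  have z2 := S.Cw_ac (b := b) h.ad h.bd
  have z3 := S.Cw_ac (b := c) h.ad h.cd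
  have z4 := S.Cw_ac (b := c) h.bd h.cd
  simp only [map_sub] at *
  linarith

/-- the relation `R'` -/
lemma R' {a b c d e : K × K} (h : G5 a b c d e) :
    L Ψ a b c (X a b d e) - L Ψ a b c (X a b c e) - L Ψ a b d (X a b d e) +
      L Ψ a b d (X a b c e) + L Ψ a c d (X a c d e) - L Ψ a c d (X b c d e) -
      L Ψ a c d (X a b c d) - L Ψ b c d (X a c d e) + L Ψ b c d (X b c d e) +
      L Ψ b c d (X a b c d) = 0 := by
  have h0 := S.deg2 h.ab h.ac h.ad h.ae h.bc h.bd h.be h.cd h.ce h.de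
  have h4 := S.four' h.toG4
  have pl1 := plucker a b d e
  have pl2 := plucker a c d e
  have ka : br a (inv4 a b c d e) = - (br a c * br a d * br b e) := by
    rw [inv4, br_add_right, br_smul_right, br_smul_right, br_swap a c, br_swap b d]
    linear_combination (-br a c) * pl1
  have kb : br b (inv4 a b c d e) = - (br a e * br b d * br b c) := by
    rw [inv4, br_add_right, br_smul_right, br_smul_right, br_self, br_swap b d]
    ring
  have kc : br c (inv4 a b c d e) = br a c * br d e * br b c := by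
    rw [inv4, br_add_right, br_smul_right, br_smul_right, br_self, br_swap b c, br_swap a c]
    ring
  have nb : br b (inv4 a b c d e) ≠ 0 := by
    rw [kb]; exact neg_ne_zero.2 (mul_ne_zero (mul_ne_zero h.ae h.bd) h.bc)
  have nc : br c (inv4 a b c d e) ≠ 0 := by
    rw [kc]; exact mul_ne_zero (mul_ne_zero h.ac h.de) h.bc
  have m1 := S.L_at (y := X b a d e) h.ab h.bc nb (by
    rw [ka, kb, X]
    have := h.ae
    have := h.bd
    field_simp)
  have m2 := S.L_at (y := X b a c e) h.ab h.bd nb (by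
    rw [ka, kb, X]
    have := h.ae
    have := h.bc
    field_simp)
  have m3 := S.L_at (y := X b d c e) h.ac h.cd nc (by
    rw [ka, kc, X, br_swap c d]
    have := h.de
    have := h.bc
    field_simp)
  have m4 := S.L_at (y := X a d c e) h.bc h.cd nc (by
    rw [kb, kc, X, br_swap c d]
    have := h.de
    have := h.ac
    field_simp)
  have A1 := S.altf h.ab h.ac h.bc
  have A2 := S.altf h.ab h.ad h.bd
  have A3 := S.altf h.ac h.ad h.cd
  have A4 := S.altf h.bc h.bd h.cd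
  rw [A1.X12] at m1
  rw [A2.X12] at m2
  rw [A3.x23 h.o1] at m3
  rw [A4.x23 h.o2] at m4
  have l1 := S.L_X h.ab h.ac h.bc h.be
  have l1' := S.L_X h.ab h.ac h.bc h.bd
  have l2 := S.L_X h.ab h.ad h.bd h.be
  have l2' := S.L_X h.ab h.ad h.bd h.bc
  rw [A2.X34] at l2'
  have l3 := S.L_X h.ac h.ad h.cd h.ce
  have l4 := S.L_X h.bc h.bd h.cd h.ce
  have z1 := S.Cw_ac (b := b) h.ac h.bc
  have z2 := S.Cw_ac (b := b) h.ad h.bd
  have z3 := S.Cw_ac (b := c) h.ad h.cd
  have z3' := S.Cw_bc h.ac h.ad h.cd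
  have z4 := S.Cw_ac (b := c) h.bd h.cd
  have z4' := S.Cw_bc h.bc h.bd h.cd
  simp only [map_add, map_sub, LinearMap.add_apply, LinearMap.sub_apply] at *
  linarith

end Sol

namespace Altf
variable {l : K → ℚ} (hl : Altf l)
include hl

lemma x13 {a b c d : K × K} (h : G4 a b c d) : l (X c b a d) = - l (X a b c d) := by
  rw [hl.X12, hl.x23 h.s12, hl.X12]; ring

lemma x24 {a b c d : K × K} (h : G4 a b c d) : l (X a d c b) = - l (X a b c d) := by
  rw [hl.X34, hl.x23 h.s34, hl.X34]; ring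

variable {a b c d e : K × K} (h : G5 a b c d e)
include h

lemma F12 : FF l b a c d e = - FF l a b c d e := by
  rw [FF, FF, hl.X12 a b d e, hl.X12 a b c e, hl.X12 a b c d]; ring

lemma F23 : FF l a c b d e = - FF l a b c d e := by
  rw [FF, FF, hl.X12 b c d e, hl.x23 h.o4, hl.x23 h.toG4]; ring

lemma F34 : FF l a b d c e = - FF l a b c d e := by
  rw [FF, FF, hl.x23 h.o1, hl.x23 h.o2, hl.X34 a b c d]; ring

lemma F45 : FF l a b c e d = - FF l a b c d e := by
  rw [FF, FF, hl.X34 b c d e, hl.X34 a c d e, hl.X34 a b d e]; ring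

end Altf

/-- the coboundary of `L` -/
def Dl (Ψ : V4 K) (a b c d : K × K) (x : K) : ℚ :=
  L Ψ a b c x - L Ψ a b d x + L Ψ a c d x - L Ψ b c d x

namespace Sol
variable {Ψ : V4 K} (S : Sol Ψ)
include S

lemma Dl_altf {a b c d : K × K} (h : G4 a b c d) : Altf (Dl Ψ a b c d) where
  inv x := by
    rw [Dl, Dl, S.L_inv h.ab h.ac h.bc, S.L_inv h.ab h.ad h.bd, S.L_inv h.ac h.ad h.cd,
      S.L_inv h.bc h.bd h.cd]; ring
  sub x := by
    rw [Dl, Dl, S.L_sub h.ab h.ac h.bc, S.L_sub h.ab h.ad h.bd, S.L_sub h.ac h.ad h.cd,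
      S.L_sub h.bc h.bd h.cd]; ring

lemma L_swap13 {a b c : K × K} (hab : br a b ≠ 0) (hac : br a c ≠ 0) (hbc : br b c ≠ 0)
    (x : K) : L Ψ c b a x = - L Ψ a b c x := by
  rw [S.L_swap12 hbc (br_ne_comm hab) (br_ne_comm hac), S.L_swap23 (br_ne_comm hab) hbc hac,
    S.L_swap12 hab hac hbc]
  ring

/-- the identity expressing `L_abc` on the five-term elements -/
lemma star {a b c d e : K × K} (h : G5 a b c d e) :
    2 * FF (L Ψ a b c) a b c d e = FF (Dl Ψ a b c d) a b c d e +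
      2 * Dl Ψ a b c d (X a b c e) := by
  have i1 := S.R' h
  have i2 := S.R' h.s23
  have i3 := S.R' h.s23.s34.s23
  have A1 := S.altf h.ab h.ac h.bc
  have A2 := S.altf h.ab h.ad h.bd
  have A3 := S.altf h.ac h.ad h.cd
  have A4 := S.altf h.bc h.bd h.cd
  have w1 := S.L_swap23 h.ab h.ac h.bc
  have w2 := S.L_swap12 h.bc h.bd h.cd
  have w3 := S.L_swap23 h.ac h.ad h.cd
  have w4 := S.L_swap23 h.ab h.ad h.bd
  have w5 := S.L_swap13 h.bc h.bd h.cd
  rw [w1, w1, w2, w2, w2, A1.x23 h.o4, A3.x23 h.o4, A2.X12 b c d e, A4.X12 b c d e,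
    A2.x23 h.toG4, A4.x23 h.toG4] at i2
  rw [w3, w3, w4, w4, w1, w1, w1, w5, w5, w5, A3.x23 h.o3, A3.x23 h.o2, A2.x23 h.o3,
    A2.x23 h.o2, A1.x23 h.o4, A1.x13 h.o1, A1.x24 h.toG4, A4.x23 h.o4, A4.x13 h.o1,
    A4.x24 h.toG4] at i3
  simp only [FF, Dl]
  linarith

/-- the coboundary kills the five-term elements -/
lemma Dl_FF {a b c d e : K × K} (h : G5 a b c d e) : FF (Dl Ψ a b c d) a b c d e = 0 := by
  have s1 := S.star h.s45
  have s2 := S.star h.s34.s45
  have s3 := S.star h.s23.s34.s45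
  have s4 := S.star h.s12.s23.s34.s45
  have A1 := S.altf h.ab h.ac h.bc
  have A2 := S.altf h.ab h.ad h.bd
  have A3 := S.altf h.ac h.ad h.cd
  have A4 := S.altf h.bc h.bd h.cd
  have D1 := S.Dl_altf h.o4
  have D2 := S.Dl_altf h.o3
  have D3 := S.Dl_altf h.o2
  have D4 := S.Dl_altf h.o1
  rw [A1.F45 h, D1.F45 h] at s1
  rw [A2.F45 h.s34, A2.F34 h, D2.F45 h.s34, D2.F34 h, D2.X34] at s2
  rw [A3.F45 h.s23.s34, A3.F34 h.s23, A3.F23 h, D3.F45 h.s23.s34, D3.F34 h.s23, D3.F23 h,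
    D3.X34, D3.x23 h.toG4] at s3
  rw [A4.F45 h.s12.s23.s34, A4.F34 h.s12.s23, A4.F23 h.s12, A4.F12 h,
    D4.F45 h.s12.s23.s34, D4.F34 h.s12.s23, D4.F23 h.s12, D4.F12 h,
    D4.X34, D4.x23 h.toG4.s12, D4.X12] at s4
  have f := S.four' h.toG4
  simp only [FF, Dl] at *
  linarith

/-- the key identity -/
lemma iv {a b c d e : K × K} (h : G5 a b c d e) :
    FF (L Ψ a b c) a b c d e = Dl Ψ a b c d (X a b c e) := by
  have h1 := S.star h
  rw [S.Dl_FF h] at h1
  linarith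

end Sol

end Helper14.W4
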