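import Pool.Agent.Helper14.W4.C

set_option autoImplicit false
set_option linter.unusedSectionVars false

/-!
# Functionals on the hook `S_(3,1)(V)` killing functions of degree at most two: part D

The sign trick and the conclusions.
-/

noncomputable section

open scoped Classical

namespace Helper14.W4

variable {K : Type*} [Field K]

/-- the five-term combination -/
def Fl (l : K → ℚ) (w u : K) : ℚ :=
  l (u / w) - l ((u - 1) / (w - 1)) + l ((u - 1) * w / (u * (w - 1))) - l u + l w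

/-- generic pairs -/
structure Gp (w u : K) : Prop where
  w0 : w ≠ 0
  w1 : w - 1 ≠ 0
  u0 : u ≠ 0
  u1 : u - 1 ≠ 0
  uw : u - w ≠ 0

namespace Altf
variable {l : K → ℚ} (hl : Altf l) {w u : K} (h : Gp w u)
include hl h

lemma Fl_swap : Fl l u w = - Fl l w u := by
  have := h.w0; have := h.w1; have := h.u0; have := h.u1
  have e1 : w / u = (u / w)⁻¹ := by rw [inv_div]
  have e2 : (w - 1) / (u - 1) = ((u - 1) / (w - 1))⁻¹ := by rw [inv_div]
  have e3 : (w - 1) * u / (w * (u - 1)) = ((u - 1) * w / (u * (w - 1)))⁻¹ := by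
    rw [inv_div]; ring
  rw [Fl, Fl, e1, e2, e3, hl.inv, hl.inv, hl.inv]
  ring

lemma Fl_inv : Fl l w⁻¹ u⁻¹ = - Fl l w u := by
  have := h.w0; have := h.w1; have := h.u0; have := h.u1
  have h1 : 1 - w ≠ 0 := by rw [← neg_sub]; exact neg_ne_zero.2 h.w1
  have h2 : 1 - u ≠ 0 := by rw [← neg_sub]; exact neg_ne_zero.2 h.u1
  have e1 : u⁻¹ / w⁻¹ = (u / w)⁻¹ := by field_simp
  have e2 : (u⁻¹ - 1) / (w⁻¹ - 1) = (u - 1) * w / (u * (w - 1)) := by
    have : w⁻¹ - 1 ≠ 0 := by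
      have : w⁻¹ - 1 = (1 - w) / w := by field_simp
      rw [this]; exact div_ne_zero h1 h.w0
    field_simp
    ring
  have e3 : (u⁻¹ - 1) * w⁻¹ / (u⁻¹ * (w⁻¹ - 1)) = (u - 1) / (w - 1) := by
    have : w⁻¹ - 1 ≠ 0 := by
      have : w⁻¹ - 1 = (1 - w) / w := by field_simp
      rw [this]; exact div_ne_zero h1 h.w0
    field_simp
    ring
  rw [Fl, Fl, e1, e2, e3, hl.inv, hl.inv, hl.inv]
  ring

lemma Fl_scale : Fl l w⁻¹ (u / w) = - Fl l w u := by
  have := h.w0; have := h.w1; have := h.u0; have := h.u1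
  have h1 : 1 - w ≠ 0 := by rw [← neg_sub]; exact neg_ne_zero.2 h.w1
  have h3 : w⁻¹ - 1 ≠ 0 := by
      have : w⁻¹ - 1 = (1 - w) / w := by field_simp
      rw [this]; exact div_ne_zero h1 h.w0
  have e1 : u / w / w⁻¹ = u := by field_simp
  have e2 : (u / w - 1) / (w⁻¹ - 1) = 1 - (u - 1) / (w - 1) := by
    field_simp
    ring
  have e3 : (u / w - 1) * w⁻¹ / (u / w * (w⁻¹ - 1)) = 1 - (u - 1) * w / (u * (w - 1)) := by
    field_simp
    ring
  rw [Fl, Fl, e1, e2, e3, hl.inv, hl.sub, hl.sub]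
  ring

end Altf

namespace Gp
variable {w u : K} (h : Gp w u)
include h

lemma swap : Gp u w := ⟨h.u0, h.u1, h.w0, h.w1, by rw [← neg_sub]; exact neg_ne_zero.2 h.uw⟩

lemma inv : Gp w⁻¹ u⁻¹ := by
  have := h.w0; have := h.u0
  refine ⟨inv_ne_zero h.w0, ?_, inv_ne_zero h.u0, ?_, ?_⟩
  · have : w⁻¹ - 1 = -(w - 1) / w := by field_simp; ring
    rw [this]; exact div_ne_zero (neg_ne_zero.2 h.w1) h.w0
  · have : u⁻¹ - 1 = -(u - 1) / u := by field_simp; ring
    rw [this]; exact div_ne_zero (neg_ne_zero.2 h.u1) h.u0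
  · have : u⁻¹ - w⁻¹ = -(u - w) / (u * w) := by field_simp; ring
    rw [this]; exact div_ne_zero (neg_ne_zero.2 h.uw) (mul_ne_zero h.u0 h.w0)

lemma scale : Gp w⁻¹ (u / w) := by
  have := h.w0; have := h.u0
  refine ⟨inv_ne_zero h.w0, h.inv.w1, div_ne_zero h.u0 h.w0, ?_, ?_⟩
  · have : u / w - 1 = (u - w) / w := by field_simp
    rw [this]; exact div_ne_zero h.uw h.w0
  · have : u / w - w⁻¹ = (u - 1) / w := by field_simp
    rw [this]; exact div_ne_zero h.u1 h.w0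

end Gp

section
variable (v0 vi : K × K)

/-- the points of the line in terms of a basis -/
def P (z : K) : K × K := z • vi + v0

variable {v0 vi}

lemma br_v0_P (z : K) : br v0 (P v0 vi z) = z * br v0 vi := by
  rw [P, br_add_right, br_smul_right, br_self, add_zero]

lemma br_vi_P (z : K) : br vi (P v0 vi z) = - br v0 vi := by
  rw [P, br_add_right, br_smul_right, br_self, br_swap v0 vi]; ring

lemma br_P_P (y z : K) : br (P v0 vi y) (P v0 vi z) = (z - y) * br v0 vi := by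
  rw [P, P, br_add_right, br_add_left, br_add_left, br_smul_right, br_smul_left, br_smul_left,
    br_self, br_self, br_swap v0 vi, br_smul_right]
  ring

variable (hg : br v0 vi ≠ 0)
include hg

lemma X_v0_vi (x y : K) (hx : x ≠ 0) :
    X v0 vi (P v0 vi x) (P v0 vi y) = y / x := by
  rw [X, br_v0_P, br_vi_P, br_vi_P, br_v0_P]
  field_simp

lemma X_v0 (x y z : K) (hy : y ≠ 0) (hxz : z - x ≠ 0) :
    X v0 (P v0 vi x) (P v0 vi y) (P v0 vi z) = (z * (y - x)) / ((z - x) * y) := by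
  rw [X, br_v0_P, br_P_P, br_P_P, br_v0_P]
  field_simp

lemma X_vi (x y z : K) (hxz : z - x ≠ 0) :
    X vi (P v0 vi x) (P v0 vi y) (P v0 vi z) = (y - x) / (z - x) := by
  rw [X, br_vi_P, br_P_P, br_P_P, br_vi_P]
  field_simp

lemma g4 {b c : K} (hb : b ≠ 0) (hc : c ≠ 0) (hbc : c - b ≠ 0) :
    G4 v0 vi (P v0 vi b) (P v0 vi c) where
  ab := hg
  ac := by rw [br_v0_P]; exact mul_ne_zero hb hg
  ad := by rw [br_v0_P]; exact mul_ne_zero hc hg
  bc := by rw [br_vi_P]; exact neg_ne_zero.2 hg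
  bd := by rw [br_vi_P]; exact neg_ne_zero.2 hg
  cd := by rw [br_P_P]; exact mul_ne_zero hbc hg

lemma g5 {b w u : K} (hb : b ≠ 0) (h : Gp w u) :
    G5 v0 vi (P v0 vi b) (P v0 vi (b * w)) (P v0 vi (b * u)) where
  toG4 := g4 hg hb (mul_ne_zero hb h.w0) (by
    have : b * w - b = b * (w - 1) := by ring
    rw [this]; exact mul_ne_zero hb h.w1)
  ae := by rw [br_v0_P]; exact mul_ne_zero (mul_ne_zero hb h.u0) hg
  be := by rw [br_vi_P]; exact neg_ne_zero.2 hg
  ce := by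
    rw [br_P_P]
    refine mul_ne_zero ?_ hg
    have : b * u - b = b * (u - 1) := by ring
    rw [this]; exact mul_ne_zero hb h.u1
  de := by
    rw [br_P_P]
    refine mul_ne_zero ?_ hg
    have : b * u - b * w = b * (u - w) := by ring
    rw [this]; exact mul_ne_zero hb h.uw

lemma FF_P {l : K → ℚ} (hl : Altf l) {b w u : K} (hb : b ≠ 0) (h : Gp w u) :
    FF l v0 vi (P v0 vi b) (P v0 vi (b * w)) (P v0 vi (b * u)) = Fl l w u := by
  have := h.w0; have := h.w1; have := h.u0; have := h.u1; have := h.uw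
  have n1 : b * u - b ≠ 0 := by
    have : b * u - b = b * (u - 1) := by ring
    rw [this]; exact mul_ne_zero hb h.u1
  have e1 : (b * w - b) / (b * u - b) = ((u - 1) / (w - 1))⁻¹ := by
    rw [inv_div]; field_simp
  have e2 : (b * u * (b * w - b)) / ((b * u - b) * (b * w)) =
      ((u - 1) * w / (u * (w - 1)))⁻¹ := by
    rw [inv_div]; field_simp
  have e3 : b * u / (b * w) = u / w := by field_simp
  have e4 : b * u / b = u := by field_simp
  have e5 : b * w / b = w := by field_simp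
  rw [FF, X_vi hg _ _ _ n1, X_v0 hg _ _ _ (mul_ne_zero hb h.w0) n1,
    X_v0_vi hg _ _ (mul_ne_zero hb h.w0), X_v0_vi hg _ _ hb, X_v0_vi hg _ _ hb, e1, e2, e3, e4,
    e5, hl.inv, hl.inv, Fl]
  ring

end

namespace Sol
variable {Ψ : V4 K} (S : Sol Ψ)
include S

lemma Dl_swap34 {a b c d : K × K} (h : G4 a b c d) (x : K) :
    Dl Ψ a b d c x = - Dl Ψ a b c d x := by
  rw [Dl, Dl, S.L_swap23 h.ac h.ad h.cd, S.L_swap23 h.bc h.bd h.cd]; ring

variable {v0 vi : K × K} (hg : br v0 vi ≠ 0)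
include hg

/-- the value on the five-term elements -/
def _root_.Helper14.W4.N (Ψ : V4 K) (v0 vi : K × K) (b w u : K) : ℚ :=
  Fl (L Ψ v0 vi (P v0 vi b)) w u

lemma altP {b : K} (hb : b ≠ 0) : Altf (L Ψ v0 vi (P v0 vi b)) :=
  S.altf hg (by rw [br_v0_P]; exact mul_ne_zero hb hg)
    (by rw [br_vi_P]; exact neg_ne_zero.2 hg)

lemma N_eq {b w u : K} (hb : b ≠ 0) (h : Gp w u) :
    N Ψ v0 vi b w u = Dl Ψ v0 vi (P v0 vi b) (P v0 vi (b * w)) u := by
  have e : b * u / b = u := by field_simp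
  rw [N, ← FF_P hg (S.altP hg hb) hb h, S.iv (g5 hg hb h), X_v0_vi hg _ _ hb, e]

lemma K1 {b w u : K} (hb : b ≠ 0) (h : Gp w u) :
    N Ψ v0 vi b w u = - N Ψ v0 vi (b * w) w u := by
  have hbw := mul_ne_zero hb h.w0
  have hg4 := (g5 hg hb h).toG4
  have h1 := S.N_eq hg hbw h.inv
  have e : b * w * w⁻¹ = b := by
    have := h.w0
    field_simp
  rw [e, S.Dl_swap34 hg4, (S.Dl_altf hg4).inv, neg_neg, ← S.N_eq hg hb h] at h1
  rw [← h1, N, (S.altP hg hbw).Fl_inv h, N]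

lemma N_swap {b w u : K} (hb : b ≠ 0) (h : Gp w u) :
    N Ψ v0 vi b u w = - N Ψ v0 vi b w u := (S.altP hg hb).Fl_swap h

lemma K2 {b w u : K} (hb : b ≠ 0) (h : Gp w u) :
    N Ψ v0 vi b w u = - N Ψ v0 vi (b * u) w u := by
  have h1 := S.K1 hg hb h.swap
  rw [S.N_swap hg hb h, S.N_swap hg (mul_ne_zero hb h.u0) h] at h1
  linarith

lemma K3 {b w u : K} (hb : b ≠ 0) (h : Gp w u) :
    N Ψ v0 vi b w u = - N Ψ v0 vi (b * (u / w)) w u := by
  have h1 := S.K2 hg hb h.scale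
  have h2 : N Ψ v0 vi b w⁻¹ (u / w) = _ := (S.altP hg hb).Fl_scale h
  have h3 : N Ψ v0 vi (b * (u / w)) w⁻¹ (u / w) = _ :=
    (S.altP hg (mul_ne_zero hb (div_ne_zero h.u0 h.w0))).Fl_scale h
  rw [h2, h3] at h1
  simp only [N]
  linarith

lemma N_zero {b w u : K} (hb : b ≠ 0) (h : Gp w u) : N Ψ v0 vi b w u = 0 := by
  have h1 := S.K2 hg hb h
  have h2 := S.K3 hg hb h
  have h3 := S.K1 hg (mul_ne_zero hb (div_ne_zero h.u0 h.w0)) h
  have e : b * (u / w) * w = b * u := by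
    have := h.w0
    field_simp
  rw [e] at h3
  linarith

/-- the cocycle relation -/
lemma Dl_zero {b c : K} (hb : b ≠ 0) (hc : c ≠ 0) (hbc : c - b ≠ 0) (x : K) :
    Dl Ψ v0 vi (P v0 vi b) (P v0 vi c) x = 0 := by
  have hg4 := g4 hg hb hc hbc
  by_cases h0 : x = 0
  · subst h0; exact (S.Dl_altf hg4).zero
  by_cases h1 : x = 1
  · subst h1; exact (S.Dl_altf hg4).one
  by_cases h2 : x = c / b
  · have := S.four' hg4
    rw [X_v0_vi hg _ _ hb, ← h2] at this
    exact this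
  have hcb : c / b - 1 ≠ 0 := by
    have : c / b - 1 = (c - b) / b := by field_simp
    rw [this]; exact div_ne_zero hbc hb
  have hG : Gp (c / b) x := ⟨div_ne_zero hc hb, hcb, h0, sub_ne_zero.2 h1, sub_ne_zero.2 h2⟩
  have h3 := S.N_eq hg hb hG
  have e : b * (c / b) = c := by field_simp
  rw [e, S.N_zero hg hb hG] at h3
  exact h3.symm

end Sol

end Helper14.W4
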