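import Pool.Agent.Helper14.W4.H3
import Pool.Agent.Helper14.Gon.Coh

set_option autoImplicit false

/-!
# Elements without residues are constant
-/

noncomputable section

open Polynomial TensorProduct
open scoped Classical

namespace Helper14.W4

open Helper14.Gon

universe u v w

section
variable {K : Type u} [Field K]

lemma hom_ext_gen [IsAlgClosed K] {N : Type v} [AddCommGroup N]
    {f g : Additive (RatFunc K)ˣ →+ N}
    (h1 : ∀ κ : K, f (lg (RatFunc.C κ)) = g (lg (RatFunc.C κ)))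
    (h2 : ∀ a : K, f (ee a) = g (ee a)) : f = g := by
  refine DFunLike.ext _ _ fun v => ?_
  have hv : v ∈ AddSubgroup.closure (Set.range (fun κ : K => lg (RatFunc.C κ : RatFunc K)) ∪
      Set.range (ee : K → Additive (RatFunc K)ˣ)) := by rw [gen_top]; trivial
  induction hv using AddSubgroup.closure_induction with
  | mem x hx =>
    rcases hx with ⟨κ, rfl⟩ | ⟨a, rfl⟩
    · exact h1 κ
    · exact h2 a
  | zero => rw [map_zero, map_zero]
  | add a b _ _ ha hb => rw [map_add, map_add, ha, hb]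
  | neg a _ ha => rw [map_neg, map_neg, ha]

/-- decomposition of functionals -/
lemma dec [IsAlgClosed K] (c : K) (θ : Additive (RatFunc K)ˣ →+ ℚ) :
    ∃ φ : (K →₀ ℚ) →ₗ[ℚ] ℚ, θ = (θ.comp rU).comp (lcU c) + fD dv φ := by
  refine ⟨Finsupp.lsum ℚ fun a => LinearMap.toSpanSingleton ℚ ℚ
    (θ (ee a) - θ (rU (lcU c (ee a)))), ?_⟩
  refine hom_ext_gen (fun κ => ?_) (fun a => ?_)
  · rw [AddMonoidHom.add_apply, fD_apply, dv_C, map_zero, add_zero, AddMonoidHom.comp_apply,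
      AddMonoidHom.comp_apply, lcU_lg]
    by_cases hκ : κ = 0
    · subst hκ
      have : lg (RatFunc.C (0 : K) : RatFunc K) = 0 := by rw [map_zero, lg_zero]
      rw [this]
      simp
    · rw [lc_of_spec (spec_C c κ) hκ, rU, resU_lg]
  · rw [AddMonoidHom.add_apply, fD_apply, dv_ee, AddMonoidHom.comp_apply, AddMonoidHom.comp_apply]
    simp

/-- constants among the elements of the last terms -/
lemma rT_sT_zero (c : K) (ω : Tx 0 (RatFunc K)) : rT 0 (sT c 0 ω) = ω := by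
  have : (rT 0) ∘ₗ (sT c 0) = LinearMap.id := by
    refine Tx_ext fun v => ?_
    change rT 0 (sT c 0 (dm v)) = dm v
    rw [sT_dm, rT_dm]
    congr 1
    funext i
    exact i.elim0
  exact LinearMap.congr_fun this ω

/-- elements of `Λ^{j+1} K(t)^*` without residues are constant -/
lemma constT [IsAlgClosed K] (c : K) (j : ℕ) (ω : Tx (j + 1) (RatFunc K))
    (h : ∀ a, ctT j (va a) ω = 0) : rT (j + 1) (sT c (j + 1) ω) = ω := by
  induction j with
  | zero =>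
    rw [← sub_eq_zero]
    refine sepT fun θ => ?_
    obtain ⟨φ, hφ⟩ := dec c θ
    have h1 : ctT 0 θ ω = ctT 0 ((θ.comp rU).comp (lcU c)) ω := by
      conv_lhs => rw [hφ]
      rw [ctT_add, ctT_fD_zero dv h, add_zero]
    rw [map_sub, ctT_rT, ctT_sT, ← h1, rT_sT_zero, sub_self]
  | succ j ih =>
    rw [← sub_eq_zero]
    refine sepT fun θ => ?_
    obtain ⟨φ, hφ⟩ := dec c θ
    have h1 : ctT (j + 1) θ ω = ctT (j + 1) ((θ.comp rU).comp (lcU c)) ω := by
      conv_lhs => rw [hφ]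
      rw [ctT_add, ctT_fD_zero dv h, add_zero]
    have h2 : ∀ a, ctT j (va a) (ctT (j + 1) θ ω) = 0 := fun a => by
      rw [ctT_ctT, h a, map_zero, neg_zero]
    rw [map_sub, ctT_rT, ctT_sT, ← h1, ih _ h2, sub_self]

lemma ct_add (k j : ℕ) {F : Type u} [Field F] (θ η : Additive Fˣ →+ ℚ) (z : Cx k (j + 1) F) :
    ct k j (θ + η) z = ct k j θ z + ct k j η z := by
  rw [ct, ct, ct, ← mapT_add]
  congr 2
  exact LinearMap.ext fun ω => ctT_add j θ η ω

/-- constancy is detected by contractions -/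
lemma Cstep [IsAlgClosed K] (c : K) (k j : ℕ) (z : Cx (k + 2) (j + 1) (RatFunc K))
    (h : ∀ a, ct (k + 2) j (va a) z = 0)
    (h' : ∀ θ : Additive (RatFunc K)ˣ →+ ℚ, rC k j (sC c k j (ct (k + 2) j θ z)) =
      ct (k + 2) j θ z) : rC k (j + 1) (sC c k (j + 1) z) = z := by
  rw [← sub_eq_zero]
  refine sepC fun θ => ?_
  obtain ⟨φ, hφ⟩ := dec c θ
  have h1 : ct (k + 2) j θ z = ct (k + 2) j ((θ.comp rU).comp (lcU c)) z := by
    conv_lhs => rw [hφ]
    rw [ct_add, ct_fD_zero dv h, add_zero]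
  rw [map_sub, ct_rC, ct_sC, ← h1, h', sub_self]

/-- cocycles of degree one are constant -/
lemma const_cyc (c : K) (k : ℕ) (z : Cx (k + 2) 0 (RatFunc K)) (hz : z ∈ cyc (RatFunc K) k 0) :
    rC k 0 (sC c k 0 z) = z := by
  obtain ⟨y, _, hy⟩ := cyc_surj k z hz
  have : z = rC k 0 y := hy.symm
  rw [this, sC_rC]

/-- `E_2`: elements of `B_2(K(t))` with trivial leading part are constant -/
lemma E2 [IsAlgClosed K] (c : K) (β : Cx 2 0 (RatFunc K))
    (h : ∀ a b, ctT 0 (va b) (lt 0 (va a) β) = 0) : rC 0 0 (sC c 0 0 β) = β := by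
  have h1 : ∀ a, lt 0 (va a) β = 0 := fun a => by
    rw [← constT a 0 _ (h a), sT_lt, map_zero]
  have h2 : ∀ a, ctT 1 (va a) (dT 0 β) = 0 := h1
  have h3 := constT c 1 (dT 0 β) h2
  have h4 : β - rC 0 0 (sC c 0 0 β) ∈ cyc (RatFunc K) 0 0 := by
    change dT 0 _ = 0
    rw [map_sub, rT_dT, ← sT_dT, h3, sub_self]
  have h5 := const_cyc c 0 _ h4
  rw [map_sub, sC_rC, sub_self, map_zero] at h5
  exact (sub_eq_zero.1 h5.symm).symm

/-- the iterated Lie derivative on `B_2 ⊗ Λ^j` -/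
def ll {F : Type u} [Field F] : (j : ℕ) → (Additive Fˣ →+ ℚ) → (Additive Fˣ →+ ℚ) →
    (Cx 2 j F →ₗ[ℚ] Tx j F)
  | 0, θ, η => (ctT 0 η) ∘ₗ (lt 0 θ)
  | j + 1, θ, η => (ctT (j + 1) η) ∘ₗ (lt (j + 1) θ) + (lt j θ) ∘ₗ (ct 2 j η)

lemma ll_PB {F : Type u} [Field F] (j : ℕ) (θ η : Additive Fˣ →+ ℚ) (x : P1 F) (ω : Tx j F) :
    ll j θ η (PB 2 j (cl 2 x) ω) =
      (θ (l1P x) * η (lgP x) - θ (lgP x) * η (l1P x)) • ω := by
  cases j with
  | zero =>
    change ctT 0 η (lt 0 θ _) = _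
    rw [lt_PB, map_sub, map_smul, map_smul, ctT_wT_zero, ctT_wT_zero, smul_smul, smul_smul,
      ← sub_smul]
  | succ j =>
    change ctT (j + 1) η (lt (j + 1) θ _) + lt j θ (ct 2 j η _) = _
    rw [lt_PB, map_sub, map_smul, map_smul, ctT_wT, ctT_wT, ct_PB, lt_PB, smul_sub, smul_sub,
      smul_smul, smul_smul, sub_smul]
    abel

lemma ctT_ll {F : Type u} [Field F] (j : ℕ) (θ η ζ : Additive Fˣ →+ ℚ) (z : Cx 2 (j + 1) F) :
    ctT j ζ (ll (j + 1) θ η z) = ll j θ η (ct 2 j ζ z) := by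
  have : (ctT j ζ) ∘ₗ (ll (j + 1) θ η) = (ll j θ η) ∘ₗ (ct 2 j ζ) := by
    refine Cx_ext fun x ω => ?_
    rw [LinearMap.comp_apply, LinearMap.comp_apply, ← PB_gen, ll_PB, map_smul, ct_PB, ll_PB]
  exact LinearMap.congr_fun this z

/-- `E_3`: elements of `B_3(K(t))` without residues are constant -/
lemma E3 [IsAlgClosed K] (c : K) (β : Cx 3 0 (RatFunc K))
    (h : ∀ a, ld 0 0 (va a) β = 0) : rC 1 0 (sC c 1 0 β) = β := by
  set y := dC 0 0 β with hy
  have h1 : ∀ a, ct 2 0 (va a) y = 0 := h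
  have hd : dT 1 y = 0 := LinearMap.congr_fun (dT_dC 0) β
  have h2 : ∀ θ : Additive (RatFunc K)ˣ →+ ℚ, rC 0 0 (sC c 0 0 (ct 2 0 θ y)) = ct 2 0 θ y := by
    intro θ
    refine E2 c _ fun a b => ?_
    -- `dT β_θ = - lt θ y`
    have e1 : dT 0 (ct 2 0 θ y) = - lt 1 θ y := by
      have : lt 1 θ y = ctT 2 θ (dT 1 y) - dT 0 (ct 2 0 θ y) := rfl
      rw [this, hd, map_zero, zero_sub, neg_neg]
    have e2 : lt 0 (va a) (ct 2 0 θ y) = ctT 1 (va a) (dT 0 (ct 2 0 θ y)) := rfl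
    have e3 : ctT 1 (va a) (lt 1 θ y) = ll 1 θ (va a) y - lt 0 θ (ct 2 0 (va a) y) := by
      have : ll 1 θ (va a) y = ctT 1 (va a) (lt 1 θ y) + lt 0 θ (ct 2 0 (va a) y) := rfl
      rw [this]; abel
    rw [e2, e1, map_neg, e3, h1 a, map_zero, sub_zero, map_neg, ctT_ll, h1 b, map_zero, neg_zero]
  have h3 := Cstep c 0 0 y h1 h2
  have h4 : β - rC 1 0 (sC c 1 0 β) ∈ cyc (RatFunc K) 1 0 := by
    change dC 0 0 _ = 0
    rw [map_sub, rC_dC, ← sC_dC, ← hy, h3, sub_self]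
  have h5 := const_cyc c 1 _ h4
  rw [map_sub, sC_rC, sub_self, map_zero] at h5
  exact (sub_eq_zero.1 h5.symm).symm

/-- `E_m`, `m ≥ 3`: elements of `B_m(K(t))` without residues are constant -/
lemma Em [IsAlgClosed K] (c : K) (k : ℕ) (β : Cx (k + 3) 0 (RatFunc K))
    (h : ∀ a, ld k 0 (va a) β = 0) : rC (k + 1) 0 (sC c (k + 1) 0 β) = β := by
  induction k with
  | zero => exact E3 c β h
  | succ k ih =>
    set y := dC (k + 1) 0 β with hy
    have h1 : ∀ a, ct (k + 3) 0 (va a) y = 0 := h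
    have h2 : ∀ θ : Additive (RatFunc K)ˣ →+ ℚ,
        rC (k + 1) 0 (sC c (k + 1) 0 (ct (k + 3) 0 θ y)) = ct (k + 3) 0 θ y := by
      intro θ
      refine ih _ fun a => ?_
      have e1 : ld k 0 (va a) (ld (k + 1) 0 θ β) = ld k 0 θ (ld (k + 1) 0 (va a) β) :=
        ld_ld k 0 _ _ β
      have e2 : ld (k + 1) 0 θ β = ct (k + 3) 0 θ y := rfl
      rw [← e2, e1, h a, map_zero]
    have h3 := Cstep c (k + 1) 0 y h1 h2
    have h4 : β - rC (k + 2) 0 (sC c (k + 2) 0 β) ∈ cyc (RatFunc K) (k + 2) 0 := by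
      change dC (k + 1) 0 _ = 0
      rw [map_sub, rC_dC, ← sC_dC, ← hy, h3, sub_self]
    have h5 := const_cyc c (k + 2) _ h4
    rw [map_sub, sC_rC, sub_self, map_zero] at h5
    exact (sub_eq_zero.1 h5.symm).symm

/-- elements of `B_m(K(t)) ⊗ Λ^j`, `m ≥ 3`, without residues are constant -/
lemma Emj [IsAlgClosed K] (c : K) (k j : ℕ) (z : Cx (k + 3) (j + 1) (RatFunc K))
    (h1 : ∀ a, ct (k + 3) j (va a) z = 0) (h2 : ∀ a, ld k (j + 1) (va a) z = 0) :
    rC (k + 1) (j + 1) (sC c (k + 1) (j + 1) z) = z := by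
  induction j with
  | zero =>
    refine Cstep c (k + 1) 0 z h1 fun θ => Em c k _ fun a => ?_
    rw [← ct_ld, h2, map_zero]
  | succ j ih =>
    refine Cstep c (k + 1) (j + 1) z h1 fun θ => ih _ (fun a => ?_) fun a => ?_
    · rw [ct_ct, h1, map_zero, neg_zero]
    · rw [← ct_ld, h2, map_zero]

end

end Helper14.W4
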