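import Pool.Agent.Helper14.W4.B
import Pool.Agent.Helper14.W4.Dv

set_option autoImplicit false

/-!
# The leading terms of a cocycle in `B_3 ⊗ Λ^1`, `n = 4`
-/

noncomputable section

open Polynomial TensorProduct
open scoped Classical

namespace Helper14.W4

open Helper14.Gon

universe u v w

section
variable {K : Type u} [Field K]

/-! ### 4-linear forms -/

/-- symmetric in the first two and alternating in the last two arguments -/
structure SA (Φ : V4 K) : Prop where
  sym : ∀ p q r s, Φ p q r s = Φ q p r s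
  alt : ∀ p q r, Φ p q r r = 0

lemma SA.anti {Φ : V4 K} (h : SA Φ) (p q r s : K →₀ ℚ) : Φ p q r s = - Φ p q s r := by
  have h1 := h.alt p q (r + s)
  simp only [map_add, LinearMap.add_apply, h.alt] at h1
  linarith

/-- the functional kills the functions -/
def KF (Φ : V4 K) : Prop :=
  ∀ f : RatFunc K, f ≠ 0 → 1 - f ≠ 0 → Φ (dv (lg f)) (dv (lg f)) (dv (lg (1 - f))) (dv (lg f)) = 0

/-- swapping arguments -/
def sw12 (Φ : V4 K) : V4 K := Φ.flip

/-- `(u, v, w, y) ↦ Φ(u, v, y, w)` -/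
def sw34 (Φ : V4 K) : V4 K where
  toFun u :=
    { toFun := fun v => (Φ u v).flip
      map_add' := fun a b => by ext; simp
      map_smul' := fun c a => by ext; simp }
  map_add' a b := by ext; simp
  map_smul' c a := by ext; simp

@[simp] lemma sw34_apply (Φ : V4 K) (p q r s : K →₀ ℚ) : sw34 Φ p q r s = Φ p q s r := rfl

/-- `(u, v, w, y) ↦ Φ(u, w, v, y)` -/
def sw23 (Φ : V4 K) : V4 K where
  toFun u := (Φ u).flip
  map_add' a b := by ext; simp
  map_smul' c a := by ext; simp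

@[simp] lemma sw23_apply (Φ : V4 K) (p q r s : K →₀ ℚ) : sw23 Φ p q r s = Φ p r q s := rfl

@[simp] lemma sw12_apply (Φ : V4 K) (p q r s : K →₀ ℚ) : sw12 Φ p q r s = Φ q p r s := rfl

/-- the form on the hook: `3 Ψ(u,v,w;y) = Φ(u,v,y,w) + Φ(v,w,y,u) + Φ(u,w,y,v)` -/
def Pol (Φ : V4 K) : V4 K :=
  (1 / 3 : ℚ) • (sw34 Φ + sw12 (sw23 (sw34 Φ)) + sw23 (sw34 Φ))

lemma Pol_apply (Φ : V4 K) (u v w y : K →₀ ℚ) :
    Pol Φ u v w y = (1 / 3 : ℚ) * (Φ u v y w + Φ v w y u + Φ u w y v) := by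
  simp only [Pol, LinearMap.smul_apply, LinearMap.add_apply, sw34_apply, sw12_apply, sw23_apply,
    smul_eq_mul]

/-! ### functions of degree one and two -/

/-- the linear form with root `p` -/
def ell (p : K × K) : K[X] := C p.2 * Polynomial.X - C p.1

lemma ell_ne {p : K × K} (hp : p ≠ 0) : ell p ≠ 0 := by
  intro h
  apply hp
  have h0 := congrArg (fun q : K[X] => q.coeff 0) h
  have h1 := congrArg (fun q : K[X] => q.coeff 1) h
  simp [ell] at h0 h1
  ext
  · exact h0
  · exact h1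

lemma dvP_ell {p : K × K} (hp : p ≠ 0) : dvP (ell p) = E p := by
  by_cases h2 : p.2 = 0
  · have : ell p = C (-p.1) := by rw [ell, h2]; simp
    rw [this, dvP_C, E, if_pos h2]
  · have e : ell p = C p.2 * (Polynomial.X - C (p.1 / p.2)) := by
      rw [ell, mul_sub, ← C_mul]
      congr 2
      field_simp
    rw [e, dvP_mul (C_ne_zero.2 h2) (X_sub_C_ne_zero _), dvP_C, dvP_X_sub_C, zero_add, E,
      if_neg h2]

lemma ne_zero_of_br {p q : K × K} (h : br p q ≠ 0) : p ≠ 0 := by
  rintro rfl; apply h; simp [br]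

lemma ne_zero_of_br' {p q : K × K} (h : br p q ≠ 0) : q ≠ 0 := by
  rintro rfl; apply h; simp [br]

/-- the divisor of a function with numerator and denominator given up to constants -/
lemma dv_frac {P Q : K[X]} (hP : P ≠ 0) (hQ : Q ≠ 0) :
    dv (lg (algebraMap K[X] (RatFunc K) P / algebraMap K[X] (RatFunc K) Q)) = dvP P - dvP Q := by
  rw [dv_lg, dvR_div hP hQ]

/-- a form killing functions kills pairs of divisors of polynomials `A + B = C` -/
lemma KF.poly {Φ : V4 K} (h : KF Φ) {A B C : K[X]} (hA : A ≠ 0) (hB : B ≠ 0) (hC : C ≠ 0)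
    (e : A + B = C) :
    Φ (dvP A - dvP C) (dvP A - dvP C) (dvP B - dvP C) (dvP A - dvP C) = 0 := by
  have hA' := RatFunc.algebraMap_ne_zero (K := K) hA
  have hB' := RatFunc.algebraMap_ne_zero (K := K) hB
  have hC' := RatFunc.algebraMap_ne_zero (K := K) hC
  set f : RatFunc K := algebraMap K[X] (RatFunc K) A / algebraMap K[X] (RatFunc K) C with hf
  have e1 : 1 - f = algebraMap K[X] (RatFunc K) B / algebraMap K[X] (RatFunc K) C := by
    rw [hf, ← e] at *
    rw [map_add] at *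
    field_simp
    ring
  have := h f (div_ne_zero hA' hC') (by rw [e1]; exact div_ne_zero hB' hC')
  rwa [e1, dv_frac hB hC, hf, dv_frac hA hC] at this

lemma H1_of {Φ : V4 K} (h : KF Φ) {p q r : K × K} (hpq : br p q ≠ 0) (hpr : br p r ≠ 0)
    (hqr : br q r ≠ 0) :
    Φ (E p - E q) (E p - E q) (E r - E q) (E p - E q) = 0 := by
  have hp := ne_zero_of_br hpq
  have hq := ne_zero_of_br' hpq
  have hr := ne_zero_of_br' hpr
  have k1 : C (br q r) * ell p ≠ 0 := mul_ne_zero (C_ne_zero.2 hqr) (ell_ne hp)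
  have k2 : C (br p q) * ell r ≠ 0 := mul_ne_zero (C_ne_zero.2 hpq) (ell_ne hr)
  have k3 : C (br p r) * ell q ≠ 0 := mul_ne_zero (C_ne_zero.2 hpr) (ell_ne hq)
  have e : C (br q r) * ell p + C (br p q) * ell r = C (br p r) * ell q := by
    simp only [ell, br, C_sub, C_mul]
    ring
  have := h.poly k1 k2 k3 e
  rwa [dvP_mul (C_ne_zero.2 hqr) (ell_ne hp), dvP_mul (C_ne_zero.2 hpq) (ell_ne hr),
    dvP_mul (C_ne_zero.2 hpr) (ell_ne hq), dvP_C, dvP_C, dvP_C, zero_add, zero_add, zero_add,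
    dvP_ell hp, dvP_ell hq, dvP_ell hr] at this

lemma H2_of {Φ : V4 K} (h : KF Φ) {a b c d e : K × K} (hac : br a c ≠ 0)
    (hae : br a e ≠ 0) (hbc : br b c ≠ 0)
    (hbe : br b e ≠ 0) (hcd : br c d ≠ 0) (hce : br c e ≠ 0) (hde : br d e ≠ 0) :
    Φ (E a + E b - E c - E d) (E a + E b - E c - E d)
      (E e + E (inv4 a b c d e) - E c - E d) (E a + E b - E c - E d) = 0 := by
  have ha := ne_zero_of_br hac
  have hb := ne_zero_of_br hbc
  have hc := ne_zero_of_br hcd
  have hd := ne_zero_of_br hde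
  have he := ne_zero_of_br' hae
  have kc : br c (inv4 a b c d e) = br a c * br d e * br b c := by
    rw [inv4, br_add_right, br_smul_right, br_smul_right, br_self, br_swap b c, br_swap a c]
    ring
  have hi : inv4 a b c d e ≠ 0 := by
    refine ne_zero_of_br' (p := c) ?_
    rw [kc]; exact mul_ne_zero (mul_ne_zero hac hde) hbc
  have n1 : C (br c e * br d e) ≠ 0 := C_ne_zero.2 (mul_ne_zero hce hde)
  have n2 : C (br a e * br b e) ≠ 0 := C_ne_zero.2 (mul_ne_zero hae hbe)
  have n3 : (C (-1 : K)) ≠ 0 := C_ne_zero.2 (neg_ne_zero.2 one_ne_zero)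
  have m1 := mul_ne_zero (ell_ne ha) (ell_ne hb)
  have m2 := mul_ne_zero (ell_ne hc) (ell_ne hd)
  have m3 := mul_ne_zero (ell_ne he) (ell_ne hi)
  have ee : C (br c e * br d e) * (ell a * ell b) + C (-1) * (ell e * ell (inv4 a b c d e)) =
      C (br a e * br b e) * (ell c * ell d) := by
    simp only [ell, inv4, br, C_sub, C_mul, Prod.fst_add, Prod.snd_add, Prod.smul_fst,
      Prod.smul_snd, smul_eq_mul, C_add, C_neg, C_1]
    ring
  have := h.poly (mul_ne_zero n1 m1) (mul_ne_zero n3 m3) (mul_ne_zero n2 m2) ee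
  rw [dvP_mul n1 m1, dvP_mul n2 m2, dvP_mul n3 m3, dvP_C, dvP_C, dvP_C, zero_add, zero_add,
    zero_add, dvP_mul (ell_ne ha) (ell_ne hb), dvP_mul (ell_ne hc) (ell_ne hd),
    dvP_mul (ell_ne he) (ell_ne hi), dvP_ell ha, dvP_ell hb, dvP_ell hc, dvP_ell hd,
    dvP_ell he, dvP_ell hi] at this
  rw [← sub_sub, ← sub_sub] at this
  exact this

/-- the polarisation of a symmetric form killing functions -/
lemma sol_Pol {Φ : V4 K} (hs : SA Φ) (h : KF Φ) : Sol (Pol Φ) where
  s12 u v w y := by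
    rw [Pol_apply, Pol_apply, hs.sym v u]; ring
  s23 u v w y := by
    rw [Pol_apply, Pol_apply, hs.sym w v]; ring
  diag u := by
    rw [Pol_apply, hs.alt]; ring
  H1 p q r hpq hpr hqr := by
    rw [Pol_apply, H1_of h hpq hpr hqr]; ring
  H2 a b c d e hac had hae hbc hbd hbe hcd hce hde := by
    rw [Pol_apply, H2_of h hac hae hbc hbe hcd hce hde]; ring

end

end Helper14.W4
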