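import Pool.Agent.Helper14.W4.Lk

set_option autoImplicit false

/-!
# The leading terms of a cocycle in `B_3 ⊗ Λ^1`, `n = 4`: arrays
-/

noncomputable section

open Polynomial TensorProduct
open scoped Classical

namespace Helper14.W4

open Helper14.Gon

universe u v w

section
variable {K : Type u} [Field K]

/-- arrays -/
abbrev Arr (K : Type u) : Type u := K × K × K × K → ℚ

/-- the array of `p ⊗ q ⊗ (r ∧ s)` -/
def arr (p q r s : K →₀ ℚ) : Arr K := fun t =>
  p t.1 * q t.2.1 * (r t.2.2.1 * s t.2.2.2 - r t.2.2.2 * s t.2.2.1)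

/-- the form given by a functional on arrays -/
def PhiL (Λ : Arr K →ₗ[ℚ] ℚ) : V4 K where
  toFun p :=
    { toFun := fun q =>
        { toFun := fun r =>
            { toFun := fun s => Λ (arr p q r s)
              map_add' := fun s s' => by
                rw [← map_add]; congr 1; funext t; simp [arr]; ring
              map_smul' := fun c s => by
                rw [← map_smul]; congr 1; funext t; simp [arr]; ring }
          map_add' := fun r r' => by
            ext s
            change Λ (arr p q (r + r') _) = Λ (arr p q r _) + Λ (arr p q r' _)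
            rw [← map_add]; congr 1; funext t; simp [arr]; ring
          map_smul' := fun c r => by
            ext s
            change Λ (arr p q (c • r) _) = c • Λ (arr p q r _)
            rw [← map_smul]; congr 1; funext t; simp [arr]; ring }
      map_add' := fun q q' => by
        ext r s
        change Λ (arr p (q + q') _ _) = Λ (arr p q _ _) + Λ (arr p q' _ _)
        rw [← map_add]; congr 1; funext t; simp [arr]; ring
      map_smul' := fun c q => by
        ext r s
        change Λ (arr p (c • q) _ _) = c • Λ (arr p q _ _)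
        rw [← map_smul]; congr 1; funext t; simp [arr]; ring }
  map_add' p p' := by
    ext q r s
    change Λ (arr (p + p') _ _ _) = Λ (arr p _ _ _) + Λ (arr p' _ _ _)
    rw [← map_add]; congr 1; funext t; simp [arr]; ring
  map_smul' c p := by
    ext q r s
    change Λ (arr (c • p) _ _ _) = c • Λ (arr p _ _ _)
    rw [← map_smul]; congr 1; funext t; simp [arr]; ring

lemma PhiL_apply (Λ : Arr K →ₗ[ℚ] ℚ) (p q r s : K →₀ ℚ) : PhiL Λ p q r s = Λ (arr p q r s) := rfl

lemma exp_sum {S : Finset K} {p : K →₀ ℚ} (hp : p.support ⊆ S) :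
    p = ∑ a ∈ S, p a • Finsupp.single a (1 : ℚ) := by
  conv_lhs => rw [← Finsupp.sum_single p]
  rw [Finsupp.sum, Finset.sum_subset hp]
  · refine Finset.sum_congr rfl fun i _ => ?_
    rw [Finsupp.smul_single, smul_eq_mul, mul_one]
  · intro i _ hi
    rw [Finsupp.notMem_support_iff.1 hi, Finsupp.single_zero]

/-- on a finite set of points every alternating form comes from a functional on arrays -/
lemma exists_PhiL {Φ : V4 K} (h : ∀ p q r s, Φ p q r s = - Φ p q s r) (S : Finset K) :
    ∃ Λ : Arr K →ₗ[ℚ] ℚ, ∀ p q r s : K →₀ ℚ, p.support ⊆ S → q.support ⊆ S → r.support ⊆ S →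
      s.support ⊆ S → Φ p q r s = Λ (arr p q r s) := by
  refine ⟨∑ a ∈ S, ∑ b ∈ S, ∑ c ∈ S, ∑ d ∈ S, (1 / 2 * Φ (Finsupp.single a 1)
    (Finsupp.single b 1) (Finsupp.single c 1) (Finsupp.single d 1)) •
    (LinearMap.proj (a, b, c, d) : Arr K →ₗ[ℚ] ℚ), fun p q r s hp hq hr hs => ?_⟩
  have h1 : ∀ r s : K →₀ ℚ, r.support ⊆ S → s.support ⊆ S → Φ p q r s =
      ∑ a ∈ S, ∑ b ∈ S, ∑ c ∈ S, ∑ d ∈ S, p a * q b * (r c * s d) * Φ (Finsupp.single a 1)
        (Finsupp.single b 1) (Finsupp.single c 1) (Finsupp.single d 1) := by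
    intro r s hr hs
    have a1 : Φ p q r s = ∑ a ∈ S, p a * Φ (Finsupp.single a 1) q r s := by
      conv_lhs => rw [exp_sum hp]
      simp only [map_sum, map_smul, LinearMap.sum_apply, LinearMap.smul_apply, smul_eq_mul]
    have a2 : ∀ a, Φ (Finsupp.single a 1) q r s =
        ∑ b ∈ S, q b * Φ (Finsupp.single a 1) (Finsupp.single b 1) r s := by
      intro a
      conv_lhs => rw [exp_sum hq]
      simp only [map_sum, map_smul, LinearMap.sum_apply, LinearMap.smul_apply, smul_eq_mul]
    have a3 : ∀ a b, Φ (Finsupp.single a 1) (Finsupp.single b 1) r s =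
        ∑ c ∈ S, r c * Φ (Finsupp.single a 1) (Finsupp.single b 1) (Finsupp.single c 1) s := by
      intro a b
      conv_lhs => rw [exp_sum hr]
      simp only [map_sum, map_smul, LinearMap.sum_apply, LinearMap.smul_apply, smul_eq_mul]
    have a4 : ∀ a b c, Φ (Finsupp.single a 1) (Finsupp.single b 1) (Finsupp.single c 1) s =
        ∑ d ∈ S, s d * Φ (Finsupp.single a 1) (Finsupp.single b 1) (Finsupp.single c 1)
          (Finsupp.single d 1) := by
      intro a b c
      conv_lhs => rw [exp_sum hs]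
      simp only [map_sum, map_smul, smul_eq_mul]
    rw [a1]
    refine Finset.sum_congr rfl fun a _ => ?_
    rw [a2, Finset.mul_sum]
    refine Finset.sum_congr rfl fun b _ => ?_
    rw [a3, Finset.mul_sum, Finset.mul_sum]
    refine Finset.sum_congr rfl fun c _ => ?_
    rw [a4, Finset.mul_sum, Finset.mul_sum, Finset.mul_sum]
    refine Finset.sum_congr rfl fun d _ => ?_
    ring
  have h2 : Φ p q r s = 1 / 2 * (Φ p q r s - Φ p q s r) := by
    have := h p q r s
    linarith
  rw [h2, h1 r s hr hs, h1 s r hs hr]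
  simp only [LinearMap.sum_apply, LinearMap.smul_apply, LinearMap.proj_apply, smul_eq_mul, arr,
    ← Finset.sum_sub_distrib, Finset.mul_sum]
  refine Finset.sum_congr rfl fun a _ => Finset.sum_congr rfl fun b _ =>
    Finset.sum_congr rfl fun c _ => Finset.sum_congr rfl fun d _ => ?_
  ring

/-- the key identity for symmetric arrays -/
lemma key_M {ι : Type v} (I : Finset ι) (r : ι → ℚ) (G A Y : ι → (K →₀ ℚ))
    (hsym : ∀ a b c d : K, ∑ i ∈ I, r i * arr (G i) (A i) (Y i) (A i) (a, b, c, d) =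
      ∑ i ∈ I, r i * arr (G i) (A i) (Y i) (A i) (b, a, c, d))
    {Φ : V4 K} (hΦ : SA Φ) :
    4 * ∑ i ∈ I, r i * Φ (G i) (A i) (Y i) (A i) =
      3 * ∑ i ∈ I, r i * (Pol Φ (A i) (A i) (G i) (Y i) - Pol Φ (G i) (A i) (Y i) (A i)) := by
  set S : Finset K := I.biUnion fun i => (G i).support ∪ ((A i).support ∪ (Y i).support) with hS
  have sG : ∀ i ∈ I, (G i).support ⊆ S := fun i hi a ha => by
    rw [hS, Finset.mem_biUnion]; exact ⟨i, hi, by simp only [Finset.mem_union]; tauto⟩
  have sA : ∀ i ∈ I, (A i).support ⊆ S := fun i hi a ha => by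
    rw [hS, Finset.mem_biUnion]; exact ⟨i, hi, by simp only [Finset.mem_union]; tauto⟩
  have sY : ∀ i ∈ I, (Y i).support ⊆ S := fun i hi a ha => by
    rw [hS, Finset.mem_biUnion]; exact ⟨i, hi, by simp only [Finset.mem_union]; tauto⟩
  obtain ⟨Λ, hΛ⟩ := exists_PhiL hΦ.anti S
  have key : ∑ i ∈ I, r i • (arr (A i) (Y i) (G i) (A i) + arr (A i) (A i) (Y i) (G i) -
      arr (G i) (A i) (Y i) (A i)) = 0 := by
    funext t
    obtain ⟨a, b, c, d⟩ := t
    have h1 := hsym a c b d
    have h2 := hsym a d b c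
    rw [← sub_eq_zero, ← Finset.sum_sub_distrib] at h1 h2
    have h3 : ∑ i ∈ I, (r i * arr (G i) (A i) (Y i) (A i) (a, c, b, d) -
        r i * arr (G i) (A i) (Y i) (A i) (c, a, b, d)) -
        ∑ i ∈ I, (r i * arr (G i) (A i) (Y i) (A i) (a, d, b, c) -
        r i * arr (G i) (A i) (Y i) (A i) (d, a, b, c)) = 0 := by rw [h1, h2, sub_zero]
    rw [← Finset.sum_sub_distrib] at h3
    rw [Finset.sum_apply, Pi.zero_apply, ← neg_eq_zero, ← Finset.sum_neg_distrib, ← h3]
    refine Finset.sum_congr rfl fun i _ => ?_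
    simp only [Pi.smul_apply, Pi.add_apply, Pi.sub_apply, arr, smul_eq_mul]
    ring
  have h1 : ∑ i ∈ I, r i * (Φ (A i) (Y i) (G i) (A i) + Φ (A i) (A i) (Y i) (G i) -
      Φ (G i) (A i) (Y i) (A i)) = 0 := by
    have := congrArg Λ key
    rw [map_zero, map_sum] at this
    rw [← this]
    refine Finset.sum_congr rfl fun i hi => ?_
    rw [map_smul, map_sub, map_add, smul_eq_mul, hΛ _ _ _ _ (sA i hi) (sY i hi) (sG i hi) (sA i hi),
      hΛ _ _ _ _ (sA i hi) (sA i hi) (sY i hi) (sG i hi),
      hΛ _ _ _ _ (sG i hi) (sA i hi) (sY i hi) (sA i hi)]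
  rw [Finset.mul_sum, Finset.mul_sum, ← sub_eq_zero, ← Finset.sum_sub_distrib, ← neg_eq_zero,
    ← Finset.sum_neg_distrib, ← h1]
  refine Finset.sum_congr rfl fun i _ => ?_
  rw [Pol_apply, Pol_apply, hΦ.anti (G i) (A i) (A i) (Y i), hΦ.anti (A i) (Y i) (A i) (G i),
    hΦ.alt (G i) (Y i) (A i), hΦ.sym (A i) (G i) (Y i) (A i)]
  ring

end

end Helper14.W4
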