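import Pool.Agent.Helper14.W4.Lk3

set_option autoImplicit false

/-!
# The leading terms of a cocycle in `B_3 ⊗ Λ^1`, `n = 4`: the theorem
-/

noncomputable section

open Polynomial TensorProduct
open scoped Classical

namespace Helper14.W4

open Helper14.Gon

universe u v w

section
variable {K : Type u} [Field K]

/-- The leading terms of a cocycle are those of a coboundary. -/
theorem lead_terms [IsAlgClosed K] {z : Cx 3 1 (RatFunc K)} (hz : dC 0 1 z = 0) :
    ∃ w : Cx 4 0 (RatFunc K), mm (dC 1 0 w) = mm z := by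
  by_contra hcon
  have hnot : mm z ∉ LinearMap.range (mm ∘ₗ (dC 1 0 : Cx 4 0 (RatFunc K) →ₗ[ℚ] _)) := by
    rintro ⟨w, hw⟩
    exact hcon ⟨w, hw⟩
  obtain ⟨Λ, hΛz, hΛ⟩ := Submodule.exists_le_ker_of_notMem hnot
  obtain ⟨ζ, hζ⟩ := exists_GG 3 z
  set I := ζ.support with hI
  -- the symmetrised form
  set Φ : V4 K := PhiL Λ + sw12 (PhiL Λ) with hΦ
  have hSA : SA Φ := by
    constructor
    · intro p q r s
      simp only [hΦ, LinearMap.add_apply, sw12_apply]; ring
    · intro p q r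
      have e : ∀ p q : K →₀ ℚ, PhiL Λ p q r r = 0 := by
        intro p q
        rw [PhiL_apply]
        have : arr p q r r = 0 := by funext t; simp only [arr, Pi.zero_apply]; ring
        rw [this, map_zero]
      simp only [hΦ, LinearMap.add_apply, sw12_apply, e]; ring
  have hkill : ∀ x : P1 (RatFunc K),
      Λ (arr (dv (lgP x)) (dv (lgP x)) (dv (l1P x)) (dv (lgP x))) = 0 := by
    intro x
    rw [← mm_dC]
    have h1 := LinearMap.mem_range_self (mm ∘ₗ (dC 1 0 : Cx 4 0 (RatFunc K) →ₗ[ℚ] _))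
      (PB 4 0 (cl 4 x) (u0 _))
    have h2 := hΛ h1
    rw [LinearMap.mem_ker, LinearMap.comp_apply] at h2
    exact h2
  have hKF : KF Φ := by
    intro f _ _
    have h2 := hkill (some f)
    rw [lgP_some, l1P_some] at h2
    simp only [hΦ, LinearMap.add_apply, sw12_apply, PhiL_apply]
    rw [h2, add_zero]
  have hmz : mm z = ∑ i ∈ I, ζ i • arr (dv i.2) (dv (lgP i.1)) (dv (l1P i.1)) (dv (lgP i.1)) := by
    conv_lhs => rw [hζ]
    rw [map_sum]
    refine Finset.sum_congr rfl fun i _ => ?_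
    rw [map_smul, mm_GG]
  have hsym : ∀ a b c d : K, ∑ i ∈ I, ζ i * arr (dv i.2) (dv (lgP i.1)) (dv (l1P i.1))
      (dv (lgP i.1)) (a, b, c, d) =
      ∑ i ∈ I, ζ i * arr (dv i.2) (dv (lgP i.1)) (dv (l1P i.1)) (dv (lgP i.1)) (b, a, c, d) := by
    intro a b c d
    have h := mm_symm hz a b c d
    rw [hmz, Finset.sum_apply, Finset.sum_apply] at h
    exact h
  -- the value of `Λ`
  have hval : ∑ i ∈ I, ζ i * Φ (dv i.2) (dv (lgP i.1)) (dv (l1P i.1)) (dv (lgP i.1)) =
      2 * Λ (mm z) := by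
    have h1 : Λ (mm z) = ∑ i ∈ I, ζ i * Λ (arr (dv i.2) (dv (lgP i.1)) (dv (l1P i.1))
        (dv (lgP i.1))) := by
      rw [hmz, map_sum]
      exact Finset.sum_congr rfl fun i _ => by rw [map_smul, smul_eq_mul]
    have h2 : Λ (mm z) = ∑ i ∈ I, ζ i * Λ (arr (dv (lgP i.1)) (dv i.2) (dv (l1P i.1))
        (dv (lgP i.1))) := by
      have : mm z = ∑ i ∈ I, ζ i • arr (dv (lgP i.1)) (dv i.2) (dv (l1P i.1)) (dv (lgP i.1)) := by
        funext t
        obtain ⟨a, b, c, d⟩ := t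
        rw [mm_symm hz, hmz, Finset.sum_apply, Finset.sum_apply]
        refine Finset.sum_congr rfl fun i _ => ?_
        simp only [Pi.smul_apply, arr, smul_eq_mul]
        ring
      rw [this, map_sum]
      exact Finset.sum_congr rfl fun i _ => by rw [map_smul, smul_eq_mul]
    rw [two_mul]
    nth_rewrite 1 [h1]
    rw [h2, ← Finset.sum_add_distrib]
    refine Finset.sum_congr rfl fun i _ => ?_
    simp only [hΦ, LinearMap.add_apply, sw12_apply, PhiL_apply]
    ring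
  have S := sol_Pol hSA hKF
  have k1 := key_M I (fun i => ζ i) (fun i => dv i.2) (fun i => dv (lgP i.1))
    (fun i => dv (l1P i.1)) hsym hSA
  have k2 := key_M I (fun i => ζ i) (fun i => dv i.2) (fun i => dv (lgP i.1))
    (fun i => dv (l1P i.1)) hsym (KP_SA S)
  -- the form `KP` vanishes on the cocycle
  have k3 : ∑ i ∈ I, ζ i * KP (Pol Φ) (dv i.2) (dv (lgP i.1)) (dv (l1P i.1)) (dv (lgP i.1)) =
      0 := by
    set T : Finset K := I.biUnion fun i => (dv i.2).support ∪ (dv (lgP i.1)).support with hT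
    have t1 : ∀ i ∈ I, (dv i.2).support ⊆ T := fun i hi a ha => by
      rw [hT, Finset.mem_biUnion]; exact ⟨i, hi, Finset.mem_union_left _ ha⟩
    have t2 : ∀ i ∈ I, (dv (lgP i.1)).support ⊆ T := fun i hi a ha => by
      rw [hT, Finset.mem_biUnion]; exact ⟨i, hi, Finset.mem_union_right _ ha⟩
    have : ∑ i ∈ I, ζ i * KP (Pol Φ) (dv i.2) (dv (lgP i.1)) (dv (l1P i.1)) (dv (lgP i.1)) =
        ∑ a ∈ T, ∑ b ∈ T, ∑ i ∈ I, ζ i * (va a i.2 * va b (lgP i.1) *
          kab (Pol Φ) a b (dv (l1P i.1)) (dv (lgP i.1))) := by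
      rw [Finset.sum_congr rfl fun i hi => by
        rw [KP_sum (Pol Φ) (t1 i hi) (t2 i hi), Finset.mul_sum]]
      rw [Finset.sum_comm]
      refine Finset.sum_congr rfl fun a _ => ?_
      rw [Finset.sum_congr rfl fun i hi => by rw [Finset.mul_sum]]
      rw [Finset.sum_comm]
      rfl
    rw [this]
    refine Finset.sum_eq_zero fun a _ => Finset.sum_eq_zero fun b _ => ?_
    by_cases hab : a = b
    · subst hab
      refine Finset.sum_eq_zero fun i _ => ?_
      rw [kab, if_pos rfl]; simp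
    · have := rel_spec (lam_Five S hab) hz I (fun i => ζ i) (fun i => i.1) (fun i => i.2) hζ a b
      rw [← this]
      refine Finset.sum_congr rfl fun i _ => ?_
      rw [kab, if_neg hab]
  rw [k3, mul_zero] at k2
  have k4 : ∑ i ∈ I, ζ i * (Pol (KP (Pol Φ)) (dv (lgP i.1)) (dv (lgP i.1)) (dv i.2)
      (dv (l1P i.1)) - Pol (KP (Pol Φ)) (dv i.2) (dv (lgP i.1)) (dv (l1P i.1)) (dv (lgP i.1))) =
      -2 * ∑ i ∈ I, ζ i * (Pol Φ (dv (lgP i.1)) (dv (lgP i.1)) (dv i.2)
      (dv (l1P i.1)) - Pol Φ (dv i.2) (dv (lgP i.1)) (dv (l1P i.1)) (dv (lgP i.1))) := by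
    rw [Finset.mul_sum]
    refine Finset.sum_congr rfl fun i _ => ?_
    rw [Pol_KP S, Pol_KP S]; ring
  rw [k4] at k2
  have k5 : ∑ i ∈ I, ζ i * (Pol Φ (dv (lgP i.1)) (dv (lgP i.1)) (dv i.2)
      (dv (l1P i.1)) - Pol Φ (dv i.2) (dv (lgP i.1)) (dv (l1P i.1)) (dv (lgP i.1))) = 0 := by
    linarith
  rw [k5, mul_zero] at k1
  apply hΛz
  have : 4 * (2 * Λ (mm z)) = 0 := by rw [← hval]; exact k1
  linarith

end

end Helper14.W4
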