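import Pool.Agent.Helper14.W4.N3

set_option autoImplicit false

/-!
# Localisation for `n = 4`, `i = 3`: the leading terms
-/

noncomputable section

open Polynomial TensorProduct
open scoped Classical

namespace Helper14.W4

open Helper14.Gon

universe u v w

section
variable {K : Type u} [Field K]

/-- the element `{x} ⊗ g ∧ h` -/
def HH {F : Type u} [Field F] (k : ℕ) (x : P1 F) (g h : Additive Fˣ) : Cx k 2 F :=
  PB k 2 (cl k x) (wT 1 g (wT 0 h (u0 F)))

lemma exists_HH {F : Type u} [Field F] (k : ℕ) (z : Cx k 2 F) :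
    ∃ ζ : (P1 F × Additive Fˣ × Additive Fˣ) →₀ ℚ,
      z = ∑ i ∈ ζ.support, ζ i • HH k i.1 i.2.1 i.2.2 := by
  have h : z ∈ LinearMap.range (Finsupp.linearCombination ℚ
      (fun i : P1 F × Additive Fˣ × Additive Fˣ => HH k i.1 i.2.1 i.2.2)) := by
    set P := LinearMap.range (Finsupp.linearCombination ℚ
      (fun i : P1 F × Additive Fˣ × Additive Fˣ => HH k i.1 i.2.1 i.2.2)) with hP
    induction z using Cx_ind with
    | h0 => exact zero_mem _
    | hadd a b ha hb => exact add_mem ha hb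
    | h1 x ω =>
      induction ω using Tx_ind with
      | h0 => rw [map_zero]; exact zero_mem _
      | hadd a b ha hb => rw [map_add]; exact add_mem ha hb
      | h1 v ω =>
        induction ω using Tx_ind with
        | h0 => rw [map_zero, map_zero]; exact zero_mem _
        | hadd a b ha hb => rw [map_add, map_add]; exact add_mem ha hb
        | h1 v' ω =>
          rw [← e0_inj ω, map_smul, map_smul, map_smul]
          refine Submodule.smul_mem _ _ ?_
          exact ⟨Finsupp.single (x, v, v') 1, by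
            rw [Finsupp.linearCombination_single, one_smul]; rfl⟩
  obtain ⟨ζ, hζ⟩ := h
  exact ⟨ζ, hζ.symm⟩

/-- double residues -/
def rr (a b : K) : Cx 2 2 (RatFunc K) →ₗ[ℚ] Cx 2 0 (RatFunc K) :=
  (ct 2 0 (va b)) ∘ₗ (ct 2 1 (va a))

lemma rr_anti (a b : K) (z : Cx 2 2 (RatFunc K)) : rr a b z = - rr b a z := ct_ct 2 0 _ _ z

lemma rr_HH (a b : K) (x : P1 (RatFunc K)) (g h : Additive (RatFunc K)ˣ) :
    rr a b (HH 2 x g h) = (va a g * va b h - va b g * va a h) • PB 2 0 (cl 2 x) (u0 _) := by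
  change ct 2 0 (va b) (ct 2 1 (va a) (HH 2 x g h)) = _
  simp only [HH, ct_PB, ctT_wT, ctT_wT_zero, map_sub, map_smul, smul_smul]
  rw [← sub_smul]
  congr 1; ring

/-- the array of leading coefficients of the double residues -/
def mm4 : Cx 2 2 (RatFunc K) →ₗ[ℚ] Arr K :=
  LinearMap.pi fun t => (e0 (RatFunc K)) ∘ₗ (ll 0 (va t.2.2.1) (va t.2.2.2)) ∘ₗ (rr t.1 t.2.1)

/-- the array of `(p ∧ q) ⊗ (r ∧ s)` -/
def ar4 (p q r s : K →₀ ℚ) : Arr K := fun t =>
  (p t.1 * q t.2.1 - p t.2.1 * q t.1) * (r t.2.2.1 * s t.2.2.2 - r t.2.2.2 * s t.2.2.1)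

lemma mm4_HH (x : P1 (RatFunc K)) (g h : Additive (RatFunc K)ˣ) :
    mm4 (HH 2 x g h) = ar4 (dv g) (dv h) (dv (l1P x)) (dv (lgP x)) := by
  funext t
  change e0 _ (ll 0 (va t.2.2.1) (va t.2.2.2) (rr t.1 t.2.1 (HH 2 x g h))) = _
  rw [rr_HH, map_smul, ll_PB, map_smul, map_smul, u0, e0_dm, smul_eq_mul, smul_eq_mul, ar4]
  simp only [va, co_apply]
  ring

/-- the array of the total contraction -/
lemma dT_HH (x : P1 (RatFunc K)) (g h : Additive (RatFunc K)ˣ) (a b c d : K) :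
    e0 _ (ctT 0 (va d) (ctT 1 (va c) (ctT 2 (va b) (ctT 3 (va a) (dT 2 (HH 2 x g h)))))) =
      ar4 (dv (l1P x)) (dv (lgP x)) (dv g) (dv h) (a, b, c, d) -
      ar4 (dv (l1P x)) (dv g) (dv (lgP x)) (dv h) (a, b, c, d) +
      ar4 (dv (l1P x)) (dv h) (dv (lgP x)) (dv g) (a, b, c, d) +
      ar4 (dv (lgP x)) (dv g) (dv (l1P x)) (dv h) (a, b, c, d) -
      ar4 (dv (lgP x)) (dv h) (dv (l1P x)) (dv g) (a, b, c, d) +
      ar4 (dv g) (dv h) (dv (l1P x)) (dv (lgP x)) (a, b, c, d) := by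
  rw [HH, dT_PB]
  simp only [ctT_wT, ctT_wT_zero, map_sub, map_smul, smul_sub, smul_eq_mul]
  have e1 : e0 (RatFunc K) (u0 (RatFunc K)) = 1 := by rw [u0, e0_dm]
  simp only [e1, ar4, va, co_apply]
  ring

/-! ### step 1: the leading terms of the double residues -/

/-- the form given by a linear map on arrays -/
def Phi4 {N : Type v} [AddCommGroup N] [Module ℚ N] (g : K →₀ ℚ) (Λ : Arr K →ₗ[ℚ] N) :
    V3 K N where
  toFun p :=
    { toFun := fun r =>
        { toFun := fun s => Λ (ar4 p g r s)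
          map_add' := fun s s' => by
            rw [← map_add]; congr 1; funext t; simp only [ar4, Pi.add_apply, Finsupp.add_apply]
            ring
          map_smul' := fun c s => by
            rw [← map_smul]; congr 1; funext t
            simp only [ar4, Pi.smul_apply, Finsupp.smul_apply, RingHom.id_apply, smul_eq_mul]
            ring }
      map_add' := fun r r' => by
        ext s
        change Λ (ar4 p g (r + r') _) = Λ (ar4 p g r _) + Λ (ar4 p g r' _)
        rw [← map_add]; congr 1; funext t; simp only [ar4, Pi.add_apply, Finsupp.add_apply]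
        ring
      map_smul' := fun c r => by
        ext s
        change Λ (ar4 p g (c • r) _) = c • Λ (ar4 p g r _)
        rw [← map_smul]; congr 1; funext t
        simp only [ar4, Pi.smul_apply, Finsupp.smul_apply, smul_eq_mul]
        ring }
  map_add' p p' := by
    ext r s
    change Λ (ar4 (p + p') g _ _) = Λ (ar4 p g _ _) + Λ (ar4 p' g _ _)
    rw [← map_add]; congr 1; funext t; simp only [ar4, Pi.add_apply, Finsupp.add_apply]
    ring
  map_smul' c p := by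
    ext r s
    change Λ (ar4 (c • p) g _ _) = c • Λ (ar4 p g _ _)
    rw [← map_smul]; congr 1; funext t
    simp only [ar4, Pi.smul_apply, Finsupp.smul_apply, smul_eq_mul]
    ring

lemma Phi4_apply {N : Type v} [AddCommGroup N] [Module ℚ N] (g : K →₀ ℚ) (Λ : Arr K →ₗ[ℚ] N)
    (p r s : K →₀ ℚ) : Phi4 g Λ p r s = Λ (ar4 p g r s) := rfl

lemma ar4_34 (p q r s : K →₀ ℚ) : ar4 p q r s = - ar4 p q s r := by
  funext t; simp only [ar4, Pi.neg_apply]; ring

lemma ar4_12 (p q r s : K →₀ ℚ) : ar4 p q r s = - ar4 q p r s := by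
  funext t; simp only [ar4, Pi.neg_apply]; ring

/-- values of linear maps killing functions on the total contraction -/
lemma Phi4_six {N : Type v} [AddCommGroup N] [Module ℚ N] (Λ : Arr K →ₗ[ℚ] N)
    (h : ∀ (g : K →₀ ℚ) (f : RatFunc K), f ≠ 0 → 1 - f ≠ 0 →
      Λ (ar4 (dv (lg f)) g (dv (lg (1 - f))) (dv (lg f))) = 0) (y x g k : K →₀ ℚ) :
    Λ (ar4 y x g k - ar4 y g x k + ar4 y k x g + ar4 x g y k - ar4 x k y g + ar4 g k y x) =
      (6 : ℚ) • Λ (ar4 g k y x) := by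
  have s14 : ∀ p q r s : K →₀ ℚ, Λ (ar4 p q r s) = - Λ (ar4 s q r p) := by
    intro p q r s
    have halt : ∀ p r, Phi4 q Λ p r r = 0 := fun p r => by
      rw [Phi4_apply]
      have : ar4 p q r r = 0 := by funext t; simp only [ar4, Pi.zero_apply]; ring
      rw [this, map_zero]
    exact tri_alt halt (h q) p r s
  have s12 : ∀ p q r s : K →₀ ℚ, Λ (ar4 p q r s) = - Λ (ar4 q p r s) := fun p q r s => by
    rw [ar4_12, map_neg]
  have s34 : ∀ p q r s : K →₀ ℚ, Λ (ar4 p q r s) = - Λ (ar4 p q s r) := fun p q r s => by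
    rw [ar4_34, map_neg]
  simp only [map_add, map_sub]
  have e1 : Λ (ar4 x k y g) = - Λ (ar4 g k y x) := s14 x k y g
  have e2 : Λ (ar4 x g y k) = Λ (ar4 g k y x) := by
    rw [s12, s14, neg_neg, s12, e1, neg_neg]
  have e3 : Λ (ar4 y g x k) = - Λ (ar4 g k y x) := by
    rw [s34, s14, neg_neg, s34, e2]
  have e4 : Λ (ar4 y k x g) = Λ (ar4 g k y x) := by
    rw [s12, s14, neg_neg, s12, e3, neg_neg]
  have e5 : Λ (ar4 y x g k) = Λ (ar4 g k y x) := by
    rw [s34, s12, neg_neg, s14, s12, neg_neg, s34, e3, neg_neg]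
  rw [e1, e2, e3, e4, e5]
  module

/-- The leading terms of the double residues of a cocycle are those of a coboundary. -/
theorem lead4 {z : Cx 2 2 (RatFunc K)} (hz : dT 2 z = 0) :
    ∃ w : Cx 3 1 (RatFunc K), mm4 (dC 0 1 w) = mm4 z := by
  set P := LinearMap.range (mm4 ∘ₗ (dC 0 1 : Cx 3 1 (RatFunc K) →ₗ[ℚ] _)) with hP
  suffices h : mm4 z ∈ P by
    obtain ⟨w, hw⟩ := h
    exact ⟨w, hw⟩
  obtain ⟨ζ, hζ⟩ := exists_HH 2 z
  set I := ζ.support with hI
  -- every divisor comes from a function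
  have hsurj : ∀ g : K →₀ ℚ, ∃ ω : Tx 1 (RatFunc K), ∀ a, ctT 0 (va a) ω = g a • u0 _ := by
    intro g
    refine fs_ind (fun g => ∃ ω : Tx 1 (RatFunc K), ∀ a, ctT 0 (va a) ω = g a • u0 _)
      ⟨0, fun a => by rw [map_zero, Finsupp.zero_apply, zero_smul]⟩ ?_ ?_ ?_ g
    · rintro p q ⟨ω, hω⟩ ⟨ω', hω'⟩
      exact ⟨ω + ω', fun a => by rw [map_add, hω, hω', Finsupp.add_apply, add_smul]⟩
    · rintro c p ⟨ω, hω⟩
      exact ⟨c • ω, fun a => by rw [map_smul, hω, Finsupp.smul_apply, smul_smul, smul_eq_mul]⟩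
    · intro a
      exact ⟨wT 0 (ee a) (u0 _), fun b => by
        rw [ctT_wT_zero, va_ee, Finsupp.single_apply]⟩
  have hkill : ∀ (g : K →₀ ℚ) (f : RatFunc K), f ≠ 0 → 1 - f ≠ 0 →
      P.mkQ (ar4 (dv (lg f)) g (dv (lg (1 - f))) (dv (lg f))) = 0 := by
    intro g f _ _
    obtain ⟨ω, hω⟩ := hsurj g
    rw [Submodule.mkQ_apply, Submodule.Quotient.mk_eq_zero]
    refine ⟨PB 3 1 (cl 3 (some f)) ω, ?_⟩
    have e0' : dC 0 1 (PB 3 1 (cl 3 (some f)) ω) =
      PB 2 2 (cl 2 (some f)) (wT 1 (lgP (some f)) ω) := dC_PB 0 1 _ _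
    rw [LinearMap.comp_apply, e0']
    funext t
    change e0 _ (ll 0 (va t.2.2.1) (va t.2.2.2) (ct 2 0 (va t.2.1) (ct 2 1 (va t.1) _))) = _
    simp only [ct_PB, ctT_wT, hω, ctT_wT_zero, map_sub, map_smul, ll_PB, smul_eq_mul]
    have e1 : e0 (RatFunc K) (u0 (RatFunc K)) = 1 := by rw [u0, e0_dm]
    simp only [e1, ar4, va, co_apply, lgP_some, l1P_some]
    ring
  have hmz : mm4 z = ∑ i ∈ I, ζ i • ar4 (dv i.2.1) (dv i.2.2) (dv (l1P i.1)) (dv (lgP i.1)) := by
    conv_lhs => rw [hζ]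
    rw [map_sum]
    refine Finset.sum_congr rfl fun i _ => ?_
    rw [map_smul, mm4_HH]
  have h6 : (6 : ℚ) • P.mkQ (mm4 z) = 0 := by
    rw [hmz, map_sum, Finset.smul_sum]
    rw [Finset.sum_congr rfl fun i _ => by
      rw [map_smul, smul_comm, ← Phi4_six P.mkQ hkill, ← map_smul]]
    rw [← map_sum]
    have : ∑ i ∈ I, ζ i • (ar4 (dv (l1P i.1)) (dv (lgP i.1)) (dv i.2.1) (dv i.2.2) -
        ar4 (dv (l1P i.1)) (dv i.2.1) (dv (lgP i.1)) (dv i.2.2) +
        ar4 (dv (l1P i.1)) (dv i.2.2) (dv (lgP i.1)) (dv i.2.1) +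
        ar4 (dv (lgP i.1)) (dv i.2.1) (dv (l1P i.1)) (dv i.2.2) -
        ar4 (dv (lgP i.1)) (dv i.2.2) (dv (l1P i.1)) (dv i.2.1) +
        ar4 (dv i.2.1) (dv i.2.2) (dv (l1P i.1)) (dv (lgP i.1))) = 0 := by
      funext t
      obtain ⟨a, b, c, d⟩ := t
      have h1 := congrArg (fun y => e0 _ (ctT 0 (va d) (ctT 1 (va c) (ctT 2 (va b)
        (ctT 3 (va a) (dT 2 y)))))) hζ
      simp only [hz, map_zero, map_sum, map_smul, dT_HH] at h1
      rw [Pi.zero_apply, h1, Finset.sum_apply]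
      rfl
    rw [this, map_zero]
  have h4 := (smul_eq_zero.1 h6).resolve_left (by norm_num)
  rwa [Submodule.mkQ_apply, Submodule.Quotient.mk_eq_zero] at h4

end

end Helper14.W4
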