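import Pool.Agent.Helper14.W4.N4

set_option autoImplicit false

/-!
# Localisation for `n = 4`, `i = 3`: the remaining steps
-/

noncomputable section

open Polynomial TensorProduct
open scoped Classical

namespace Helper14.W4

open Helper14.Gon

universe u v w

section
variable {K : Type u} [Field K]

/-! ### step 2: the double residues -/

/-- the double residues of a cocycle can be made zero -/
theorem kill_rr [IsAlgClosed K]
    (star : ∀ (a b : K), a ≠ b → ∀ y : Cx 2 0 K, ∃ W : Cx 3 1 (RatFunc K), ∀ a' b' : K,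
      ct 2 0 (va b') (ct 2 1 (va a') (dC 0 1 W)) =
        (((if a = a' ∧ b = b' then (1 : ℚ) else 0) - (if a = b' ∧ b = a' then 1 else 0)) •
          rC 0 0 y))
    {z : Cx 2 2 (RatFunc K)} (hm : mm4 z = 0) :
    ∃ w : Cx 3 1 (RatFunc K), ∀ a b, rr a b (dC 0 1 w) = rr a b z := by
  have hc : ∀ a b, rC 0 0 (sC 0 0 0 (rr a b z)) = rr a b z := by
    intro a b
    refine E2 0 _ fun c d => ?_
    have h1 := congrFun hm (a, b, c, d)
    have h2 : e0 (RatFunc K) (ll 0 (va c) (va d) (rr a b z)) = 0 := h1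
    have h3 := e0_inj (ll 0 (va c) (va d) (rr a b z))
    rw [h2, zero_smul] at h3
    exact h3.symm
  obtain ⟨S, hS⟩ := ct_finite 2 1 z
  have hS1 : ∀ a b, a ∉ S → rr a b z = 0 := fun a b ha => by
    change ct 2 0 (va b) (ct 2 1 (va a) z) = 0
    rw [hS a ha, map_zero]
  have hS2 : ∀ a b, b ∉ S → rr a b z = 0 := fun a b hb => by
    rw [rr_anti, hS1 b a hb, neg_zero]
  have hself : ∀ a, rr a a z = 0 := fun a => by
    have h := rr_anti a a z
    rw [← add_eq_zero_iff_eq_neg, ← two_smul ℚ] at h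
    exact (smul_eq_zero.1 h).resolve_left two_ne_zero
  have hex : ∀ a b : K, ∃ W : Cx 3 1 (RatFunc K), ∀ a' b' : K, rr a' b' (dC 0 1 W) =
      ((if a = a' ∧ b = b' then (1 : ℚ) else 0) - (if a = b' ∧ b = a' then 1 else 0)) •
        rr a b z := by
    intro a b
    by_cases h : a = b
    · subst h
      exact ⟨0, fun a' b' => by rw [hself, smul_zero, map_zero, map_zero]⟩
    · obtain ⟨W, hW⟩ := star a b h (sC 0 0 0 (rr a b z))
      refine ⟨W, fun a' b' => ?_⟩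
      have := hW a' b'
      rw [hc] at this
      exact this
  choose W hW1 using hex
  refine ⟨(1 / 2 : ℚ) • ∑ a ∈ S, ∑ b ∈ S, W a b, fun a' b' => ?_⟩
  rw [map_smul, map_smul, map_sum, map_sum]
  have e1 : ∀ a ∈ S, rr a' b' (dC 0 1 (∑ b ∈ S, W a b)) =
      ∑ b ∈ S, ((if a = a' ∧ b = b' then (1 : ℚ) else 0) - (if a = b' ∧ b = a' then 1 else 0)) •
        rr a b z := by
    intro a _
    rw [map_sum, map_sum]
    exact Finset.sum_congr rfl fun b _ => hW1 a b a' b'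
  rw [Finset.sum_congr rfl e1]
  have e2 : ∀ p q : K, ∑ a ∈ S, ∑ b ∈ S, (if a = p ∧ b = q then (1 : ℚ) else 0) • rr a b z =
      rr p q z := by
    intro p q
    by_cases hp : p ∈ S
    · by_cases hq : q ∈ S
      · rw [Finset.sum_eq_single p, Finset.sum_eq_single q]
        · simp
        · intro b _ hb
          rw [if_neg (fun h : _ ∧ _ => hb h.2), zero_smul]
        · intro h; exact absurd hq h
        · intro a _ ha
          exact Finset.sum_eq_zero fun b _ => by rw [if_neg (fun h : _ ∧ _ => ha h.1), zero_smul]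
        · intro h; exact absurd hp h
      · rw [hS2 p q hq]
        refine Finset.sum_eq_zero fun a _ => Finset.sum_eq_zero fun b hb => ?_
        rw [if_neg (by rintro ⟨_, rfl⟩; exact hq hb), zero_smul]
    · rw [hS1 p q hp]
      refine Finset.sum_eq_zero fun a ha => Finset.sum_eq_zero fun b _ => ?_
      rw [if_neg (by rintro ⟨rfl, _⟩; exact hp ha), zero_smul]
  simp only [sub_smul, Finset.sum_sub_distrib]
  rw [e2, e2, rr_anti b' a' z, sub_neg_eq_add, ← two_smul ℚ, smul_smul]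
  norm_num

/-! ### step 3: the leading terms of the residues -/

/-- the array of the leading terms of the residues -/
def LL : Cx 2 2 (RatFunc K) →ₗ[ℚ] (K × K × K → Tx 1 (RatFunc K)) :=
  LinearMap.pi fun t => (ll 1 (va t.2.1) (va t.2.2)) ∘ₗ (ct 2 1 (va t.1))

lemma LL_apply (z : Cx 2 2 (RatFunc K)) (t : K × K × K) :
    LL z t = ll 1 (va t.2.1) (va t.2.2) (ct 2 1 (va t.1) z) := rfl

/-- the retraction onto constants -/
def rho : Tx 1 (RatFunc K) →ₗ[ℚ] Tx 1 (RatFunc K) := (rT 1) ∘ₗ (sT (0 : K) 1)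

lemma LL_HH (x : P1 (RatFunc K)) (g h : Additive (RatFunc K)ˣ) (t : K × K × K) :
    LL (HH 2 x g h) t = arr3 (wT 0 h (u0 _)) (dv g) (dv (l1P x)) (dv (lgP x)) t -
      arr3 (wT 0 g (u0 _)) (dv h) (dv (l1P x)) (dv (lgP x)) t := by
  rw [LL_apply, HH]
  simp only [ct_PB, ctT_wT, ctT_wT_zero, map_sub, map_smul, ll_PB, arr3]
  rw [smul_smul, smul_smul]
  simp only [va, co_apply]
  congr 1
  · congr 1; ring
  · congr 1; ring

lemma LL_dC (x : P1 (RatFunc K)) (υ : Tx 1 K) :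
    LL (dC 0 1 (PB 3 1 (cl 3 x) (rT 1 υ))) =
      arr3 (rT 1 υ) (dv (lgP x)) (dv (l1P x)) (dv (lgP x)) := by
  have e0' : dC 0 1 (PB 3 1 (cl 3 x) (rT 1 υ)) =
      PB 2 2 (cl 2 x) (wT 1 (lgP x) (rT 1 υ)) := dC_PB 0 1 _ _
  funext t
  rw [e0', LL_apply]
  simp only [ct_PB, ctT_wT, ctT_va_rT, map_zero, sub_zero, map_smul, ll_PB, arr3, smul_smul]
  simp only [va, co_apply]
  congr 1; ring

/-- the cyclic sum of the leading terms of the residues of a cocycle without double residues -/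
lemma LL_cyc {z : Cx 2 2 (RatFunc K)} (hz : dT 2 z = 0) (hr : ∀ a b, rr a b z = 0) (a b c : K) :
    LL z (a, b, c) + LL z (b, c, a) + LL z (c, a, b) = 0 := by
  have e1 : ∀ θ, lt 2 θ z = - dT 1 (ct 2 1 θ z) := fun θ => by
    have : lt 2 θ z = ctT 3 θ (dT 2 z) - dT 1 (ct 2 1 θ z) := rfl
    rw [this, hz, map_zero, zero_sub]
  have e2 : ∀ θ η, ll 2 θ η z = ctT 2 η (lt 2 θ z) + lt 1 θ (ct 2 1 η z) := fun _ _ => rfl
  have e3 : ∀ p q, ctT 2 (va q) (dT 1 (ct 2 1 (va p) z)) = lt 1 (va q) (ct 2 1 (va p) z) := by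
    intro p q
    have : lt 1 (va q) (ct 2 1 (va p) z) = ctT 2 (va q) (dT 1 (ct 2 1 (va p) z)) -
      dT 0 (rr p q z) := rfl
    rw [this, hr, map_zero, sub_zero]
  have e4 : ∀ p q r, ctT 1 (va r) (lt 1 (va q) (ct 2 1 (va p) z)) =
      ll 1 (va q) (va r) (ct 2 1 (va p) z) := by
    intro p q r
    have : ll 1 (va q) (va r) (ct 2 1 (va p) z) = ctT 1 (va r) (lt 1 (va q) (ct 2 1 (va p) z)) +
      lt 0 (va q) (rr p r z) := rfl
    rw [this, hr, map_zero, add_zero]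
  have e5 := ctT_ll 1 (va b) (va c) (va a) z
  rw [e2, e1, map_neg, e3, map_add, map_neg, e4, e4] at e5
  change ll 1 (va b) (va c) (ct 2 1 (va a) z) + ll 1 (va c) (va a) (ct 2 1 (va b) z) +
    ll 1 (va a) (va b) (ct 2 1 (va c) z) = 0
  rw [← e5, ll_anti 1 (va b) (va a)]
  abel

/-- the leading terms of the residues are constant -/
lemma LL_const [IsAlgClosed K] {z : Cx 2 2 (RatFunc K)} (hr : ∀ a b, rr a b z = 0)
    (t : K × K × K) : rho (LL z t) = LL z t := by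
  refine constT (0 : K) 0 _ fun a => ?_
  rw [LL_apply, ctT_ll]
  have : ct 2 0 (va a) (ct 2 1 (va t.1) z) = rr t.1 a z := rfl
  rw [this, hr, map_zero]

/-- The leading terms of the residues of a cocycle without double residues are those of a
coboundary. -/
theorem lead4' [IsAlgClosed K] {z : Cx 2 2 (RatFunc K)} (hz : dT 2 z = 0)
    (hr : ∀ a b, rr a b z = 0) :
    ∃ w : Cx 3 1 (RatFunc K), (∀ a b, rr a b (dC 0 1 w) = 0) ∧ LL (dC 0 1 w) = LL z := by
  set Wc : Submodule ℚ (Cx 3 1 (RatFunc K)) := Submodule.span ℚ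
    {w | ∃ (x : P1 (RatFunc K)) (υ : Tx 1 K), w = PB 3 1 (cl 3 x) (rT 1 υ)} with hWc
  have hW : ∀ w ∈ Wc, ∀ a b, rr a b (dC 0 1 w) = 0 := by
    intro w hw a b
    have : Wc ≤ LinearMap.ker ((rr a b) ∘ₗ (dC 0 1)) := by
      rw [hWc, Submodule.span_le]
      rintro _ ⟨x, υ, rfl⟩
      rw [SetLike.mem_coe, LinearMap.mem_ker, LinearMap.comp_apply]
      have e0' : dC 0 1 (PB 3 1 (cl 3 x) (rT 1 υ)) =
        PB 2 2 (cl 2 x) (wT 1 (lgP x) (rT 1 υ)) := dC_PB 0 1 _ _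
      rw [e0']
      change ct 2 0 (va b) (ct 2 1 (va a) _) = 0
      simp only [ct_PB, ctT_wT, ctT_va_rT, map_zero, sub_zero, map_sub, map_smul, smul_zero]
    exact this hw
  set P : Submodule ℚ (K × K × K → Tx 1 (RatFunc K)) := Wc.map (LL ∘ₗ (dC 0 1)) with hP
  suffices h : LL z ∈ P by
    obtain ⟨w, hw, hw'⟩ := h
    exact ⟨w, hW w hw, hw'⟩
  obtain ⟨ζ, hζ⟩ := exists_HH 2 z
  set I := ζ.support with hI
  have hkill : ∀ (υ : Tx 1 K) (f : RatFunc K), f ≠ 0 → 1 - f ≠ 0 →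
      P.mkQ (arr3 (rT 1 υ) (dv (lg f)) (dv (lg (1 - f))) (dv (lg f))) = 0 := by
    intro υ f _ _
    rw [Submodule.mkQ_apply, Submodule.Quotient.mk_eq_zero]
    refine ⟨PB 3 1 (cl 3 (some f)) (rT 1 υ), Submodule.subset_span ⟨_, _, rfl⟩, ?_⟩
    rw [LinearMap.comp_apply, LL_dC, lgP_some, l1P_some]
  have hkill' : ∀ (ω : Tx 1 (RatFunc K)) (f : RatFunc K), f ≠ 0 → 1 - f ≠ 0 →
      P.mkQ (arr3 (rho ω) (dv (lg f)) (dv (lg (1 - f))) (dv (lg f))) = 0 := fun ω =>
    hkill (sT 0 1 ω)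
  -- the representation with constant coefficients
  have hrep : LL z = ∑ i ∈ I, ζ i • (arr3 (rho (wT 0 i.2.2 (u0 _))) (dv i.2.1) (dv (l1P i.1))
      (dv (lgP i.1)) - arr3 (rho (wT 0 i.2.1 (u0 _))) (dv i.2.2) (dv (l1P i.1))
      (dv (lgP i.1))) := by
    funext t
    rw [← LL_const hr t]
    conv_lhs => rw [hζ]
    rw [map_sum, Finset.sum_apply, Finset.sum_apply, map_sum]
    refine Finset.sum_congr rfl fun i _ => ?_
    rw [map_smul, Pi.smul_apply, Pi.smul_apply, map_smul, LL_HH, map_sub]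
    simp only [arr3, Pi.sub_apply, map_smul]
  have h3 : (3 : ℚ) • P.mkQ (LL z) = 0 := by
    have e1 : (3 : ℚ) • P.mkQ (LL z) = P.mkQ (fun t => LL z t + LL z (t.2.1, t.2.2, t.1) +
        LL z (t.2.2, t.1, t.2.1)) := by
      rw [hrep, map_sum, Finset.smul_sum]
      rw [Finset.sum_congr rfl fun i _ => by
        rw [map_smul, smul_comm, map_sub, smul_sub, Phi3_three _ P.mkQ (hkill' _),
          Phi3_three _ P.mkQ (hkill' _), ← map_sub, ← map_smul]]
      rw [← map_sum]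
      congr 1
      funext t
      simp only [Finset.sum_apply, Pi.smul_apply, Pi.sub_apply, smul_add, smul_sub,
        Finset.sum_add_distrib, Finset.sum_sub_distrib]
      abel
    rw [e1]
    have e2 : (fun t : K × K × K => LL z t + LL z (t.2.1, t.2.2, t.1) +
        LL z (t.2.2, t.1, t.2.1)) = 0 := by
      funext t
      obtain ⟨a, b, c⟩ := t
      exact LL_cyc hz hr a b c
    rw [e2, map_zero]
  have h4 := (smul_eq_zero.1 h3).resolve_left (by norm_num)
  rwa [Submodule.mkQ_apply, Submodule.Quotient.mk_eq_zero] at h4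

/-- Localisation for `n = 4`, `i = 3`: surjectivity. -/
theorem surj43' [IsAlgClosed K]
    (star : ∀ (a b : K), a ≠ b → ∀ y : Cx 2 0 K, ∃ W : Cx 3 1 (RatFunc K), ∀ a' b' : K,
      ct 2 0 (va b') (ct 2 1 (va a') (dC 0 1 W)) =
        (((if a = a' ∧ b = b' then (1 : ℚ) else 0) - (if a = b' ∧ b = a' then 1 else 0)) •
          rC 0 0 y))
    (z : Cx 2 2 (RatFunc K)) (hz : dT 2 z = 0) :
    ∃ (z0 : Cx 2 2 K) (s : Finset K) (za : K → Cx 2 1 K) (w : Cx 3 1 (RatFunc K)),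
      dT 2 z0 = 0 ∧ (∀ a, dT 1 (za a) = 0) ∧
      z = rC 0 2 z0 + ∑ a ∈ s, wC 2 1 (ee a) (rC 0 1 (za a)) + dC 0 1 w := by
  have hdd : ∀ w : Cx 3 1 (RatFunc K), dT 2 (dC 0 1 w) = 0 := fun w =>
    LinearMap.congr_fun (dT_dC 1) w
  obtain ⟨w1, hw1⟩ := lead4 hz
  set z1 := z - dC 0 1 w1 with hz1
  have hm : mm4 z1 = 0 := by rw [hz1, map_sub, hw1, sub_self]
  have hd1 : dT 2 z1 = 0 := by rw [hz1, map_sub, hz, hdd, sub_zero]
  obtain ⟨w2, hw2⟩ := kill_rr star hm
  set z2 := z1 - dC 0 1 w2 with hz2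
  have hr2 : ∀ a b, rr a b z2 = 0 := fun a b => by rw [hz2, map_sub, hw2, sub_self]
  have hd2 : dT 2 z2 = 0 := by rw [hz2, map_sub, hd1, hdd, sub_zero]
  obtain ⟨w3, hw3, hw3'⟩ := lead4' hd2 hr2
  set z3 := z2 - dC 0 1 w3 with hz3
  have hr3 : ∀ a b, rr a b z3 = 0 := fun a b => by rw [hz3, map_sub, hw3, hr2, sub_zero]
  have hL3 : LL z3 = 0 := by rw [hz3, map_sub, hw3', sub_self]
  have hd3 : dT 2 z3 = 0 := by rw [hz3, map_sub, hd2, hdd, sub_zero]
  obtain ⟨z0, s, za, h0, ha, h⟩ := decomp2 1 z3 hd3 (fun a =>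
    E2j 0 0 _ (fun b => hr3 a b) fun b c => congrFun hL3 (a, b, c))
  refine ⟨z0, s, za, w1 + w2 + w3, h0, ha, ?_⟩
  rw [← h, hz3, hz2, hz1, map_add, map_add]
  abel

end

end Helper14.W4
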